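import Pool.Agent.Helper27.EB.Defs

/-!
# EB-23: balls of the Schreier graph are balls of the grid

`H = a.graph.induce C` (and `a.graph` itself for `sol_iff_univ`; the first could be deduced from the same argument with `C = univ`).  Fix `x ∈ C` and let `F g = ⟨a.T g x, _⟩ : C`.
* `F` is injective (freeness: `T g x = T h x` implies `T (g - h) (T h x) = T h x`) and `grid.Adj g h ↔ H.Adj (F g) (F h)`: `h = g + e_i` iff `T h x = T e_i (T g x)` (`a.add`, freeness), `SimpleGraph.fromRel_adj`.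
* every `H`-neighbour of `F g` is `F h` with `h` adjacent to `g` (`h = g ± e_i`; `y = T e_i (T g x)` or `T g x = T e_i y`, then `y = T (-e_i) (T g x)`).
* so `ball H r (F 0) = F '' ball (grid d) r 0`: map walks by `F` (`SimpleGraph.Walk.map`), lift walks by induction (`∀ walk from F g of length ≤ r to y, ∃ h, y = F h ∧ ∃ walk from g to h of the same length`).  `F 0 = x` (`a.zero`).
* `F` induces an isomorphism of rooted labelled graphs `ballRG (grid d) r 0 (fun b => f (F b)) ≅ ballRG H r x f`; use `L.iso` in both directions (`RG.Iso` is symmetric).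
-/

set_option autoImplicit false

namespace EB

/-- `F` maps the grid isomorphically onto a union of components of `H`. -/
structure IsEmb {d : ℕ} {V : Type} (H : SimpleGraph V) (F : Gd d → V) : Prop where
  inj : Function.Injective F
  adj : ∀ g h, (grid d).Adj g h ↔ H.Adj (F g) (F h)
  nbr : ∀ g y, H.Adj (F g) y → ∃ h, F h = y

theorem RG.Iso.symm {S : Type} {A B : RG S} (h : A.Iso B) : B.Iso A := by
  obtain ⟨e, he, hl⟩ := h
  refine ⟨e.symm, ?_, fun v => ?_⟩
  · rw [← he]
    exact e.symm_apply_apply _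
  · have := hl (e.symm v)
    rw [← this]
    congr 1
    exact e.apply_symm_apply v

theorem IsEmb.lift {d : ℕ} {V : Type} {H : SimpleGraph V} {F : Gd d → V} (hF : IsEmb H F)
    {u v : V} (p : H.Walk u v) : ∀ g, F g = u →
      ∃ h, F h = v ∧ ∃ q : (grid d).Walk g h, q.length = p.length := by
  induction p with
  | nil =>
    intro g hg
    exact ⟨g, hg, SimpleGraph.Walk.nil, rfl⟩
  | cons hadj p ih =>
    intro g hg
    subst hg
    obtain ⟨h, rfl⟩ := hF.nbr g _ hadj
    obtain ⟨k, hk, q, hq⟩ := ih h rfl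
    refine ⟨k, hk, SimpleGraph.Walk.cons ((hF.adj g h).2 hadj) q, ?_⟩
    simp [hq]

theorem IsEmb.mem_ball {d : ℕ} {V : Type} {H : SimpleGraph V} {F : Gd d → V} (hF : IsEmb H F)
    (r : ℕ) (g : Gd d) : F g ∈ ball H r (F 0) ↔ g ∈ ball (grid d) r 0 := by
  constructor
  · rintro ⟨p, hp⟩
    obtain ⟨h, hh, q, hq⟩ := hF.lift p 0 rfl
    have := hF.inj hh
    subst this
    exact ⟨q, hq ▸ hp⟩
  · rintro ⟨q, hq⟩
    let φ : grid d →g H := ⟨F, fun {a b} h => (hF.adj a b).1 h⟩
    exact ⟨q.map φ, by rw [SimpleGraph.Walk.length_map]; exact hq⟩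

theorem IsEmb.iso {d : ℕ} {V S : Type} {H : SimpleGraph V} {F : Gd d → V} (hF : IsEmb H F)
    (r : ℕ) (f : V → S) {v : V} (hv : F 0 = v) :
    (ballRG (grid d) r 0 fun b => f (F b.1)).Iso (ballRG H r v fun w => f w.1) := by
  subst hv
  let e0 : ball (grid d) r 0 → ball H r (F 0) := fun b => ⟨F b.1, (hF.mem_ball r b.1).2 b.2⟩
  have hb : Function.Bijective e0 := by
    constructor
    · intro b c h
      exact Subtype.ext (hF.inj (congrArg Subtype.val h))
    · rintro ⟨w, hw⟩
      obtain ⟨p, hp⟩ := hw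
      obtain ⟨h, hh, q, hq⟩ := hF.lift p 0 rfl
      subst hh
      exact ⟨⟨h, ⟨q, hq ▸ hp⟩⟩, rfl⟩
  refine ⟨⟨Equiv.ofBijective e0 hb, ?_⟩, ?_, ?_⟩
  · intro b c
    exact (hF.adj b.1 c.1).symm
  · rfl
  · intro b
    rfl

theorem adj_graph {d : ℕ} {X : Type} [MeasurableSpace X] (a : FreeAct d X) (x y : X) :
    a.graph.Adj x y ↔
      x ≠ y ∧ ((∃ i, y = a.T (Pi.single i 1) x) ∨ ∃ i, x = a.T (Pi.single i 1) y) :=
  SimpleGraph.fromRel_adj _ _ _

theorem adj_grid {d : ℕ} (g h : Gd d) :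
    (grid d).Adj g h ↔
      g ≠ h ∧ ((∃ i, h = g + Pi.single i 1) ∨ ∃ i, g = h + Pi.single i 1) :=
  SimpleGraph.fromRel_adj _ _ _

theorem T_inj {d : ℕ} {X : Type} [MeasurableSpace X] (a : FreeAct d X) (x : X) {g h : Gd d}
    (H : a.T g x = a.T h x) : g = h := by
  have h1 : a.T (-h + g) x = x := by
    rw [a.add, H, ← a.add, neg_add_cancel, a.zero]
  have h2 := a.free _ _ h1
  have h3 := eq_neg_of_add_eq_zero_right h2
  rwa [neg_neg] at h3

theorem graph_adj_iff {d : ℕ} {X : Type} [MeasurableSpace X] (a : FreeAct d X) (x : X)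
    (g h : Gd d) : (grid d).Adj g h ↔ a.graph.Adj (a.T g x) (a.T h x) := by
  rw [adj_grid, adj_graph]
  refine and_congr ?_ (or_congr ?_ ?_)
  · exact not_congr ⟨fun e => by rw [e], fun e => T_inj a x e⟩
  · refine exists_congr fun i => ?_
    rw [← a.add, add_comm g]
    exact ⟨fun e => by rw [e], fun e => T_inj a x e⟩
  · refine exists_congr fun i => ?_
    rw [← a.add, add_comm h]
    exact ⟨fun e => by rw [e], fun e => T_inj a x e⟩

theorem graph_nbr {d : ℕ} {X : Type} [MeasurableSpace X] (a : FreeAct d X) (x : X)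
    (g : Gd d) (y : X) (h : a.graph.Adj (a.T g x) y) : ∃ k, a.T k x = y := by
  rw [adj_graph] at h
  rcases h.2 with ⟨i, hi⟩ | ⟨i, hi⟩
  · exact ⟨Pi.single i 1 + g, by rw [a.add, ← hi]⟩
  · refine ⟨-Pi.single i 1 + g, ?_⟩
    rw [a.add, hi, ← a.add, neg_add_cancel, a.zero]

theorem emb_univ {d : ℕ} {X : Type} [MeasurableSpace X] (a : FreeAct d X) (x : X) :
    IsEmb a.graph fun g => a.T g x where
  inj _ _ h := T_inj a x h
  adj := graph_adj_iff a x
  nbr g y h := graph_nbr a x g y h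

theorem emb_induce {d : ℕ} {X : Type} [MeasurableSpace X] (a : FreeAct d X) (C : Set X)
    (hC : Inv a C) (x : C) :
    IsEmb (a.graph.induce C) fun g => (⟨a.T g x.1, hC g x.1 x.2⟩ : C) where
  inj _ _ h := T_inj a x.1 (congrArg Subtype.val h)
  adj g h := graph_adj_iff a x.1 g h
  nbr g y h := by
    obtain ⟨k, hk⟩ := graph_nbr a x.1 g y.1 h
    exact ⟨k, Subtype.ext hk⟩

theorem sol_iff {d : ℕ} {X S : Type} [MeasurableSpace X] (a : FreeAct d X) (L : LCL S)
    (C : Set X) (hC : Inv a C) (f : C → S) :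
    IsSol L (a.graph.induce C) f ↔
      ∀ x : C, Allowed d L fun b => f ⟨a.T b.1 x.1, hC b.1 x.1 x.2⟩ := by
  refine forall_congr' fun x => ?_
  have h := (emb_induce a C hC x).iso L.r f (v := x) (Subtype.ext (a.zero x.1))
  exact ⟨fun hp => L.iso _ _ h.symm hp, fun hp => L.iso _ _ h hp⟩

theorem sol_iff_univ {d : ℕ} {X S : Type} [MeasurableSpace X] (a : FreeAct d X) (L : LCL S)
    (f : X → S) : IsSol L a.graph f ↔ ∀ x, Allowed d L fun b => f (a.T b.1 x) := by
  refine forall_congr' fun x => ?_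
  have h := (emb_univ a x).iso L.r f (v := x) (a.zero x)
  exact ⟨fun hp => L.iso _ _ h.symm hp, fun hp => L.iso _ _ h hp⟩

end EB
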