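import Pool.Agent.Helper27.EB.Defs

/-!
# EB-24: balls of the grid are finite

By induction on the length of a walk in the grid from `0` to `g`: `nb n g` (every step changes one coordinate by `± 1`).  So the ball is contained in `{g | nb r g} = Set.Icc (fun _ => -r) (fun _ => r)`, which is finite (`Set.finite_Icc` for the locally finite order on `Fin d → ℤ`).
-/

set_option autoImplicit false

namespace EB

private theorem single_le {d : ℕ} (j i : Fin d) :
    0 ≤ (Pi.single j (1 : ℤ) : Gd d) i ∧ (Pi.single j (1 : ℤ) : Gd d) i ≤ 1 := by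
  by_cases h : i = j
  · subst h
    simp
  · simp [Pi.single_eq_of_ne h]

private theorem adj_le {d : ℕ} {v u : Gd d} (h : (grid d).Adj v u) (i : Fin d) :
    |u i - v i| ≤ 1 := by
  unfold grid at h
  rw [SimpleGraph.fromRel_adj] at h
  obtain ⟨-, ⟨j, hj⟩ | ⟨j, hj⟩⟩ := h
  · have h1 := congrFun hj i
    obtain ⟨h2, h3⟩ := single_le j i
    rw [Pi.add_apply] at h1
    rw [abs_le]
    constructor <;> linarith
  · have h1 := congrFun hj i
    obtain ⟨h2, h3⟩ := single_le j i
    rw [Pi.add_apply] at h1
    rw [abs_le]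
    constructor <;> linarith

private theorem walk_le {d : ℕ} {v w : Gd d} (p : (grid d).Walk v w) (i : Fin d) :
    |w i - v i| ≤ (p.length : ℤ) := by
  induction p with
  | nil => simp
  | cons h p ih =>
    rename_i a b c
    have h1 := adj_le h i
    rw [SimpleGraph.Walk.length_cons]
    push_cast
    have h2 : c i - a i = (c i - b i) + (b i - a i) := by ring
    rw [h2]
    exact (abs_add_le _ _).trans (add_le_add ih h1)

theorem ball_grid_finite (d r : ℕ) : (ball (grid d) r 0).Finite := by
  refine (Set.finite_Icc (fun _ : Fin d => -(r : ℤ)) (fun _ => (r : ℤ))).subset ?_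
  rintro w ⟨p, hp⟩
  rw [Set.mem_Icc, Pi.le_def, Pi.le_def]
  have h1 : ∀ i, |w i| ≤ (r : ℤ) := by
    intro i
    have h2 := walk_le p i
    rw [Pi.zero_apply, sub_zero] at h2
    exact h2.trans (by exact_mod_cast hp)
  exact ⟨fun i => (abs_le.1 (h1 i)).1, fun i => (abs_le.1 (h1 i)).2⟩

end EB
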