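import Pool.Agent.Helper27.EB.Defs

/-!
# EB-09: the Bernoulli measure

* `FP_meas`: `(FP d)ᶜ = ⋃_{g ≠ 0} {x | sh g x = x}`, countable union, each set is measurable (`measurableSet_eq_fun` or the countable intersection of `{x | x (h + g) = x h}`).
* `bern_inv`: `sh g` is a permutation of the coordinates: `Measure.infinitePi_map_piCongrLeft` / `eq_infinitePi` (check the measure of boxes `{x | x h ∈ t h for h ∈ s}`: the preimage is a box over the translated set).
* `bern_FP`: for `g ≠ 0` the set `{x | sh g x = x}` is null: for every `n` it is contained in `{x | ∀ i < n, x ((2 i + 1) • g) = x ((2 i) • g)}`, which has measure `2^(-n)`.  Induction on `n` with independence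
  (`Indep.lean` is not needed; for instance: `⊆ {x | ∀ j ≤ n, x (j • g) = true} ∪ {x | ∀ j ≤ n, x (j • g) = false}`, and each has measure `2^-(n+1)` by `Measure.infinitePi_pi`, because the points `j • g` are distinct and `coin {b} = 1/2`).
-/

set_option autoImplicit false

namespace EB

open MeasureTheory

theorem fix_meas (d : ℕ) (g : Gd d) : MeasurableSet {x : Om d | sh g x = x} := by
  have h : {x : Om d | sh g x = x} = ⋂ h : Gd d, {x : Om d | x (h + g) = x h} := by
    ext x
    simp [sh, funext_iff]
  rw [h]
  exact MeasurableSet.iInter fun h =>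
    measurableSet_eq_fun (measurable_pi_apply _) (measurable_pi_apply _)

theorem FP_compl (d : ℕ) : (FP d)ᶜ = ⋃ g : {g : Gd d // g ≠ 0}, {x : Om d | sh g.1 x = x} := by
  ext x
  simp [FP]
  tauto

theorem FP_meas (d : ℕ) : MeasurableSet (FP d) := by
  rw [← MeasurableSet.compl_iff, FP_compl]
  exact MeasurableSet.iUnion fun g => fix_meas d g.1

theorem bern_inv (d : ℕ) (g : Gd d) : MeasurePreserving (sh g) (bern d) (bern d) := by
  refine ⟨sh_meas g, ?_⟩
  unfold bern
  refine Measure.eq_infinitePi _ fun s t ht => ?_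
  have hm : MeasurableSet (Set.pi (s : Set (Gd d)) t) :=
    MeasurableSet.pi (Set.to_countable _) fun i _ => ht i
  rw [Measure.map_apply (sh_meas g) hm]
  classical
  have h : sh g ⁻¹' (Set.pi (s : Set (Gd d)) t) =
      Set.pi ((s.map (addRightEmbedding g) : Finset (Gd d)) : Set (Gd d)) (fun h => t (h - g)) := by
    ext x
    simp only [sh, Set.mem_preimage, Set.mem_pi, Finset.mem_coe, Finset.mem_map,
      addRightEmbedding_apply]
    constructor
    · rintro h _ ⟨i, hi, rfl⟩
      rw [add_sub_cancel_right]
      exact h i hi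
    · intro h i hi
      have := h _ ⟨i, hi, rfl⟩
      rwa [add_sub_cancel_right] at this
  rw [h, Measure.infinitePi_pi _ (fun i _ => ht _), Finset.prod_map]
  refine Finset.prod_congr rfl fun i _ => ?_
  simp

theorem coin_singleton (b : Bool) : coin {b} = 2⁻¹ := by
  cases b <;> simp [coin]

theorem bern_const (d : ℕ) {g : Gd d} (hg : g ≠ 0) (b : Bool) (n : ℕ) :
    bern d {x : Om d | ∀ j ∈ Finset.range n, x ((j : ℕ) • g) = b} = (2⁻¹ : ENNReal) ^ n := by
  classical
  have hinj : Function.Injective (fun j : ℕ => j • g) := by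
    intro i j hij
    obtain ⟨k, hk⟩ : ∃ k, g k ≠ 0 := by
      by_contra hcon
      push Not at hcon
      exact hg (funext hcon)
    have h1 := congrFun hij k
    simp only [Pi.smul_apply, nsmul_eq_mul] at h1
    exact_mod_cast mul_right_cancel₀ hk h1
  have h : {x : Om d | ∀ j ∈ Finset.range n, x ((j : ℕ) • g) = b} =
      Set.pi (((Finset.range n).map ⟨_, hinj⟩ : Finset (Gd d)) : Set (Gd d)) (fun _ => {b}) := by
    ext x
    simp [Set.mem_pi]
  rw [h]
  unfold bern
  rw [Measure.infinitePi_pi _ (fun i _ => measurableSet_singleton b), Finset.prod_map]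
  simp [coin_singleton]

theorem bern_fix (d : ℕ) {g : Gd d} (hg : g ≠ 0) : bern d {x : Om d | sh g x = x} = 0 := by
  have h1 : ∀ n : ℕ, bern d {x : Om d | sh g x = x} ≤ 2 * (2⁻¹ : ENNReal) ^ n := by
    intro n
    have hsub : {x : Om d | sh g x = x} ⊆
        {x : Om d | ∀ j ∈ Finset.range n, x ((j : ℕ) • g) = true} ∪
        {x : Om d | ∀ j ∈ Finset.range n, x ((j : ℕ) • g) = false} := by
      intro x hx
      have h2 : ∀ j : ℕ, x (j • g) = x 0 := by
        intro j
        induction j with
        | zero => simp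
        | succ j ih =>
          rw [← ih]
          have := congrFun (show sh g x = x from hx) (j • g)
          rw [← this, sh, succ_nsmul]
      rcases Bool.eq_false_or_eq_true (x 0) with h | h
      · left
        intro j _
        rw [h2, h]
      · right
        intro j _
        rw [h2, h]
    calc bern d {x : Om d | sh g x = x} ≤ _ := measure_mono hsub
      _ ≤ _ := measure_union_le _ _
      _ = 2 * (2⁻¹ : ENNReal) ^ n := by rw [bern_const d hg, bern_const d hg, two_mul]
  have h3 : Filter.Tendsto (fun n : ℕ => 2 * (2⁻¹ : ENNReal) ^ n) Filter.atTop (nhds (2 * 0)) :=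
    ENNReal.Tendsto.const_mul (ENNReal.tendsto_pow_atTop_nhds_zero_of_lt_one
      (by rw [ENNReal.inv_lt_one]; norm_num)) (Or.inr (by norm_num))
  rw [mul_zero] at h3
  exact le_antisymm (ge_of_tendsto' h3 h1) zero_le

theorem bern_FP (d : ℕ) : bern d (FP d)ᶜ = 0 := by
  rw [FP_compl, measure_iUnion_null_iff]
  exact fun g => bern_fix d g.2

end EB
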