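import Pool.Agent.Helper27.EB.Defs

/-!
# EB-08: independence of disjoint windows

`bern d = Measure.infinitePi fun _ => coin`.  The coordinate maps are independent (`ProbabilityTheory.iIndepFun_infinitePi` with the identity maps) and `iIndepFun.indepFun_finset` gives the independence of
`x ↦ (x w)_{w ∈ W}` and `x ↦ (x w)_{w ∈ W'}`.  `F x = f ((x w)_{w ∈ W})` with `f` a function on the finite discrete space `W → Bool` (choose an extension by `false`), `G` in the same way, so
`{F = s}` and `{G = u}` are preimages of sets of `W → Bool`, `W' → Bool` (all sets are measurable there); `IndepFun.measure_inter_preimage_eq_mul`.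
-/

set_option autoImplicit false

namespace EB

open MeasureTheory

theorem bern_indep (d : ℕ) {S U : Type} (W W' : Finset (Gd d)) (hW : Disjoint W W')
    (F : Om d → S) (G : Om d → U) (hF : ∀ x y : Om d, (∀ w ∈ W, x w = y w) → F x = F y)
    (hG : ∀ x y : Om d, (∀ w ∈ W', x w = y w) → G x = G y) (s : S) (u : U) :
    bern d {x | F x = s ∧ G x = u} = bern d {x | F x = s} * bern d {x | G x = u} := by
  classical
  have h0 : ProbabilityTheory.iIndepFun (fun (i : Gd d) (ω : Om d) => ω i) (bern d) := by
    unfold bern
    exact ProbabilityTheory.iIndepFun_infinitePi (P := fun _ : Gd d => coin)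
      (X := fun _ b => b) (fun _ => measurable_id)
  have h1 := h0.indepFun_finset W W' hW (fun i => measurable_pi_apply i)
  let e : (V : Finset (Gd d)) → (V → Bool) → Om d := fun V v w =>
    if h : w ∈ V then v ⟨w, h⟩ else false
  let A : Set (W → Bool) := {v | F (e W v) = s}
  let B : Set (W' → Bool) := {v | G (e W' v) = u}
  have hA : {x : Om d | F x = s} = (fun (a : Om d) (i : W) => a i) ⁻¹' A := by
    ext x
    have : F x = F (e W (fun i : W => x i)) := by
      apply hF
      intro w hw
      simp [e, hw]
    simp only [Set.mem_setOf_eq, Set.mem_preimage, A]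
    rw [this]
  have hB : {x : Om d | G x = u} = (fun (a : Om d) (i : W') => a i) ⁻¹' B := by
    ext x
    have : G x = G (e W' (fun i : W' => x i)) := by
      apply hG
      intro w hw
      simp [e, hw]
    simp only [Set.mem_setOf_eq, Set.mem_preimage, B]
    rw [this]
  have hAm : MeasurableSet A := MeasurableSet.of_discrete
  have hBm : MeasurableSet B := MeasurableSet.of_discrete
  have h2 := h1.measure_inter_preimage_eq_mul A B hAm hBm
  rw [← hA, ← hB] at h2
  exact h2

end EB
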