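import Pool.Agent.Helper27.EB.Cyl
import Pool.Agent.Helper27.EB.Indep
import Pool.Agent.Helper27.EB.Bern

/-!
# EB-36: 2-mixing for the Bernoulli measure

`μ = bern d`.  Let `δ > 0` be smaller than `μ {F = a}` for all the finitely many `a` with `μ {F = a} ≠ 0` (equivalently `∃ᶠ x in ae μ, F x = a`).  `W, F'` from `cyl_approx` with `ε` so small that `2 ε < (δ - ε)^2` (for example `ε = δ^2 / 8`, `δ ≤ 1`); `M` twice a bound for the
coordinates of the elements of `W`.  If `¬ nb M g` then `W` and `W + g` are disjoint, `x ↦ F' (sh g x)` depends on the coordinates in `W + g`, so (`bern_indep`, `bern_inv`) `μ (F' x = a ∧ F' (sh g x) = b) = μ (F' = a) μ (F' = b) ≥ (δ - ε)^2`, and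
`F x = a ∧ F (sh g x) = b` holds there outside a set of measure `≤ 2 ε`.  So it has positive measure.
-/

set_option autoImplicit false

namespace EB

open MeasureTheory

private theorem mix2m_bound {d : ℕ} (W : Finset (Gd d)) :
    ∃ M : ℕ, ∀ w ∈ W, ∀ i, |w i| ≤ (M : ℤ) := by
  refine ⟨W.sup fun w => Finset.univ.sup fun i => (w i).natAbs, fun w hw i => ?_⟩
  have h1 : (w i).natAbs ≤ Finset.univ.sup fun i => (w i).natAbs :=
    Finset.le_sup (f := fun i => (w i).natAbs) (Finset.mem_univ i)
  have h2 : (Finset.univ.sup fun i => (w i).natAbs) ≤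
      W.sup fun w => Finset.univ.sup fun i => (w i).natAbs :=
    Finset.le_sup (f := fun w : Gd d => Finset.univ.sup fun i => (w i).natAbs) hw
  have h3 := h1.trans h2
  rw [Int.abs_eq_natAbs]
  exact_mod_cast h3

theorem mix2_bern (d : ℕ) {S : Type} [Finite S] (F : Om d → S) (hF : Ms F) :
    ∃ M : ℕ, ∀ a b g, ¬ nb M g → (∃ᶠ x in ae (bern d), F x = a) →
      (∃ᶠ x in ae (bern d), F x = b) → ∃ᶠ x in ae (bern d), F x = a ∧ F (sh g x) = b := by
  classical
  -- the lower bound for the measures of the fibres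
  obtain ⟨δ, hδ0, hδ1, hδ⟩ : ∃ δ : ℝ, 0 < δ ∧ δ ≤ 1 ∧
      ∀ a, (∃ᶠ x in ae (bern d), F x = a) → δ ≤ (bern d).real {x | F x = a} := by
    have : Nonempty S := ⟨F fun _ => false⟩
    obtain ⟨a₀, ha₀⟩ := Finite.exists_min fun a : S =>
      if (bern d).real {x | F x = a} = 0 then (1 : ℝ) else (bern d).real {x | F x = a}
    refine ⟨if (bern d).real {x | F x = a₀} = 0 then (1 : ℝ) else (bern d).real {x | F x = a₀},
      ?_, ?_, ?_⟩
    · split_ifs with h
      · exact one_pos
      · exact lt_of_le_of_ne measureReal_nonneg (Ne.symm h)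
    · split_ifs with h
      · exact le_refl _
      · exact measureReal_le_one
    · intro a ha
      have h1 : (bern d).real {x | F x = a} ≠ 0 := by
        intro h0
        rw [measureReal_eq_zero_iff] at h0
        exact (frequently_ae_iff.1 ha) h0
      have h2 := ha₀ a
      rw [if_neg h1] at h2
      exact h2
  have hε0 : 0 < δ ^ 2 / 16 := by positivity
  obtain ⟨W, F', hF', hdep, happ⟩ := cyl_approx d (bern d) F hF (ENNReal.ofReal (δ ^ 2 / 16))
    (ENNReal.ofReal_pos.2 hε0)
  obtain ⟨M, hM⟩ := mix2m_bound W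
  refine ⟨2 * M, fun a b g hg ha hb => ?_⟩
  by_contra hcon
  rw [frequently_ae_iff, not_not] at hcon
  have hne : MeasurableSet {x | F x ≠ F' x} := (hF.pair hF').set {p | p.1 ≠ p.2}
  have happr : (bern d).real {x | F x ≠ F' x} ≤ δ ^ 2 / 16 :=
    ENNReal.toReal_le_of_le_ofReal hε0.le happ
  have happr2 : (bern d).real {x | F (sh g x) ≠ F' (sh g x)} ≤ δ ^ 2 / 16 := by
    have h2 := (bern_inv d g).measure_preimage hne.nullMeasurableSet
    exact ENNReal.toReal_le_of_le_ofReal hε0.le ((le_of_eq h2).trans happ)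
  -- lower bounds for `F'`
  have hlow : ∀ c, (∃ᶠ x in ae (bern d), F x = c) →
      δ - δ ^ 2 / 16 ≤ (bern d).real {x | F' x = c} := by
    intro c hc
    have h1 := hδ c hc
    have h2 : (bern d).real {x | F x = c} ≤
        (bern d).real {x | F' x = c} + (bern d).real {x | F x ≠ F' x} := by
      refine (measureReal_mono (s₂ := {x | F' x = c} ∪ {x | F x ≠ F' x}) ?_).trans
        (measureReal_union_le _ _)
      intro x hx
      by_cases h3 : F x = F' x
      · left
        exact h3.symm.trans hx
      · right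
        exact h3
    linarith
  have hA := hlow a ha
  have hB := hlow b hb
  -- independence
  have hind : (bern d).real {x | F' x = a ∧ F' (sh g x) = b} =
      (bern d).real {x | F' x = a} * (bern d).real {x | F' x = b} := by
    have h1 := bern_indep d W (W.image fun w => w + g) ?_ F' (fun x => F' (sh g x)) hdep ?_ a b
    · have h2 : bern d {x | F' (sh g x) = b} = bern d {x | F' x = b} :=
        (bern_inv d g).measure_preimage (hF' b).nullMeasurableSet
      rw [h2] at h1
      unfold Measure.real
      rw [h1, ENNReal.toReal_mul]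
    · rw [Finset.disjoint_left]
      intro v hv hv'
      obtain ⟨w, hw, rfl⟩ := Finset.mem_image.1 hv'
      apply hg
      intro i
      have h3 := hM _ hv i
      have h4 := hM w hw i
      have h5 : g i = (w + g) i - w i := by
        rw [Pi.add_apply]
        ring
      rw [h5]
      have h6 := abs_sub ((w + g) i) (w i)
      push_cast
      linarith
    · intro x y hxy
      refine hdep _ _ fun w hw => ?_
      exact hxy (w + g) (Finset.mem_image_of_mem _ hw)
  have hup : (bern d).real {x | F' x = a ∧ F' (sh g x) = b} ≤ δ ^ 2 / 16 + δ ^ 2 / 16 := by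
    have h0 : (bern d).real {x | F x = a ∧ F (sh g x) = b} = 0 := by
      rw [measureReal_eq_zero_iff]
      exact hcon
    have h1 : (bern d).real {x | F' x = a ∧ F' (sh g x) = b} ≤
        (bern d).real {x | F x = a ∧ F (sh g x) = b} + ((bern d).real {x | F x ≠ F' x} +
          (bern d).real {x | F (sh g x) ≠ F' (sh g x)}) := by
      refine (measureReal_mono (s₂ := {x | F x = a ∧ F (sh g x) = b} ∪ ({x | F x ≠ F' x} ∪
        {x | F (sh g x) ≠ F' (sh g x)})) ?_).trans
        ((measureReal_union_le _ _).trans (add_le_add le_rfl (measureReal_union_le _ _)))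
      rintro x ⟨hx1, hx2⟩
      by_cases h3 : F x = F' x
      · by_cases h4 : F (sh g x) = F' (sh g x)
        · left
          exact ⟨h3.trans hx1, h4.trans hx2⟩
        · right; right
          exact h4
      · right; left
        exact h3
    linarith
  rw [hind] at hup
  have hpos : 0 ≤ δ - δ ^ 2 / 16 := by nlinarith
  have h1 : (δ - δ ^ 2 / 16) * (δ - δ ^ 2 / 16) ≤
      (bern d).real {x | F' x = a} * (bern d).real {x | F' x = b} :=
    mul_le_mul hA hB hpos measureReal_nonneg
  have h2 : δ * (15 / 16) ≤ δ - δ ^ 2 / 16 := by nlinarith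
  have h3 : (δ * (15 / 16)) * (δ * (15 / 16)) ≤ (δ - δ ^ 2 / 16) * (δ - δ ^ 2 / 16) :=
    mul_le_mul h2 h2 (by positivity) hpos
  nlinarith [mul_pos hδ0 hδ0]

end EB
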