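import Pool.Agent.Helper27.EB.LCLDefs

/-!
# Project EB (MP_eb515b_lc): affine LCL problems on the grid

Functions with measurable fibres and the group algebra `(Z/q)[Z^d]` acting on functions.
-/

set_option autoImplicit false

namespace EB

open MeasureTheory

/-- the box with radius `N` -/
def nb {d : ℕ} (N : ℕ) (g : Gd d) : Prop := ∀ i, |g i| ≤ (N : ℤ)

/-! ### Functions with countable range -/

/-- all fibres are measurable -/
def Ms {X S : Type} [MeasurableSpace X] (f : X → S) : Prop := ∀ s, MeasurableSet {x | f x = s}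

theorem Ms.set {X S : Type} [MeasurableSpace X] [Countable S] {f : X → S} (hf : Ms f)
    (E : Set S) : MeasurableSet {x | f x ∈ E} := by
  have h : {x | f x ∈ E} = ⋃ s ∈ E, {x | f x = s} := by
    ext x
    simp
  rw [h]
  exact MeasurableSet.biUnion (Set.to_countable E) fun s _ => hf s

theorem Ms.comp {X S U : Type} [MeasurableSpace X] [Countable S] {f : X → S} (hf : Ms f)
    (F : S → U) : Ms fun x => F (f x) := fun u => hf.set {s | F s = u}

/-- a countable case distinction -/
theorem Ms.bind {X S U : Type} [MeasurableSpace X] [Countable S] {f : X → S} (hf : Ms f)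
    {F : S → X → U} (hF : ∀ s, Ms (F s)) : Ms fun x => F (f x) x := by
  intro u
  have h : {x | F (f x) x = u} = ⋃ s, ({x | f x = s} ∩ {x | F s x = u}) := by
    ext x
    simp
  rw [h]
  exact MeasurableSet.iUnion fun s => (hf s).inter (hF s u)

theorem Ms.const {X S : Type} [MeasurableSpace X] (s : S) : Ms fun _ : X => s := fun u => by
  by_cases h : s = u <;> simp [h]

theorem Ms.pair {X S U : Type} [MeasurableSpace X] {f : X → S} {g : X → U} (hf : Ms f)
    (hg : Ms g) : Ms fun x => (f x, g x) := by
  rintro ⟨s, u⟩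
  have h : {x | (f x, g x) = (s, u)} = {x | f x = s} ∩ {x | g x = u} := by
    ext x
    simp
  rw [h]
  exact (hf s).inter (hg u)

theorem Ms.map2 {X S U W : Type} [MeasurableSpace X] [Countable S] [Countable U] {f : X → S}
    {g : X → U} (hf : Ms f) (hg : Ms g) (F : S → U → W) : Ms fun x => F (f x) (g x) :=
  (hf.pair hg).comp fun p => F p.1 p.2

theorem Ms.pi {X S ι : Type} [MeasurableSpace X] [Countable ι] {f : ι → X → S}
    (hf : ∀ i, Ms (f i)) : Ms fun x i => f i x := by
  intro s
  have h : {x | (fun i => f i x) = s} = ⋂ i, {x | f i x = s i} := by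
    ext x
    simp [funext_iff]
  rw [h]
  exact MeasurableSet.iInter fun i => hf i (s i)

theorem Ms.precomp {X Y S : Type} [MeasurableSpace X] [MeasurableSpace Y] {f : Y → S} (hf : Ms f)
    {T : X → Y} (hT : Measurable T) : Ms fun x => f (T x) := fun s => hT (hf s)

theorem Ms.sum {X ι A : Type} [MeasurableSpace X] [AddCommMonoid A] [Countable A]
    (s : Finset ι) {f : ι → X → A} (hf : ∀ i ∈ s, Ms (f i)) : Ms fun x => ∑ i ∈ s, f i x := by
  classical
  induction s using Finset.induction_on with
  | empty => simpa using Ms.const (X := X) (0 : A)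
  | insert i s hi ih =>
    simp only [Finset.sum_insert hi]
    exact (hf i (Finset.mem_insert_self i s)).map2
      (ih fun j hj => hf j (Finset.mem_insert_of_mem hj)) (fun a b => a + b)

theorem Ms.measurable {X S : Type} [MeasurableSpace X] [Countable S] [MeasurableSpace S]
    {f : X → S} (hf : Ms f) : Measurable f := fun E _ => hf.set E

/-! ### The group algebra -/

/-- the group algebra `(Z/q)[Z^d]` -/
abbrev Rr (q d : ℕ) : Type := AddMonoidAlgebra (ZMod q) (Gd d)

/-- the element `c x^g` -/
noncomputable def mono {q d : ℕ} (g : Gd d) (c : ZMod q) : Rr q d := AddMonoidAlgebra.single g c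

/-- `(P · Φ)(x) = ∑ g, P_g Φ(T g x)` -/
noncomputable def opf {q d : ℕ} {X : Type} (T : Gd d → X → X) (P : Rr q d) (F : X → ZMod q)
    (x : X) : ZMod q := P.coeff.sum fun g c => c * F (T g x)

/-- the pairing `∑ i, v_i · φ_i` -/
noncomputable def pr {q d k : ℕ} {X : Type} (T : Gd d → X → X) (v : Fin k → Rr q d)
    (φ : Fin k → X → ZMod q) (x : X) : ZMod q := ∑ i, opf T (v i) (φ i) x

/-- `x^g ↦ x^(m g)` -/
noncomputable def expd {q d : ℕ} (m : ℕ) : Rr q d →+* Rr q d :=
  AddMonoidAlgebra.mapDomainRingHom (ZMod q) (nsmulAddMonoidHom m : Gd d →+ Gd d)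

theorem opf_zero {q d : ℕ} {X : Type} (T : Gd d → X → X) (F : X → ZMod q) (x : X) :
    opf T 0 F x = 0 := by
  simp [opf]

theorem opf_add {q d : ℕ} {X : Type} (T : Gd d → X → X) (P Q : Rr q d) (F : X → ZMod q) (x : X) :
    opf T (P + Q) F x = opf T P F x + opf T Q F x := by
  unfold opf
  rw [AddMonoidAlgebra.coeff_add, Finsupp.sum_add_index']
  · intro g
    ring
  · intro g b c
    ring

theorem opf_mono {q d : ℕ} {X : Type} (T : Gd d → X → X) (g : Gd d) (c : ZMod q)
    (F : X → ZMod q) (x : X) : opf T (mono g c) F x = c * F (T g x) := by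
  unfold opf mono
  rw [AddMonoidAlgebra.coeff_single, Finsupp.sum_single_index (by ring)]

theorem Rr_induction {q d : ℕ} {p : Rr q d → Prop} (P : Rr q d) (h0 : p 0)
    (h1 : ∀ P Q, p P → p Q → p (P + Q)) (h2 : ∀ g c, p (mono g c)) : p P := by
  rw [← AddMonoidAlgebra.sum_coeff_single P]
  unfold Finsupp.sum
  refine Finset.sum_induction _ p h1 h0 fun g _ => ?_
  exact h2 g _

theorem opf_mul {q d : ℕ} {X : Type} {T : Gd d → X → X}
    (hT : ∀ g h x, T (g + h) x = T g (T h x)) (P Q : Rr q d) (F : X → ZMod q) (x : X) :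
    opf T (P * Q) F x = opf T P (opf T Q F) x := by
  induction P using Rr_induction with
  | h0 => rw [zero_mul, opf_zero, opf_zero]
  | h1 P P' h h' => rw [add_mul, opf_add, opf_add, h, h']
  | h2 g c =>
    induction Q using Rr_induction with
    | h0 =>
      rw [mul_zero, opf_zero, opf_mono, opf_zero, mul_zero]
    | h1 Q Q' h h' =>
      rw [mul_add, opf_add, h, h', opf_mono, opf_mono, opf_mono, opf_add]
      ring
    | h2 h c' =>
      rw [opf_mono, opf_mono]
      unfold mono
      rw [AddMonoidAlgebra.single_mul_single]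
      have h1 := opf_mono T (g + h) (c * c') F x
      unfold mono at h1
      rw [h1, ← hT, add_comm h g]
      ring

theorem opf_fadd {q d : ℕ} {X : Type} (T : Gd d → X → X) (P : Rr q d) (F F' : X → ZMod q)
    (x : X) : opf T P (fun y => F y + F' y) x = opf T P F x + opf T P F' x := by
  unfold opf
  rw [← Finsupp.sum_add]
  refine Finsupp.sum_congr fun g _ => ?_
  ring

theorem opf_Ms {q d : ℕ} [NeZero q] {X : Type} [MeasurableSpace X] {T : Gd d → X → X}
    (hT : ∀ g, Measurable (T g)) (P : Rr q d) {F : X → ZMod q} (hF : Ms F) :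
    Ms (opf T P F) := by
  unfold opf Finsupp.sum
  exact Ms.sum _ fun g _ => (hF.precomp (hT g)).comp fun c => P.coeff g * c

theorem pr_add {q d k : ℕ} {X : Type} (T : Gd d → X → X) (v w : Fin k → Rr q d)
    (φ : Fin k → X → ZMod q) (x : X) : pr T (v + w) φ x = pr T v φ x + pr T w φ x := by
  unfold pr
  rw [← Finset.sum_add_distrib]
  exact Finset.sum_congr rfl fun i _ => opf_add T (v i) (w i) (φ i) x

theorem pr_smul {q d k : ℕ} {X : Type} {T : Gd d → X → X}
    (hT : ∀ g h x, T (g + h) x = T g (T h x)) (P : Rr q d) (v : Fin k → Rr q d)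
    (φ : Fin k → X → ZMod q) (x : X) : pr T (P • v) φ x = opf T P (fun y => pr T v φ y) x := by
  classical
  unfold pr
  have h1 : ∀ s : Finset (Fin k), opf T P (fun y => ∑ i ∈ s, opf T (v i) (φ i) y) x =
      ∑ i ∈ s, opf T P (opf T (v i) (φ i)) x := by
    intro s
    induction s using Finset.induction_on with
    | empty =>
      simp [opf]
    | insert i s hi ih =>
      simp only [Finset.sum_insert hi]
      rw [opf_fadd, ih]
  rw [h1]
  refine Finset.sum_congr rfl fun i _ => ?_
  rw [Pi.smul_apply, smul_eq_mul, opf_mul hT]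

/-- The orbit relation is the union of an increasing sequence of Borel relations with Borel
transversals: `x ↦ g n x · x` is a Borel selector of the `n`-th relation. -/
def Tower {d : ℕ} {X : Type} [MeasurableSpace X] (a : FreeAct d X) : Prop :=
  ∃ g : ℕ → X → Gd d, (∀ n, Ms (g n)) ∧
    (∀ n x y, a.T (g n x) x = a.T (g n y) y → a.T (g (n + 1) x) x = a.T (g (n + 1) y) y) ∧
    ∀ x h, ∃ n, a.T (g n (a.T h x)) (a.T h x) = a.T (g n x) x

/-- closed under `a - b + c` -/
def Aff {V : Type} [AddCommGroup V] (A : Set V) : Prop :=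
  ∀ a b c, a ∈ A → b ∈ A → c ∈ A → a - b + c ∈ A

/-! ### Good filters -/

/-- What the null sets and the meagre sets have in common: the filter is invariant under the shift and
mixing of all orders, in a form adapted to linear equations. -/
structure Good (q d : ℕ) (l : Filter (Om d)) : Prop where
  ne : l.NeBot
  inv : ∀ (g : Gd d) (E : Set (Om d)), E ∈ l → sh g ⁻¹' E ∈ l
  mix : ∀ F : Om d → ZMod q, Ms F → ∀ Q : Rr q d, (∃ g, IsUnit (Q.coeff g)) →
    (∀ n0 : ℕ, ∃ m, n0 ≤ m ∧ ∃ c, ∀ᶠ x in l, opf sh (expd m Q) F x = c) →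
    ∃ c, ∀ᶠ x in l, F x = c

end EB
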