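import Pool.Agent.Helper27.EB.Defs

/-!
# EB-13: a countable Borel colouring

`X` is countably separated, so there is a measurable injection `ι : X → (ℕ → Bool)` (`MeasurableSpace.measurable_injection_nat_bool_of_countablySeparated` or similar).  The set of `g` with `nb N g`, `g ≠ 0` is finite and `ι (T g x) ≠ ι x` for all of them (free).
`m x` = the least `m` such that for every such `g` there is `j < m` with `ι (T g x) j ≠ ι x j` (`Nat.find`).  The colour of `x` is `(m x, ι x restricted to j < m x)`, encoded as a natural number, for instance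
`c x = Nat.pair (m x) (∑ j < m x, if ι x j then 2 ^ j else 0)` (or `Encodable.encode` of the list `(List.range (m x)).map (ι x)`, which determines `m x`).
If `c (T g x) = c x` with `nb N g`, `g ≠ 0` then `m = m x = m (T g x)` and `ι (T g x) j = ι x j` for all `j < m`, contradicting the choice of `m x`.  `Ms c`: the sets `{x | m x = m}` and `{x | ι x j = b}` are measurable (`Ms.comp`, `Ms.bind`, `Ms.pi`).
-/

set_option autoImplicit false

namespace EB

theorem window_col {d : ℕ} {X : Type} [MeasurableSpace X] [StandardBorelSpace X]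
    (a : FreeAct d X) (N : ℕ) :
    ∃ c : X → ℕ, Ms c ∧ ∀ x g, nb N g → g ≠ 0 → c (a.T g x) ≠ c x := by
  classical
  obtain ⟨ι, hι, hinj⟩ := MeasurableSpace.measurable_injection_nat_bool_of_countablySeparated X
  have hιj : ∀ j, Measurable fun x => ι x j := fun j => (measurable_pi_apply j).comp hι
  set W : Set (Gd d) := {g | nb N g ∧ g ≠ 0} with hW
  have hWf : W.Finite := by
    refine (Set.finite_Icc (fun _ => -(N : ℤ) : Gd d) (fun _ => (N : ℤ))).subset ?_
    rintro g ⟨hg, _⟩
    exact ⟨fun i => (abs_le.1 (hg i)).1, fun i => (abs_le.1 (hg i)).2⟩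
  set P : X → ℕ → Prop := fun x m => ∀ g ∈ W, ∃ j < m, ι (a.T g x) j ≠ ι x j with hP
  have hex : ∀ x, ∃ m, P x m := by
    intro x
    have h1 : ∀ g ∈ W, ∃ j, ι (a.T g x) j ≠ ι x j := by
      rintro g ⟨_, hg0⟩
      by_contra hcon
      push Not at hcon
      exact hg0 (a.free g x (hinj (funext hcon)))
    choose! j hj using h1
    obtain ⟨m, hm⟩ := (hWf.image j).bddAbove
    refine ⟨m + 1, fun g hg => ⟨j g, ?_, hj g hg⟩⟩
    exact Nat.lt_succ_of_le (hm (Set.mem_image_of_mem j hg))
  have hmeasP : ∀ k, MeasurableSet {x | P x k} := by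
    intro k
    have h1 : {x | P x k} = ⋂ g ∈ W, ⋃ j ∈ Set.Iio k, {x | ι (a.T g x) j = ι x j}ᶜ := by
      ext x
      simp [hP]
    rw [h1]
    refine MeasurableSet.biInter hWf.countable fun g _ => ?_
    refine MeasurableSet.biUnion (Set.to_countable _) fun j _ => ?_
    exact (measurableSet_eq_fun ((hιj j).comp (a.meas g)) (hιj j)).compl
  set m : X → ℕ := fun x => Nat.find (hex x) with hm
  have hmm : Measurable m := measurable_find hex hmeasP
  have hmMs : Ms m := fun s => hmm (measurableSet_singleton s)
  have hιMs : ∀ j, Ms fun x => ι x j := fun j s => hιj j (measurableSet_singleton s)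
  refine ⟨fun x => Encodable.encode (List.ofFn fun i : Fin (m x) => ι x i), ?_, ?_⟩
  · refine hmMs.bind (F := fun k x => Encodable.encode (List.ofFn fun i : Fin k => ι x i)) ?_
    intro k
    exact (Ms.pi fun i : Fin k => hιMs i).comp fun f => Encodable.encode (List.ofFn f)
  · intro x g hg hg0 heq
    have h1 := Encodable.encode_injective heq
    have h2 : m (a.T g x) = m x := by
      have := congrArg List.length h1
      rwa [List.length_ofFn, List.length_ofFn] at this
    obtain ⟨j, hj, hne⟩ := Nat.find_spec (hex x) g ⟨hg, hg0⟩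
    apply hne
    have h3 := congrArg (fun l => l[j]?) h1
    simp only [List.getElem?_ofFn] at h3
    have hjm : j < m x := hj
    rw [dif_pos (h2 ▸ hjm), dif_pos hjm] at h3
    exact Option.some.inj h3

end EB
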