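import Mathlib

/-!
# LCL problems on the grid

Free Borel actions of `Z^d` and their Schreier graphs, the shift on the free part of `2^(Z^d)`, LCL
problems, Borel, measurable and Baire-measurable solutions, affine constraints, polymorphisms.
-/

set_option autoImplicit false

namespace EB

open MeasureTheory

/-- The group `Z^d`. -/
abbrev Gd (d : ℕ) : Type := Fin d → ℤ

/-- A free Borel action of `Z^d`. -/
structure FreeAct (d : ℕ) (X : Type) [MeasurableSpace X] where
  T : Gd d → X → X
  zero : ∀ x, T 0 x = x
  add : ∀ g h x, T (g + h) x = T g (T h x)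
  meas : ∀ g, Measurable (T g)
  free : ∀ g x, T g x = x → g = 0

/-- The space `2^(Z^d)`. -/
abbrev Om (d : ℕ) : Type := Gd d → Bool

/-- the shift: `(g · x)(h) = x(h + g)` -/
def sh {d : ℕ} (g : Gd d) (x : Om d) : Om d := fun h => x (h + g)

theorem sh_zero {d : ℕ} (x : Om d) : sh 0 x = x := by
  funext h
  simp [sh]

theorem sh_add {d : ℕ} (g h : Gd d) (x : Om d) : sh (g + h) x = sh g (sh h x) := by
  funext u
  simp [sh, add_assoc]

theorem sh_meas {d : ℕ} (g : Gd d) : Measurable (sh g : Om d → Om d) := by
  refine measurable_pi_iff.2 fun h => ?_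
  exact measurable_pi_apply (h + g)

/-- The free part of the shift. -/
def FP (d : ℕ) : Set (Om d) := {x | ∀ g, sh g x = x → g = 0}

theorem sh_mem_FP {d : ℕ} (g : Gd d) {x : Om d} (hx : x ∈ FP d) : sh g x ∈ FP d := by
  intro h hh
  refine hx h ?_
  have h1 := congrArg (sh (-g)) hh
  rw [← sh_add, ← sh_add, ← sh_add, neg_add_cancel, sh_zero] at h1
  rwa [show -g + h + g = h by abel] at h1

/-- The action on the free part. -/
def fshift (d : ℕ) : FreeAct d (FP d) where
  T g x := ⟨sh g x.1, sh_mem_FP g x.2⟩
  zero x := Subtype.ext (sh_zero x.1)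
  add g h x := Subtype.ext (sh_add g h x.1)
  meas g := ((sh_meas g).comp measurable_subtype_coe).subtype_mk
  free g x h := x.2 g (congrArg Subtype.val h)

/-! ### LCL problems -/

/-- A rooted graph with labels. -/
structure RG (S : Type) where
  V : Type
  graph : SimpleGraph V
  root : V
  lab : V → S

/-- isomorphic rooted labelled graphs -/
def RG.Iso {S : Type} (A B : RG S) : Prop :=
  ∃ e : A.graph ≃g B.graph, e A.root = B.root ∧ ∀ v, B.lab (e v) = A.lab v

/-- An LCL problem with the label set `S`: a radius and an isomorphism invariant set of rooted labelled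
graphs (the allowed balls). -/
structure LCL (S : Type) where
  r : ℕ
  P : RG S → Prop
  iso : ∀ A B, A.Iso B → P A → P B

/-- the ball with radius `r` around `v` -/
def ball {V : Type} (H : SimpleGraph V) (r : ℕ) (v : V) : Set V := {w | ∃ p : H.Walk v w, p.length ≤ r}

theorem self_mem_ball {V : Type} (H : SimpleGraph V) (r : ℕ) (v : V) : v ∈ ball H r v :=
  ⟨SimpleGraph.Walk.nil, by simp⟩

/-- the ball with labels, rooted at `v` -/
def ballRG {V S : Type} (H : SimpleGraph V) (r : ℕ) (v : V) (l : ball H r v → S) : RG S :=
  ⟨ball H r v, H.induce (ball H r v), ⟨v, self_mem_ball H r v⟩, l⟩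

/-- `f` solves `Π` on the graph `H`. -/
def IsSol {V S : Type} (L : LCL S) (H : SimpleGraph V) (f : V → S) : Prop :=
  ∀ v, L.P (ballRG H L.r v fun w => f w.1)

/-- The Schreier graph of an action: `x` and `y` are adjacent iff `y = ± e_i · x`. -/
def FreeAct.graph {d : ℕ} {X : Type} [MeasurableSpace X] (a : FreeAct d X) : SimpleGraph X :=
  SimpleGraph.fromRel fun x y => ∃ i, y = a.T (Pi.single i 1) x

/-- the grid `Z^d` -/
def grid (d : ℕ) : SimpleGraph (Gd d) := SimpleGraph.fromRel fun g h => ∃ i, h = g + Pi.single i 1

/-- A Borel solution on all of `X`. -/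
def BorelSol {d : ℕ} {X S : Type} [MeasurableSpace X] (a : FreeAct d X) (L : LCL S) : Prop :=
  ∃ f : X → S, (∀ s, MeasurableSet {x | f x = s}) ∧ IsSol L a.graph f

/-- A Borel solution on the graph induced on `C`. -/
def BorelSolOn {d : ℕ} {X S : Type} [MeasurableSpace X] (a : FreeAct d X) (L : LCL S)
    (C : Set X) : Prop :=
  ∃ f : C → S, (∀ s, MeasurableSet {x | f x = s}) ∧ IsSol L (a.graph.induce C) f

/-- `C` is a union of orbits -/
def Inv {d : ℕ} {X : Type} [MeasurableSpace X] (a : FreeAct d X) (C : Set X) : Prop :=
  ∀ g x, x ∈ C → a.T g x ∈ C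

/-- The shift graph of the free part has a measurable solution: for every Borel probability measure
there is a Borel solution on an invariant conull Borel set. -/
def MeasSol {S : Type} (d : ℕ) (L : LCL S) : Prop :=
  ∀ μ : Measure (FP d), IsProbabilityMeasure μ →
    ∃ C, MeasurableSet C ∧ Inv (fshift d) C ∧ μ Cᶜ = 0 ∧ BorelSolOn (fshift d) L C

/-- A Baire-measurable solution: a Borel solution on an invariant comeagre Borel set. -/
def BaireSol {S : Type} (d : ℕ) (L : LCL S) : Prop :=
  ∃ C, MeasurableSet C ∧ Inv (fshift d) C ∧ C ∈ residual (FP d) ∧ BorelSolOn (fshift d) L C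

/-- the fair coin -/
noncomputable def coin : Measure Bool :=
  (2⁻¹ : ENNReal) • Measure.dirac true + (2⁻¹ : ENNReal) • Measure.dirac false

instance : IsProbabilityMeasure coin where
  measure_univ := by
    simp [coin, ENNReal.inv_two_add_inv_two]

/-- the Bernoulli measure on `2^(Z^d)` -/
noncomputable def bern (d : ℕ) : Measure (Om d) := Measure.infinitePi fun _ => coin

instance (d : ℕ) : IsProbabilityMeasure (bern d) := by
  unfold bern
  infer_instance

/-- A solution almost everywhere for the Bernoulli measure (a factor of iid solution). -/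
def BernSol {S : Type} (d : ℕ) (L : LCL S) : Prop :=
  ∃ C, MeasurableSet C ∧ Inv (fshift d) C ∧ bern d (Subtype.val '' C)ᶜ = 0 ∧
    BorelSolOn (fshift d) L C

/-- the labellings of the ball of the grid which are allowed -/
def Allowed {S : Type} (d : ℕ) (L : LCL S) (l : ball (grid d) L.r 0 → S) : Prop :=
  L.P (ballRG (grid d) L.r 0 l)

/-- The LCL problem is affine on the grid `Z^d`: the allowed labellings of the ball are closed under
`a - b + c`. -/
def AffineLCL {S : Type} [AddCommGroup S] (d : ℕ) (L : LCL S) : Prop :=
  ∀ a b c, Allowed d L a → Allowed d L b → Allowed d L c → Allowed d L (a - b + c)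

/-- `m` is a majority operation. -/
def Majority {S : Type} (m : S → S → S → S) : Prop :=
  ∀ x y, m x x y = x ∧ m x y x = x ∧ m y x x = x

/-- The constraint of the LCL problem is preserved by the operation `m`: the allowed labellings of the
ball of the grid `Z^d` are closed under the pointwise operation. -/
def Preserved {S : Type} (d : ℕ) (m : S → S → S → S) (L : LCL S) : Prop :=
  ∀ a b c, Allowed d L a → Allowed d L b → Allowed d L c → Allowed d L fun v => m (a v) (b v) (c v)

/-- Some constant labelling is a solution. -/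
def ConstSol {S : Type} (d : ℕ) (L : LCL S) : Prop := ∃ s, Allowed d L fun _ => s

end EB
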