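import Pool.Agent.Helper27.EB.Defs

/-!
# EB-15: greedy colouring

Order the points by the colour `c`.  `κ x` = the least element of `Fin (K+1)` which is not `κ (T g x)` for any `g` with `nb N g`, `g ≠ 0`, `T g x ∈ Z`, `c (T g x) < c x`; the set of these `g` is finite with at most `K` elements (`hdeg`) for `x ∈ Z`, so such an element exists
(`κ x = 0` for `x ∉ Z`).  Recursion on `c x`: define `κ_n : X → Fin (K+1)` by ordinary recursion on `n` (the colouring of the points with `c x < n`, and `0` elsewhere): `κ_{n+1} x = κ_n x` if `c x ≠ n`, and the least value not in the finite set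
`{κ_n (T g x) | nb N g, g ≠ 0, T g x ∈ Z, c (T g x) < n}` if `c x = n` and `x ∈ Z`; `κ x = κ_{c x + 1} x`.  `Ms κ_n` by induction: `κ_{n+1} x` is a function of the countable (even finite) family
`(κ_n (T g x), T g x ∈ Z, c (T g x))_g`, `nb N g`, which is `Ms` by `Ms.pi` (index a finite set of `g`, e.g. the subtype of `nb N`), `Ms.pair`, `Ms.precomp`; finite products of countable types are countable.
Proper: for `x, T g x ∈ Z` the colours `c` are different; the one with the larger `c` avoids the other (use `T (-g) (T g x) = x` and `nb N (-g)`).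
-/

set_option autoImplicit false

namespace EB

private theorem nb_finite {d : ℕ} (N : ℕ) : Finite {g : Gd d // nb N g} := by
  have h : {g : Gd d | nb N g} ⊆ Set.Icc (fun _ => -(N : ℤ)) (fun _ => (N : ℤ)) := by
    intro g hg
    exact ⟨fun i => (abs_le.1 (hg i)).1, fun i => (abs_le.1 (hg i)).2⟩
  exact ((Set.finite_Icc _ _).subset h).to_subtype

private theorem Ms_mem {X : Type} [MeasurableSpace X] {Z : Set X} (hZ : MeasurableSet Z) :
    Ms fun x => x ∈ Z := by
  intro s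
  by_cases hs : s
  · have h : {x | (x ∈ Z) = s} = Z := by
      ext x
      simp [hs]
    rw [h]
    exact hZ
  · have h : {x | (x ∈ Z) = s} = Zᶜ := by
      ext x
      simp [hs]
    rw [h]
    exact hZ.compl

open Classical in
/-- an element of `Fin (K+1)` not in `s` -/
private noncomputable def pick (K : ℕ) (s : Set (Fin (K + 1))) : Fin (K + 1) :=
  if h : ∃ a, a ∉ s then h.choose else 0

private theorem pick_spec (K : ℕ) (s : Set (Fin (K + 1))) (h : ∃ a, a ∉ s) : pick K s ∉ s := by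
  unfold pick
  rw [dif_pos h]
  exact h.choose_spec

open Classical in
/-- one step of the greedy colouring -/
private noncomputable def gstep {d : ℕ} {X : Type} (T : Gd d → X → X) (N K : ℕ) (c : X → ℕ)
    (Z : Set X) (n : ℕ) (κ : X → Fin (K + 1)) (x : X) : Fin (K + 1) :=
  if c x = n ∧ x ∈ Z then
    pick K {a | ∃ g : {g : Gd d // nb N g}, g.1 ≠ 0 ∧ T g.1 x ∈ Z ∧ c (T g.1 x) < n ∧
      κ (T g.1 x) = a}
  else κ x

/-- the colouring of the points with `c x < n` -/
private noncomputable def gk {d : ℕ} {X : Type} (T : Gd d → X → X) (N K : ℕ) (c : X → ℕ)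
    (Z : Set X) : ℕ → X → Fin (K + 1)
  | 0 => fun _ => 0
  | n + 1 => gstep T N K c Z n (gk T N K c Z n)

private theorem gstep_Ms {d : ℕ} {X : Type} [MeasurableSpace X] {T : Gd d → X → X}
    (hT : ∀ g, Measurable (T g)) (N K : ℕ) {c : X → ℕ} (hc : Ms c) {Z : Set X}
    (hZ : MeasurableSet Z) (n : ℕ) {κ : X → Fin (K + 1)} (hκ : Ms κ) :
    Ms (gstep T N K c Z n κ) := by
  classical
  have := nb_finite (d := d) N
  have hD : Ms fun x => (c x, x ∈ Z, κ x,
      fun g : {g : Gd d // nb N g} => (T g.1 x ∈ Z, c (T g.1 x), κ (T g.1 x))) := by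
    refine hc.pair ((Ms_mem hZ).pair (hκ.pair (Ms.pi fun g => ?_)))
    exact ((Ms_mem hZ).precomp (hT g.1)).pair ((hc.precomp (hT g.1)).pair (hκ.precomp (hT g.1)))
  exact hD.comp fun p => if p.1 = n ∧ p.2.1 then
    pick K {a | ∃ g : {g : Gd d // nb N g}, g.1 ≠ 0 ∧ (p.2.2.2 g).1 ∧ (p.2.2.2 g).2.1 < n ∧
      (p.2.2.2 g).2.2 = a}
  else p.2.2.1

private theorem gk_Ms {d : ℕ} {X : Type} [MeasurableSpace X] {T : Gd d → X → X}
    (hT : ∀ g, Measurable (T g)) (N K : ℕ) {c : X → ℕ} (hc : Ms c) {Z : Set X}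
    (hZ : MeasurableSet Z) (n : ℕ) : Ms (gk T N K c Z n) := by
  induction n with
  | zero => exact Ms.const 0
  | succ n ih => exact gstep_Ms hT N K hc hZ n ih

private theorem gk_stable {d : ℕ} {X : Type} (T : Gd d → X → X) (N K : ℕ) (c : X → ℕ)
    (Z : Set X) (x : X) (k : ℕ) : gk T N K c Z (c x + 1 + k) x = gk T N K c Z (c x + 1) x := by
  induction k with
  | zero => rfl
  | succ k ih =>
    rw [← ih, ← add_assoc]
    show gstep T N K c Z (c x + 1 + k) _ x = _
    unfold gstep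
    rw [if_neg]
    rintro ⟨h, -⟩
    omega

private theorem gk_proper {d : ℕ} {X : Type} [MeasurableSpace X] (a : FreeAct d X) (N K : ℕ)
    (c : X → ℕ) (Z : Set X)
    (hdeg : ∀ x ∈ Z, ∀ F : Finset (Gd d), (∀ g ∈ F, nb N g ∧ g ≠ 0 ∧ a.T g x ∈ Z) → F.card ≤ K)
    (x : X) (hx : x ∈ Z) (g : Gd d) (hg : nb N g) (hg0 : g ≠ 0) (hgx : a.T g x ∈ Z)
    (hlt : c (a.T g x) < c x) :
    gk a.T N K c Z (c (a.T g x) + 1) (a.T g x) ≠ gk a.T N K c Z (c x + 1) x := by
  classical
  have h1 : gk a.T N K c Z (c x + 1) x = pick K {b | ∃ g : {g : Gd d // nb N g}, g.1 ≠ 0 ∧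
      a.T g.1 x ∈ Z ∧ c (a.T g.1 x) < c x ∧ gk a.T N K c Z (c x) (a.T g.1 x) = b} := by
    show gstep a.T N K c Z (c x) (gk a.T N K c Z (c x)) x = _
    unfold gstep
    rw [if_pos ⟨rfl, hx⟩]
  have h2 : gk a.T N K c Z (c (a.T g x) + 1) (a.T g x) = gk a.T N K c Z (c x) (a.T g x) := by
    obtain ⟨k, hk⟩ := Nat.exists_eq_add_of_le (Nat.succ_le_of_lt hlt)
    have h3 := gk_stable a.T N K c Z (a.T g x) k
    rw [← h3]
    congr 1
    omega
  have h4 : ∃ b, b ∉ {b | ∃ g : {g : Gd d // nb N g}, g.1 ≠ 0 ∧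
      a.T g.1 x ∈ Z ∧ c (a.T g.1 x) < c x ∧ gk a.T N K c Z (c x) (a.T g.1 x) = b} := by
    by_contra hcon
    push Not at hcon
    choose G hG0 hGZ hGc hGb using fun b : Fin (K + 1) => hcon b
    have hinj : Function.Injective fun b => (G b).1 := by
      intro b b' hbb
      have h5 := hGb b
      have h6 := hGb b'
      have hbb' : (G b).1 = (G b').1 := hbb
      rw [hbb'] at h5
      exact h5.symm.trans h6
    have h7 := hdeg x hx (Finset.univ.image fun b => (G b).1) (by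
      intro g' hg'
      obtain ⟨b, -, rfl⟩ := Finset.mem_image.1 hg'
      exact ⟨(G b).2, hG0 b, hGZ b⟩)
    rw [Finset.card_image_of_injective _ hinj, Finset.card_univ, Fintype.card_fin] at h7
    omega
  rw [h1, h2]
  intro h5
  exact pick_spec K _ h4 ⟨⟨g, hg⟩, hg0, hgx, hlt, h5⟩

theorem exists_greedy {d : ℕ} {X : Type} [MeasurableSpace X] (a : FreeAct d X) (N K : ℕ)
    (c : X → ℕ) (hc : Ms c) (hc' : ∀ x g, nb N g → g ≠ 0 → c (a.T g x) ≠ c x)
    (Z : Set X) (hZ : MeasurableSet Z)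
    (hdeg : ∀ x ∈ Z, ∀ F : Finset (Gd d), (∀ g ∈ F, nb N g ∧ g ≠ 0 ∧ a.T g x ∈ Z) → F.card ≤ K) :
    ∃ κ : X → Fin (K + 1), Ms κ ∧
      ∀ x ∈ Z, ∀ g, nb N g → g ≠ 0 → a.T g x ∈ Z → κ (a.T g x) ≠ κ x := by
  refine ⟨fun x => gk a.T N K c Z (c x + 1) x,
    hc.bind (F := fun n => gk a.T N K c Z (n + 1)) fun n => gk_Ms a.meas N K hc hZ (n + 1), ?_⟩
  intro x hx g hg hg0 hgx
  rcases lt_or_gt_of_ne (hc' x g hg hg0) with hlt | hlt
  · exact gk_proper a N K c Z hdeg x hx g hg hg0 hgx hlt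
  · have hb : a.T (-g) (a.T g x) = x := by
      rw [← a.add, neg_add_cancel, a.zero]
    have hn : nb N (-g) := by
      intro i
      rw [Pi.neg_apply, abs_neg]
      exact hg i
    have h1 := gk_proper a N K c Z hdeg (a.T g x) hgx (-g) hn (neg_ne_zero.2 hg0)
      (by rw [hb]; exact hx) (by rw [hb]; exact hlt)
    rw [hb] at h1
    exact h1.symm

end EB
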