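import Pool.Agent.Helper27.EB.Defs

/-!
# EB-14: maximal discrete sets

By strong recursion `Z n = {x | c x = n ∧ ∀ g, nb N g → g ≠ 0 → ∀ m < n, T g x ∉ Z m}`; `Z = ⋃ n, Z n`.  (`Nat.strongRec` or define `Y n = ⋃_{m < n} Z m` by ordinary recursion: `Y (n+1) = Y n ∪ {x | c x = n ∧ ∀ g, nb N g → g ≠ 0 → T g x ∉ Y n}`.)
Measurable: countable intersections over `g : Gd d`.  Discrete: if `x ∈ Z n`, `T g x ∈ Z m`, `nb N g`, `g ≠ 0` then `m ≠ n` (colours are different); `m < n` contradicts the definition of `Z n`; `n < m`: apply the same to `T g x` and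
`T (-g) (T g x) = x`.  Maximal: `n = c x`; either `x ∈ Z n` (take `g = 0`) or `T g x ∈ Z m` for some `m < n`, `nb N g`.
-/

set_option autoImplicit false

namespace EB

/-- The points with colour `< n` chosen by the greedy algorithm. -/
private def Yst {d : ℕ} {X : Type} [MeasurableSpace X] (a : FreeAct d X) (N : ℕ) (c : X → ℕ) :
    ℕ → Set X
  | 0 => ∅
  | n + 1 => Yst a N c n ∪ {x | c x = n ∧ ∀ g, nb N g → g ≠ 0 → a.T g x ∉ Yst a N c n}

theorem exists_maxd {d : ℕ} {X : Type} [MeasurableSpace X] (a : FreeAct d X) (N : ℕ)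
    (c : X → ℕ) (hc : Ms c) (hc' : ∀ x g, nb N g → g ≠ 0 → c (a.T g x) ≠ c x) :
    ∃ Z : Set X, MeasurableSet Z ∧ (∀ x ∈ Z, ∀ g, nb N g → g ≠ 0 → a.T g x ∉ Z) ∧
      ∀ x, ∃ g, nb N g ∧ a.T g x ∈ Z := by
  have hsucc : ∀ n, Yst a N c (n + 1) =
      Yst a N c n ∪ {x | c x = n ∧ ∀ g, nb N g → g ≠ 0 → a.T g x ∉ Yst a N c n} := fun n => rfl
  have hmeas : ∀ n, MeasurableSet (Yst a N c n) := by
    intro n
    induction n with
    | zero => exact MeasurableSet.empty
    | succ n ih =>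
      rw [hsucc]
      refine ih.union ?_
      have h1 : {x | c x = n ∧ ∀ g, nb N g → g ≠ 0 → a.T g x ∉ Yst a N c n} =
          {x | c x = n} ∩ ⋂ g : Gd d, ⋂ (_ : nb N g ∧ g ≠ 0), (a.T g) ⁻¹' (Yst a N c n)ᶜ := by
        ext x
        simp only [Set.mem_setOf_eq, Set.mem_inter_iff, Set.mem_iInter, Set.mem_preimage,
          Set.mem_compl_iff]
        constructor
        · rintro ⟨h1, h2⟩
          exact ⟨h1, fun g hg => h2 g hg.1 hg.2⟩
        · rintro ⟨h1, h2⟩
          exact ⟨h1, fun g hg hg' => h2 g ⟨hg, hg'⟩⟩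
      rw [h1]
      exact (hc n).inter (MeasurableSet.iInter fun g => MeasurableSet.iInter fun _ =>
        (a.meas g) ih.compl)
  have hmono : ∀ n m, n ≤ m → Yst a N c n ⊆ Yst a N c m := by
    intro n m hnm
    induction m, hnm using Nat.le_induction with
    | base => exact subset_rfl
    | succ m _ ih => exact ih.trans (by rw [hsucc]; exact Set.subset_union_left)
  have hlay : ∀ n x, x ∈ Yst a N c n → c x < n ∧
      ∀ g, nb N g → g ≠ 0 → a.T g x ∉ Yst a N c (c x) := by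
    intro n
    induction n with
    | zero =>
      intro x hx
      exact absurd hx (Set.notMem_empty x)
    | succ n ih =>
      intro x hx
      rw [hsucc] at hx
      rcases hx with hx | ⟨h1, h2⟩
      · exact ⟨(ih x hx).1.trans (Nat.lt_succ_self n), (ih x hx).2⟩
      · subst h1
        exact ⟨Nat.lt_succ_self _, h2⟩
  have hmem : ∀ x, (∀ g, nb N g → g ≠ 0 → a.T g x ∉ Yst a N c (c x)) →
      x ∈ Yst a N c (c x + 1) := by
    intro x hx
    rw [hsucc]
    exact Or.inr ⟨rfl, hx⟩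
  have hlt : ∀ y n m, y ∈ Yst a N c n → c y < m → y ∈ Yst a N c m := fun y n m hy hm =>
    hmono _ _ hm (hmem y (hlay n y hy).2)
  refine ⟨⋃ n, Yst a N c n, MeasurableSet.iUnion hmeas, ?_, ?_⟩
  · intro x hx g hg hg0 hgx
    obtain ⟨n, hn⟩ := Set.mem_iUnion.1 hx
    obtain ⟨m, hm⟩ := Set.mem_iUnion.1 hgx
    rcases lt_trichotomy (c (a.T g x)) (c x) with h1 | h1 | h1
    · exact (hlay n x hn).2 g hg hg0 (hlt _ m _ hm h1)
    · exact hc' x g hg hg0 h1
    · have h2 := (hlay m _ hm).2 (-g) (fun i => by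
        rw [Pi.neg_apply, abs_neg]
        exact hg i) (neg_ne_zero.2 hg0)
      rw [← a.add, neg_add_cancel, a.zero] at h2
      exact h2 (hlt _ n _ hn h1)
  · intro x
    by_cases h : ∀ g, nb N g → g ≠ 0 → a.T g x ∉ Yst a N c (c x)
    · refine ⟨0, fun i => ?_, ?_⟩
      · rw [Pi.zero_apply, abs_zero]
        exact Int.natCast_nonneg N
      · rw [a.zero]
        exact Set.mem_iUnion.2 ⟨_, hmem x h⟩
    · push Not at h
      obtain ⟨g, hg, -, hgx⟩ := h
      exact ⟨g, hg, Set.mem_iUnion.2 ⟨_, hgx⟩⟩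

end EB
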