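import Pool.Agent.Helper27.EB.Defs

/-!
# EB-16: packing

`F' = insert 0 F` (`0 ∉ F`).  The boxes `g + W r`, `g ∈ F'`, `W r = Finset.Icc (fun _ => -r) (fun _ => r)` (the set of `w` with `nb r w`), are pairwise disjoint: if `g + w = g' + w'` then `g - g' = w' - w` satisfies `nb (2 r)`, and `T g x, T g' x ∈ Z`
(`T 0 x = x ∈ Z`), `T g x = T (g - g') (T g' x)`, so `g = g'`.  They are contained in `W (7 r)`.  `(W r).card = (2 r + 1) ^ d` (`Pi.card_Icc`, `Int.card_Icc`).  So `(F.card + 1) (2 r + 1) ^ d ≤ (14 r + 1) ^ d ≤ (7 (2 r + 1)) ^ d`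
and `F.card + 1 ≤ 7 ^ d`.
-/

set_option autoImplicit false

namespace EB

theorem pack {d : ℕ} {X : Type} [MeasurableSpace X] (a : FreeAct d X) (r : ℕ) (Z : Set X)
    (hZ : ∀ x ∈ Z, ∀ g, nb (2 * r) g → g ≠ 0 → a.T g x ∉ Z) (x : X) (hx : x ∈ Z)
    (F : Finset (Gd d)) (hF : ∀ g ∈ F, nb (6 * r) g ∧ g ≠ 0 ∧ a.T g x ∈ Z) :
    F.card ≤ 7 ^ d - 1 := by
  classical
  set F' : Finset (Gd d) := insert 0 F with hF'
  set W : ℕ → Finset (Gd d) := fun s => Finset.Icc (fun _ => -(s : ℤ)) (fun _ => (s : ℤ)) with hW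
  have hmem : ∀ (s : ℕ) (w : Gd d), w ∈ W s ↔ nb s w := by
    intro s w
    simp only [hW, Finset.mem_Icc, Pi.le_def, nb, abs_le, forall_and]
  have hT : ∀ g ∈ F', a.T g x ∈ Z := by
    intro g hg
    rcases Finset.mem_insert.1 hg with rfl | hg
    · rw [a.zero]
      exact hx
    · exact (hF g hg).2.2
  have hb : ∀ g ∈ F', nb (6 * r) g := by
    intro g hg
    rcases Finset.mem_insert.1 hg with rfl | hg
    · intro i
      rw [Pi.zero_apply, abs_zero]
      exact Int.natCast_nonneg _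
    · exact (hF g hg).1
  have hinj : Set.InjOn (fun p : Gd d × Gd d => p.1 + p.2)
      ((F' ×ˢ W r : Finset (Gd d × Gd d)) : Set (Gd d × Gd d)) := by
    rintro ⟨g, w⟩ h1 ⟨g', w'⟩ h2 h3
    simp only [Finset.coe_product, Set.mem_prod, Finset.mem_coe] at h1 h2 h3
    have hw := (hmem r w).1 h1.2
    have hw' := (hmem r w').1 h2.2
    have h4 : g - g' = w' - w := by
      rw [sub_eq_sub_iff_add_eq_add, h3, add_comm]
    have h5 : nb (2 * r) (g - g') := by
      intro i
      have h6 := hw i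
      have h7 := hw' i
      rw [abs_le] at h6 h7
      rw [h4, Pi.sub_apply, abs_le]
      push_cast
      constructor <;> linarith [h6.1, h6.2, h7.1, h7.2]
    have h8 : g = g' := by
      by_contra hne
      have h9 : a.T (g - g') (a.T g' x) = a.T g x := by
        rw [← a.add, sub_add_cancel]
      refine hZ (a.T g' x) (hT g' h2.1) (g - g') h5 (sub_ne_zero.2 hne) ?_
      rw [h9]
      exact hT g h1.1
    subst h8
    have h10 : w = w' := add_left_cancel h3
    rw [h10]
  have hsub : (F' ×ˢ W r).image (fun p : Gd d × Gd d => p.1 + p.2) ⊆ W (7 * r) := by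
    intro z hz
    obtain ⟨⟨g, w⟩, h1, rfl⟩ := Finset.mem_image.1 hz
    rw [Finset.mem_product] at h1
    rw [hmem]
    have hw := (hmem r w).1 h1.2
    have hg := hb g h1.1
    intro i
    have h6 := hw i
    have h7 := hg i
    rw [abs_le] at h6 h7
    simp only [Pi.add_apply]
    rw [abs_le]
    push_cast at h6 h7 ⊢
    constructor <;> linarith [h6.1, h6.2, h7.1, h7.2]
  have hcW : ∀ s : ℕ, (W s).card = (2 * s + 1) ^ d := by
    intro s
    rw [hW]
    simp only
    rw [Pi.card_Icc]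
    simp only [Int.card_Icc]
    rw [Finset.prod_const, Finset.card_univ, Fintype.card_fin]
    congr 1
    omega
  have h0 : (0 : Gd d) ∉ F := fun h => (hF 0 h).2.1 rfl
  have h1 : (F.card + 1) * (2 * r + 1) ^ d ≤ 7 ^ d * (2 * r + 1) ^ d := by
    calc (F.card + 1) * (2 * r + 1) ^ d = (F' ×ˢ W r).card := by
          rw [Finset.card_product, hcW, hF', Finset.card_insert_of_notMem h0]
      _ = ((F' ×ˢ W r).image (fun p : Gd d × Gd d => p.1 + p.2)).card :=
          (Finset.card_image_of_injOn hinj).symm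
      _ ≤ (W (7 * r)).card := Finset.card_le_card hsub
      _ = (2 * (7 * r) + 1) ^ d := hcW _
      _ ≤ (7 * (2 * r + 1)) ^ d := Nat.pow_le_pow_left (by omega) d
      _ = 7 ^ d * (2 * r + 1) ^ d := mul_pow _ _ _
  have h2 : F.card + 1 ≤ 7 ^ d := Nat.le_of_mul_le_mul_right h1 (by positivity)
  omega

end EB
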