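import Pool.Agent.Helper27.EB.Col
import Pool.Agent.Helper27.EB.MaxD
import Pool.Agent.Helper27.EB.Greedy
import Pool.Agent.Helper27.EB.Pack

/-!
# EB-17: cellular maps

`K = 7 ^ d - 1 + 1`, independent of `r`.  `c₁` from `window_col` for `N = 2 r`, `Z` from `exists_maxd` (`N = 2 r`), `c₂` from `window_col` for `N = 6 r`, `κ : X → Fin K` from `exists_greedy` with `N = 6 r`, degree bound `pack`.
`u x` = a choice of `g` with `nb (2 r) g` and `T g x ∈ Z`: fix an enumeration (or a linear order / `Encodable`) of the countable type `Gd d` and take the first one; `Ms u` because the sets `{x | T g x ∈ Z}` are measurable.  `A x = T (u x) x ∈ Z`.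
For `i : Fin K`: if there is `h` with `nb r h` and `κ (A (T h y)) = i`, take the first such `h` and let `t i y = u (T h y) + h` (so `T (t i y) y = A (T h y)`), otherwise `t i y = 0`.  `nb (3 r) (t i y)`.  `Ms (t i)` as for `u` (`Ms.bind`).
* Uniqueness: if `nb r h`, `nb r h'`, `κ (A (T h y)) = κ (A (T h' y))` then `A (T h y) = A (T h' y)`: `A (T h' y) = T v (A (T h y))` with `v = u (T h' y) + h' - h - u (T h y)`, `nb (6 r) v`; if `v ≠ 0` then the colours are different (`A (T h y), A (T h' y) ∈ Z`).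
* For `x` let `i = κ (A x)`.  For `nb r h` and `y = T h x`: `nb r (-h)` and `T (-h) y = x`, so `T (t i y) y = A x` by uniqueness; also for `h = 0`.
-/

set_option autoImplicit false

namespace EB

theorem cell_sel {X G : Type} [MeasurableSpace X] [Countable G] (g0 : G) (P : G → X → Prop)
    (hP : ∀ g, MeasurableSet {x | P g x}) :
    ∃ s : X → G, Ms s ∧ ∀ x, ((∃ g, P g x) → P (s x) x) ∧ ((¬ ∃ g, P g x) → s x = g0) := by
  classical
  obtain ⟨e, he⟩ := Countable.exists_injective_nat G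
  have key : ∀ x, ∃ g, (P g x ∧ ∀ g', P g' x → e g ≤ e g') ∨ ((∀ g', ¬ P g' x) ∧ g = g0) := by
    intro x
    by_cases h : ∃ g, P g x
    · have h1 : ∃ n, ∃ g, e g = n ∧ P g x := by
        obtain ⟨g, hg⟩ := h
        exact ⟨e g, g, rfl, hg⟩
      obtain ⟨g, hg1, hg2⟩ := Nat.find_spec h1
      refine ⟨g, Or.inl ⟨hg2, fun g' hg' => ?_⟩⟩
      rw [hg1]
      exact Nat.find_min' h1 ⟨g', rfl, hg'⟩
    · exact ⟨g0, Or.inr ⟨fun g' hg' => h ⟨g', hg'⟩, rfl⟩⟩
  choose s hs using key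
  refine ⟨s, ?_, ?_⟩
  · intro g
    have h1 : {x | s x = g} = ({x | P g x} ∩ ⋂ g', {x | P g' x → e g ≤ e g'}) ∪
        ((⋂ g', {x | P g' x}ᶜ) ∩ {_x | g = g0}) := by
      ext x
      simp only [Set.mem_ofPred_eq, Set.mem_union, Set.mem_inter_iff, Set.mem_iInter,
        Set.mem_compl_iff]
      constructor
      · rintro rfl
        exact hs x
      · rintro (⟨h1, h2⟩ | ⟨h1, h2⟩)
        · rcases hs x with ⟨h3, h4⟩ | ⟨h3, h4⟩
          · exact he (le_antisymm (h4 g h1) (h2 _ h3))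
          · exact absurd h1 (h3 g)
        · rcases hs x with ⟨h3, h4⟩ | ⟨h3, h4⟩
          · exact absurd h3 (h1 _)
          · rw [h4, h2]
    rw [h1]
    refine MeasurableSet.union (MeasurableSet.inter (hP g) (MeasurableSet.iInter fun g' => ?_))
      (MeasurableSet.inter (MeasurableSet.iInter fun g' => (hP g').compl)
        (MeasurableSet.const _))
    by_cases h2 : e g ≤ e g'
    · simp [h2]
    · have h3 : {x | P g' x → e g ≤ e g'} = {x | P g' x}ᶜ := by
        ext x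
        simp [h2]
      rw [h3]
      exact (hP g').compl
  · intro x
    refine ⟨fun h => ?_, fun h => ?_⟩
    · rcases hs x with ⟨h3, _⟩ | ⟨h3, _⟩
      · exact h3
      · obtain ⟨g, hg⟩ := h
        exact absurd hg (h3 g)
    · rcases hs x with ⟨h3, _⟩ | ⟨_, h4⟩
      · exact absurd ⟨_, h3⟩ h
      · exact h4

theorem cell_nb_zero {d : ℕ} (N : ℕ) : nb N (0 : Gd d) := fun i => by simp

theorem cell_nb_neg {d : ℕ} {N : ℕ} {g : Gd d} (h : nb N g) : nb N (-g) := fun i => by
  rw [Pi.neg_apply, abs_neg]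
  exact h i

theorem cell_nb_add {d : ℕ} {N M : ℕ} {g h : Gd d} (hg : nb N g) (hh : nb M h) :
    nb (N + M) (g + h) := fun i => by
  rw [Pi.add_apply]
  push_cast
  exact (abs_add_le _ _).trans (add_le_add (hg i) (hh i))

theorem cells {d : ℕ} {X : Type} [MeasurableSpace X] [StandardBorelSpace X] (a : FreeAct d X) :
    ∃ K : ℕ, ∀ r : ℕ, ∃ t : Fin K → X → Gd d, (∀ i, Ms (t i)) ∧ (∀ i x, nb (3 * r) (t i x)) ∧
      ∀ x, ∃ i, ∀ h, nb r h → a.T (t i (a.T h x)) (a.T h x) = a.T (t i x) x := by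
  classical
  refine ⟨7 ^ d - 1 + 1, fun r => ?_⟩
  obtain ⟨c₁, hc₁, hc₁'⟩ := window_col a (2 * r)
  obtain ⟨Z, hZm, hZd, hZ⟩ := exists_maxd a (2 * r) c₁ hc₁ hc₁'
  obtain ⟨c₂, hc₂, hc₂'⟩ := window_col a (6 * r)
  obtain ⟨κ, hκ, hκ'⟩ := exists_greedy a (6 * r) (7 ^ d - 1) c₂ hc₂ hc₂' Z hZm
    (fun x hx F hF => pack a r Z hZd x hx F hF)
  obtain ⟨u, hu, hu'⟩ := cell_sel (0 : Gd d) (fun g x => nb (2 * r) g ∧ a.T g x ∈ Z) (by
    intro g
    by_cases h : nb (2 * r) g
    · simp only [h, true_and]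
      exact (a.meas g) hZm
    · simp [h])
  have hu1 : ∀ x, nb (2 * r) (u x) ∧ a.T (u x) x ∈ Z := fun x => (hu' x).1 (hZ x)
  have hκA : Ms fun x => κ (a.T (u x) x) :=
    hu.bind (F := fun s x => κ (a.T s x)) fun s => hκ.precomp (a.meas s)
  have hsel : ∀ i : Fin (7 ^ d - 1 + 1), ∃ s : X → Gd d, Ms s ∧ ∀ y,
      ((∃ h, nb r h ∧ κ (a.T (u (a.T h y)) (a.T h y)) = i) →
        (nb r (s y) ∧ κ (a.T (u (a.T (s y) y)) (a.T (s y) y)) = i)) ∧
      ((¬ ∃ h, nb r h ∧ κ (a.T (u (a.T h y)) (a.T h y)) = i) → s y = 0) := by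
    intro i
    refine cell_sel (0 : Gd d) (fun h y => nb r h ∧ κ (a.T (u (a.T h y)) (a.T h y)) = i) ?_
    intro h
    by_cases h1 : nb r h
    · simp only [h1, true_and]
      exact (hκA.precomp (a.meas h)) i
    · simp [h1]
  choose s hs hs' using hsel
  have hsnb : ∀ i y, nb r (s i y) := by
    intro i y
    by_cases h : ∃ h, nb r h ∧ κ (a.T (u (a.T h y)) (a.T h y)) = i
    · exact ((hs' i y).1 h).1
    · rw [(hs' i y).2 h]
      exact cell_nb_zero r
  have huniq : ∀ y h h', nb r h → nb r h' →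
      κ (a.T (u (a.T h y)) (a.T h y)) = κ (a.T (u (a.T h' y)) (a.T h' y)) →
      a.T (u (a.T h y)) (a.T h y) = a.T (u (a.T h' y)) (a.T h' y) := by
    intro y h h' hh hh' he
    set v : Gd d := u (a.T h' y) + h' - h - u (a.T h y) with hv
    have hvT : a.T v (a.T (u (a.T h y)) (a.T h y)) = a.T (u (a.T h' y)) (a.T h' y) := by
      rw [← a.add, ← a.add, ← a.add]
      congr 1
      rw [hv]
      abel
    have hvn : nb (6 * r) v := by
      have h1 := cell_nb_add (cell_nb_add (cell_nb_add (hu1 (a.T h' y)).1 hh') (cell_nb_neg hh))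
        (cell_nb_neg (hu1 (a.T h y)).1)
      have h2 : 2 * r + r + r + 2 * r = 6 * r := by ring
      rw [h2] at h1
      rw [hv, sub_eq_add_neg, sub_eq_add_neg]
      exact h1
    by_cases hv0 : v = 0
    · rw [hv0, a.zero] at hvT
      exact hvT
    · exfalso
      refine hκ' _ (hu1 (a.T h y)).2 v hvn hv0 ?_ ?_
      · rw [hvT]
        exact (hu1 (a.T h' y)).2
      · rw [hvT]
        exact he.symm
  have hT : ∀ i y, a.T (u (a.T (s i y) y) + s i y) y =
      a.T (u (a.T (s i y) y)) (a.T (s i y) y) := fun i y => a.add _ _ _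
  refine ⟨fun i y => u (a.T (s i y) y) + s i y, fun i => ?_, fun i x => ?_, fun x => ?_⟩
  · exact (hs i).bind (F := fun g y => u (a.T g y) + g) fun g =>
      (hu.precomp (a.meas g)).comp fun g' => g' + g
  · have h1 := cell_nb_add (hu1 (a.T (s i x) x)).1 (hsnb i x)
    have h2 : 2 * r + r = 3 * r := by ring
    rw [h2] at h1
    exact h1
  · have main : ∀ h, nb r h → a.T (u (a.T (s (κ (a.T (u x) x)) (a.T h x)) (a.T h x)) +
        s (κ (a.T (u x) x)) (a.T h x)) (a.T h x) = a.T (u x) x := by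
      intro h hh
      have hback : a.T (-h) (a.T h x) = x := by
        rw [← a.add, neg_add_cancel, a.zero]
      have hex : ∃ h', nb r h' ∧
          κ (a.T (u (a.T h' (a.T h x))) (a.T h' (a.T h x))) = κ (a.T (u x) x) :=
        ⟨-h, cell_nb_neg hh, by rw [hback]⟩
      have h1 := (hs' (κ (a.T (u x) x)) (a.T h x)).1 hex
      rw [hT]
      have h2 := huniq (a.T h x) (s (κ (a.T (u x) x)) (a.T h x)) (-h) h1.1 (cell_nb_neg hh)
        (by rw [h1.2, hback])
      rw [h2, hback]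
    refine ⟨κ (a.T (u x) x), fun h hh => ?_⟩
    have h0 := main 0 (cell_nb_zero r)
    rw [a.zero] at h0
    rw [main h hh, h0]

end EB
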