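import Pool.Agent.Helper27.EB.Defs

/-!
# EB-11: mixing for Baire category

`Om d` is compact Hausdorff, so it is a Baire space; `F` is Borel (`Ms.measurable`) with finitely many values.
* If `F` is not constant on a residual set: for every `a` the set `{F = a}` has the Baire property (`MeasurableSet` implies `BaireMeasurableSet`: it is equal to an open set modulo a meagre set,
  `BaireMeasurableSet.residualEq_isOpen` or `MeasurableSet.residualEq_isOpen`).  The open sets `U_a` with `{F = a} =ᵇ U_a`; their union is dense (the union of the sets `{F = a}` is everything); if only one `U_a` were nonempty then `F = a` on a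
  residual set.  So there are `a ≠ b` with `U_a`, `U_b` nonempty.  Each contains a nonempty basic cylinder: a finite `W` and a pattern `α` (resp. `β`) on `W` (the same `W` for both) such that `F x = a` for residually many `x`
  with `x = α` on `W`, `F x = b` for residually many `x` with `x = β` on `W`.
* `g₀` with `Q.coeff g₀` a unit, `m` large (`m > 2 M`, `M` a bound for the coordinates in `W`) with the constant `c`.  `opf sh (expd m Q) F x = ∑ g, Q.coeff g * F (sh (m • g) x)`; the windows `W + m • g`, `g` in the support, are pairwise disjoint.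
  The open set of all `x` with `sh (m • g) x = α` on `W` for all `g ∈ support` is nonempty, so by the Baire property it contains an `x` in the intersection of the residual sets (preimages under the homeomorphisms `sh (m • g)`): `∑ Q_g a = c`.
  The same with `β` in place of `α` at `g₀`: `∑_{g ≠ g₀} Q_g a + Q_{g₀} b = c`.  So `Q_{g₀} (a - b) = 0`, `a = b`, contradiction.
* `resid_inv`: `sh g` is a homeomorphism (`sh (-g)` is the inverse): `Homeomorph` preserves `residual` (`tendsto_residual_of_isOpenMap` or `IsOpenMap`/`ContinuousOpenMap` lemma; or directly with `mem_residual`).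
* `resid_FP`: countable intersection of the sets `{x | sh g x ≠ x}`, `g ≠ 0`, which are open and dense (a basic cylinder over a finite window can be extended to `x` with `x (h + g) ≠ x h` for some `h` far away).
* `resid_sub`: if `C` is residual in the subspace `FP d` then its image is residual in `Om d`: `C` contains a countable intersection of dense open subsets of `FP d`; each is `U ∩ FP d` with `U` open, and `U` is dense in `Om d` because `FP d` is dense.
-/

set_option autoImplicit false

namespace EB

open MeasureTheory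

private theorem mixc_opf_expd {q d : ℕ} (m : ℕ) (Q : Rr q d) (F : Om d → ZMod q) (x : Om d) :
    opf sh (expd m Q) F x = opf (fun g y => sh (m • g) y) Q F x := by
  induction Q using Rr_induction with
  | h0 => rw [map_zero, opf_zero, opf_zero]
  | h1 P P' h h' => rw [map_add, opf_add, opf_add, h, h']
  | h2 g c =>
    have h1 : expd (q := q) m (mono g c) = mono (m • g) c := by
      unfold expd mono
      simp
    rw [h1, opf_mono, opf_mono]

private theorem mixc_bound {d : ℕ} (W : Finset (Gd d)) :
    ∃ M : ℕ, ∀ w ∈ W, ∀ i, |w i| ≤ (M : ℤ) := by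
  refine ⟨W.sup fun w => Finset.univ.sup fun i => (w i).natAbs, fun w hw i => ?_⟩
  have h1 : (w i).natAbs ≤ Finset.univ.sup fun i => (w i).natAbs :=
    Finset.le_sup (f := fun i => (w i).natAbs) (Finset.mem_univ i)
  have h2 : (Finset.univ.sup fun i => (w i).natAbs) ≤
      W.sup fun w => Finset.univ.sup fun i => (w i).natAbs :=
    Finset.le_sup (f := fun w : Gd d => Finset.univ.sup fun i => (w i).natAbs) hw
  have h3 := h1.trans h2
  rw [Int.abs_eq_natAbs]
  exact_mod_cast h3

private theorem mixc_disj {d : ℕ} {M m : ℕ} (hm : 2 * M + 1 ≤ m) {w w' g g' : Gd d}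
    (hw : ∀ i, |w i| ≤ (M : ℤ)) (hw' : ∀ i, |w' i| ≤ (M : ℤ)) (h : w + m • g = w' + m • g') :
    g = g' := by
  by_contra hne
  obtain ⟨i, hi⟩ := Function.ne_iff.1 hne
  have h1 : w i + m * g i = w' i + m * g' i := by
    have := congrFun h i
    simpa using this
  have h2 : (m : ℤ) * |g i - g' i| = |w' i - w i| := by
    have h5 : |(m : ℤ) * (g i - g' i)| = (m : ℤ) * |g i - g' i| := by
      rw [abs_mul, abs_of_nonneg (Int.natCast_nonneg m)]
    rw [← h5]
    congr 1
    linarith
  have h3 : |w' i - w i| ≤ 2 * M := by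
    have h6 := abs_sub (w' i) (w i)
    have h7 := hw i
    have h8 := hw' i
    linarith
  have h4 : 1 ≤ |g i - g' i| := Int.one_le_abs (sub_ne_zero.2 hi)
  have h9 : (2 * (M : ℤ) + 1) ≤ m := by exact_mod_cast hm
  nlinarith

private theorem mixc_cont {d : ℕ} (g : Gd d) : Continuous (sh g : Om d → Om d) :=
  continuous_pi fun h => continuous_apply (h + g)

private def mixc_homeo {d : ℕ} (g : Gd d) : Om d ≃ₜ Om d where
  toFun := sh g
  invFun := sh (-g)
  left_inv x := by rw [← sh_add, neg_add_cancel, sh_zero]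
  right_inv x := by rw [← sh_add, add_neg_cancel, sh_zero]
  continuous_toFun := mixc_cont g
  continuous_invFun := mixc_cont (-g)

/-- prescribing the windows -/
private theorem mixc_cyl {d : ℕ} {M m : ℕ} (hm : 2 * M + 1 ≤ m) (W : Finset (Gd d))
    (hM : ∀ w ∈ W, ∀ i, |w i| ≤ (M : ℤ)) (γ : Gd d → Om d) :
    ∃ x : Om d, ∀ g, ∀ w ∈ W, sh (m • g) x w = γ g w := by
  classical
  refine ⟨fun h => if hh : ∃ g : Gd d, h - m • g ∈ W then γ hh.choose (h - m • hh.choose)
    else false, fun g w hw => ?_⟩
  have hh : ∃ g' : Gd d, (w + m • g) - m • g' ∈ W := ⟨g, by rwa [add_sub_cancel_right]⟩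
  have h1 : hh.choose = g := by
    refine mixc_disj hm (hM _ hh.choose_spec) (hM w hw) ?_
    abel
  change (if hh : ∃ g' : Gd d, (w + m • g) - m • g' ∈ W then
    γ hh.choose ((w + m • g) - m • hh.choose) else false) = _
  rw [dif_pos hh, h1, add_sub_cancel_right]

private theorem mixc_win {d : ℕ} {U : Set (Om d)} (hU : IsOpen U) {α : Om d} (hα : α ∈ U) :
    ∃ W : Finset (Gd d), ∀ y : Om d, (∀ w ∈ W, y w = α w) → y ∈ U := by
  obtain ⟨I, u, h1, h2⟩ := isOpen_pi_iff.1 hU α hα
  refine ⟨I, fun y hy => h2 fun i hi => ?_⟩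
  rw [hy i hi]
  exact (h1 i hi).2

theorem resid_inv (d : ℕ) (g : Gd d) (E : Set (Om d)) (hE : E ∈ residual (Om d)) :
    sh g ⁻¹' E ∈ residual (Om d) := by
  exact tendsto_residual_of_isOpenMap (mixc_cont g) (mixc_homeo g).isOpenMap hE

theorem mix_resid (q d : ℕ) [NeZero q] (F : Om d → ZMod q) (hF : Ms F) (Q : Rr q d)
    (hQ : ∃ g, IsUnit (Q.coeff g))
    (h : ∀ n0 : ℕ, ∃ m, n0 ≤ m ∧ ∃ c, ∀ᶠ x in residual (Om d), opf sh (expd m Q) F x = c) :
    ∃ c, ∀ᶠ x in residual (Om d), F x = c := by
  classical
  obtain ⟨g₀, u, hu⟩ := hQ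
  have hs : ∀ m x, opf sh (expd m Q) F x =
      ∑ g ∈ insert g₀ Q.coeff.support, Q.coeff g * F (sh (m • g) x) := by
    intro m x
    rw [mixc_opf_expd]
    unfold opf
    rw [Finsupp.sum_of_support_subset _ (Finset.subset_insert _ _)]
    intro g _
    rw [zero_mul]
  set s := insert g₀ Q.coeff.support with hsdef
  have hg₀s : g₀ ∈ s := Finset.mem_insert_self _ _
  choose U hUo hU using fun a : ZMod q => (hF a).residualEq_isOpen
  have hR : ∀ᶠ x in residual (Om d), ∀ a, (F x = a ↔ x ∈ U a) := by
    rw [Filter.eventually_all]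
    intro a
    filter_upwards [hU a] with x hx
    exact iff_of_eq hx
  by_contra hcon
  obtain ⟨x₀, hx₀⟩ := (dense_of_mem_residual hR).nonempty
  have ha : x₀ ∈ U (F x₀) := (hx₀ (F x₀)).1 rfl
  obtain ⟨b, hab, y₀, hb⟩ : ∃ b, b ≠ F x₀ ∧ (U b).Nonempty := by
    by_contra hno
    refine hcon ⟨F x₀, ?_⟩
    filter_upwards [hR] with x hx
    by_contra hne
    exact hno ⟨F x, hne, x, (hx (F x)).1 rfl⟩
  set a := F x₀ with hadef
  obtain ⟨W₁, hW₁⟩ := mixc_win (hUo a) ha
  obtain ⟨W₂, hW₂⟩ := mixc_win (hUo b) hb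
  obtain ⟨M, hM⟩ := mixc_bound (W₁ ∪ W₂)
  obtain ⟨m, hm, c, hc⟩ := h (2 * M + 1)
  -- the main point
  have key : ∀ P : Gd d → Bool, ∑ g ∈ s, Q.coeff g * (if P g then a else b) = c := by
    intro P
    have hopen : IsOpen {x : Om d | ∀ g ∈ s, ∀ w ∈ W₁ ∪ W₂,
        sh (m • g) x w = (if P g then x₀ else y₀) w} := by
      have h1 : {x : Om d | ∀ g ∈ s, ∀ w ∈ W₁ ∪ W₂,
          sh (m • g) x w = (if P g then x₀ else y₀) w} =
          ⋂ g ∈ s, ⋂ w ∈ W₁ ∪ W₂, {x : Om d | sh (m • g) x w = (if P g then x₀ else y₀) w} := by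
        ext x
        simp only [Set.mem_ofPred_eq, Set.mem_iInter]
      rw [h1]
      refine isOpen_biInter_finset fun g _ => isOpen_biInter_finset fun w _ => ?_
      have h2 : Continuous fun x : Om d => sh (m • g) x w :=
        (continuous_apply w).comp (mixc_cont (m • g))
      exact (isOpen_discrete {(if P g then x₀ else y₀) w}).preimage h2
    have hres : ∀ᶠ x in residual (Om d), opf sh (expd m Q) F x = c ∧
        ∀ g ∈ s, ∀ a, (F (sh (m • g) x) = a ↔ sh (m • g) x ∈ U a) := by
      refine hc.and ?_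
      rw [Filter.eventually_all_finset]
      intro g _
      exact resid_inv d (m • g) _ hR
    obtain ⟨z, hz⟩ := mixc_cyl hm (W₁ ∪ W₂) hM fun g => if P g then x₀ else y₀
    obtain ⟨x, hx1, hx2, hx3⟩ := (dense_of_mem_residual hres).inter_open_nonempty _ hopen
      ⟨z, fun g _ w hw => hz g w hw⟩
    rw [← hx2, hs]
    refine Finset.sum_congr rfl fun g hg => ?_
    congr 1
    by_cases hP : P g = true
    · rw [if_pos hP]
      refine ((hx3 g hg a).2 (hW₁ _ fun w hw => ?_)).symm
      have h3 := hx1 g hg w (Finset.mem_union_left _ hw)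
      rwa [if_pos hP] at h3
    · rw [if_neg hP]
      refine ((hx3 g hg b).2 (hW₂ _ fun w hw => ?_)).symm
      have h3 := hx1 g hg w (Finset.mem_union_right _ hw)
      rwa [if_neg hP] at h3
  have k1 := key fun _ => true
  have k2 := key fun g => decide (g ≠ g₀)
  rw [← Finset.add_sum_erase _ _ hg₀s] at k1 k2
  have k3 : ∑ g ∈ s.erase g₀, Q.coeff g * (if decide (g ≠ g₀) = true then a else b) =
      ∑ g ∈ s.erase g₀, Q.coeff g * (if true = true then a else b) :=
    Finset.sum_congr rfl fun g hg => by
      rw [if_pos (decide_eq_true (Finset.mem_erase.1 hg).1), if_pos rfl]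
  rw [k3, ← k1] at k2
  have k4 := add_right_cancel k2
  rw [if_neg (by simp), if_pos rfl, ← hu] at k4
  exact hab (u.mul_right_inj.1 k4)

end EB
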