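import Pool.Agent.Helper27.EB.Cyl
import Pool.Agent.Helper27.EB.Indep
import Pool.Agent.Helper27.EB.Bern

/-!
# EB-10: mixing of all orders for the Bernoulli measure

`μ = bern d`, `g₀` with `Q.coeff g₀` a unit, `s = Q.coeff.support` (`g₀ ∈ s` if `q ≠ 1`; if `q = 1` everything is constant), `K = s.card`.
Let `ε > 0` (real or ENNReal), `W, F'` from `cyl_approx` with `ε`.  Let `M` be a bound for the coordinates of the elements of `W` and `m ≥ 2 M + 1` with `c` as in the hypothesis.
* `expd m Q` has the coefficients of `Q` at `m • g`: `opf sh (expd m Q) F x = ∑ g ∈ s, Q.coeff g * F (sh (m • g) x)` (by `Rr_induction`, `opf_add`, `opf_mono`, `expd m (mono g c) = mono (m • g) c`).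
* `x ↦ F' (sh (m • g) x)` depends on the coordinates in `W + m • g`; these sets are pairwise disjoint for different `g` (a coordinate with `g i ≠ g' i` gives `|m (g i - g' i)| ≥ m > 2 M`).
* The set where `F (sh (m • g) x) = F' (sh (m • g) x)` for all `g ∈ s` and `opf … = c` has measure `≥ 1 - K ε` (`bern_inv`); on it `Q_{g₀} F' (sh (m • g₀) x) = c - Y x`, `Y` the sum over the other `g`, so `F' (sh (m • g₀) x) = Q_{g₀}⁻¹ (c - Y x)`.
  `Y` depends on the other windows, so by `bern_indep`: `1 - K ε ≤ ∑_b μ(Y = b) μ(F' ∘ sh (m g₀) = Q_{g₀}⁻¹ (c - b)) ≤ max_a μ(F' = a)` (`bern_inv`).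
* So for some `a`: `μ (F = a) ≥ 1 - (K + 1) ε`.  `ZMod q` is finite: let `a` maximise `μ (F = a)`; then `μ (F = a) ≥ 1 - (K+1) ε` for all `ε`, so `= 1`.
-/

set_option autoImplicit false

namespace EB

open MeasureTheory

private theorem mixm_opf_expd {q d : ℕ} (m : ℕ) (Q : Rr q d) (F : Om d → ZMod q) (x : Om d) :
    opf sh (expd m Q) F x = opf (fun g y => sh (m • g) y) Q F x := by
  induction Q using Rr_induction with
  | h0 => rw [map_zero, opf_zero, opf_zero]
  | h1 P P' h h' => rw [map_add, opf_add, opf_add, h, h']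
  | h2 g c =>
    have h1 : expd (q := q) m (mono g c) = mono (m • g) c := by
      unfold expd mono
      simp
    rw [h1, opf_mono, opf_mono]

private theorem mixm_bound {d : ℕ} (W : Finset (Gd d)) :
    ∃ M : ℕ, ∀ w ∈ W, ∀ i, |w i| ≤ (M : ℤ) := by
  refine ⟨W.sup fun w => Finset.univ.sup fun i => (w i).natAbs, fun w hw i => ?_⟩
  have h1 : (w i).natAbs ≤ Finset.univ.sup fun i => (w i).natAbs :=
    Finset.le_sup (f := fun i => (w i).natAbs) (Finset.mem_univ i)
  have h2 : (Finset.univ.sup fun i => (w i).natAbs) ≤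
      W.sup fun w => Finset.univ.sup fun i => (w i).natAbs :=
    Finset.le_sup (f := fun w : Gd d => Finset.univ.sup fun i => (w i).natAbs) hw
  have h3 := h1.trans h2
  rw [Int.abs_eq_natAbs]
  exact_mod_cast h3

private theorem mixm_disj {d : ℕ} {M m : ℕ} (hm : 2 * M + 1 ≤ m) {w w' g g' : Gd d}
    (hw : ∀ i, |w i| ≤ (M : ℤ)) (hw' : ∀ i, |w' i| ≤ (M : ℤ)) (h : w + m • g = w' + m • g') :
    g = g' := by
  by_contra hne
  obtain ⟨i, hi⟩ := Function.ne_iff.1 hne
  have h1 : w i + m * g i = w' i + m * g' i := by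
    have := congrFun h i
    simpa using this
  have h2 : (m : ℤ) * |g i - g' i| = |w' i - w i| := by
    have h5 : |(m : ℤ) * (g i - g' i)| = (m : ℤ) * |g i - g' i| := by
      rw [abs_mul, abs_of_nonneg (Int.natCast_nonneg m)]
    rw [← h5]
    congr 1
    linarith
  have h3 : |w' i - w i| ≤ 2 * M := by
    have h6 := abs_sub (w' i) (w i)
    have h7 := hw i
    have h8 := hw' i
    linarith
  have h4 : 1 ≤ |g i - g' i| := Int.one_le_abs (sub_ne_zero.2 hi)
  have h9 : (2 * (M : ℤ) + 1) ≤ m := by exact_mod_cast hm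
  nlinarith

private theorem mixm_step (q d : ℕ) [NeZero q] (F : Om d → ZMod q) (hF : Ms F) (Q : Rr q d)
    (g₀ : Gd d) (hg₀ : IsUnit (Q.coeff g₀))
    (h : ∀ n0 : ℕ, ∃ m, n0 ≤ m ∧ ∃ c, ∀ᶠ x in ae (bern d), opf sh (expd m Q) F x = c)
    (s : Finset (Gd d)) (hs : ∀ m x, opf sh (expd m Q) F x =
      ∑ g ∈ s, Q.coeff g * F (sh (m • g) x)) (hg₀s : g₀ ∈ s) (ε : ENNReal) (hε : 0 < ε) :
    ∃ a, bern d {x | F x ≠ a} ≤ ((s.card : ENNReal) + 1) * ε := by
  classical
  obtain ⟨W, F', hF', hdep, happ⟩ := cyl_approx d (bern d) F hF ε hε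
  obtain ⟨M, hM⟩ := mixm_bound W
  obtain ⟨m, hm, c, hc⟩ := h (2 * M + 1)
  obtain ⟨u, hu⟩ := hg₀
  set Y : Om d → ZMod q := fun x => ∑ g ∈ s.erase g₀, Q.coeff g * F' (sh (m • g) x) with hY
  have hYm : Ms Y := Ms.sum _ fun g _ => (hF'.precomp (sh_meas (m • g))).comp
    fun c => Q.coeff g * c
  obtain ⟨a, ha⟩ := Finite.exists_max fun a => bern d {x | F' x = a}
  -- the exceptional set
  set A : Set (Om d) := {x | ¬ opf sh (expd m Q) F x = c} ∪
    ⋃ g ∈ s, {x | F (sh (m • g) x) ≠ F' (sh (m • g) x)} with hA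
  have hne : MeasurableSet {x | F x ≠ F' x} := (hF.pair hF').set {p | p.1 ≠ p.2}
  have hAle : bern d A ≤ s.card * ε := by
    refine (measure_union_le _ _).trans ?_
    have h1 : bern d {x | ¬ opf sh (expd m Q) F x = c} = 0 := hc
    rw [h1, zero_add]
    refine (measure_biUnion_finset_le _ _).trans ?_
    refine (Finset.sum_le_card_nsmul s _ ε fun g _ => ?_).trans ?_
    · have h2 := (bern_inv d (m • g)).measure_preimage hne.nullMeasurableSet
      exact (le_of_eq h2).trans happ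
    · rw [nsmul_eq_mul]
  -- the complement
  have hAc : bern d Aᶜ ≤ bern d {x | F' x = a} := by
    have h1 : Aᶜ ⊆ ⋃ b ∈ (Finset.univ : Finset (ZMod q)),
        {x | F' (sh (m • g₀) x) = ((u⁻¹ : (ZMod q)ˣ) : ZMod q) * (c - b) ∧ Y x = b} := by
      intro x hx
      rw [hA, Set.compl_union, Set.mem_inter_iff, Set.mem_compl_iff, Set.mem_ofPred_eq, not_not]
        at hx
      obtain ⟨hx1, hx2⟩ := hx
      simp only [Set.mem_compl_iff, Set.mem_iUnion, Set.mem_ofPred_eq, not_exists, not_not] at hx2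
      simp only [Set.mem_iUnion, Set.mem_ofPred_eq]
      refine ⟨Y x, Finset.mem_univ _, ?_, rfl⟩
      rw [hs, ← Finset.add_sum_erase _ _ hg₀s, hx2 g₀ hg₀s] at hx1
      have h3 : ∑ g ∈ s.erase g₀, Q.coeff g * F (sh (m • g) x) = Y x :=
        Finset.sum_congr rfl fun g hg => by rw [hx2 g (Finset.mem_of_mem_erase hg)]
      rw [h3, ← hu] at hx1
      rw [← hx1, add_sub_cancel_right, Units.inv_mul_cancel_left]
    refine (measure_mono h1).trans ((measure_biUnion_finset_le _ _).trans ?_)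
    have h2 : ∀ b ∈ (Finset.univ : Finset (ZMod q)),
        bern d {x | F' (sh (m • g₀) x) = ((u⁻¹ : (ZMod q)ˣ) : ZMod q) * (c - b) ∧ Y x = b} ≤
        bern d {x | F' x = a} * bern d (Y ⁻¹' {b}) := by
      intro b _
      rw [bern_indep d (W.image fun w => w + m • g₀)
        ((s.erase g₀).biUnion fun g => W.image fun w => w + m • g) ?_
        (fun x => F' (sh (m • g₀) x)) Y ?_ ?_]
      · refine mul_le_mul' ?_ le_rfl
        have h3 := (bern_inv d (m • g₀)).measure_preimage
          (hF' (((u⁻¹ : (ZMod q)ˣ) : ZMod q) * (c - b))).nullMeasurableSet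
        exact (le_of_eq h3).trans (ha _)
      · rw [Finset.disjoint_left]
        intro v hv hv'
        obtain ⟨w, hw, rfl⟩ := Finset.mem_image.1 hv
        obtain ⟨g, hg, hv2⟩ := Finset.mem_biUnion.1 hv'
        obtain ⟨w', hw', h4⟩ := Finset.mem_image.1 hv2
        exact (Finset.mem_erase.1 hg).1 (mixm_disj hm (hM w' hw') (hM w hw) h4)
      · intro x y hxy
        refine hdep _ _ fun w hw => ?_
        exact hxy (w + m • g₀) (Finset.mem_image_of_mem _ hw)
      · intro x y hxy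
        refine Finset.sum_congr rfl fun g hg => ?_
        congr 1
        refine hdep _ _ fun w hw => ?_
        exact hxy (w + m • g) (Finset.mem_biUnion.2 ⟨g, hg, Finset.mem_image_of_mem _ hw⟩)
    refine (Finset.sum_le_sum h2).trans ?_
    rw [← Finset.mul_sum, sum_measure_preimage_singleton _ fun b _ => hYm b]
    refine (mul_le_mul' le_rfl prob_le_one).trans ?_
    rw [mul_one]
  refine ⟨a, ?_⟩
  have h1 : (1 : ENNReal) ≤ s.card * ε + bern d {x | F' x = a} := by
    calc (1 : ENNReal) = bern d Set.univ := measure_univ.symm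
      _ = bern d (A ∪ Aᶜ) := by rw [Set.union_compl_self]
      _ ≤ bern d A + bern d Aᶜ := measure_union_le _ _
      _ ≤ _ := add_le_add hAle hAc
  have h2 : bern d {x | F' x = a} ≤ bern d {x | F x = a} + ε := by
    refine (measure_mono (t := {x | F x = a} ∪ {x | F x ≠ F' x}) ?_).trans
      ((measure_union_le _ _).trans (add_le_add le_rfl happ))
    intro x hx
    by_cases h3 : F x = F' x
    · left
      exact h3.trans hx
    · right
      exact h3
  have h3 : bern d {x | F x ≠ a} = 1 - bern d {x | F x = a} := by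
    rw [← prob_compl_eq_one_sub (hF a)]
    rfl
  rw [h3, tsub_le_iff_right]
  calc (1 : ENNReal) ≤ s.card * ε + bern d {x | F' x = a} := h1
    _ ≤ s.card * ε + (bern d {x | F x = a} + ε) := by gcongr
    _ = _ := by ring

theorem mix_bern (q d : ℕ) [NeZero q] (F : Om d → ZMod q) (hF : Ms F) (Q : Rr q d)
    (hQ : ∃ g, IsUnit (Q.coeff g))
    (h : ∀ n0 : ℕ, ∃ m, n0 ≤ m ∧ ∃ c, ∀ᶠ x in ae (bern d), opf sh (expd m Q) F x = c) :
    ∃ c, ∀ᶠ x in ae (bern d), F x = c := by
  classical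
  obtain ⟨g₀, hg₀⟩ := hQ
  have hs : ∀ m x, opf sh (expd m Q) F x =
      ∑ g ∈ insert g₀ Q.coeff.support, Q.coeff g * F (sh (m • g) x) := by
    intro m x
    rw [mixm_opf_expd]
    unfold opf
    rw [Finsupp.sum_of_support_subset _ (Finset.subset_insert _ _)]
    intro g _
    rw [zero_mul]
  set s := insert g₀ Q.coeff.support with hsdef
  have hg₀s : g₀ ∈ s := Finset.mem_insert_self _ _
  by_contra hcon
  obtain ⟨a₀, ha₀⟩ := Finite.exists_min fun a => bern d {x | F x ≠ a}
  have hpos : 0 < bern d {x | F x ≠ a₀} := by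
    rw [pos_iff_ne_zero]
    intro h0
    exact hcon ⟨a₀, h0⟩
  have hK : ((s.card : ENNReal) + 1) ≠ 0 := by simp
  have hK' : ((s.card : ENNReal) + 1) ≠ ⊤ := by simp
  have hfin : bern d {x | F x ≠ a₀} ≠ ⊤ := measure_ne_top _ _
  obtain ⟨a, ha⟩ := mixm_step q d F hF Q g₀ hg₀ h s hs hg₀s
    (bern d {x | F x ≠ a₀} / 2 / ((s.card : ENNReal) + 1))
    (ENNReal.div_pos (ENNReal.div_pos hpos.ne' (by simp)).ne' hK')
  rw [ENNReal.mul_div_cancel hK hK'] at ha
  have h1 := (ha₀ a).trans ha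
  exact absurd h1 (not_le.2 (ENNReal.half_lt_self hpos.ne' hfin))

end EB
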