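import Pool.Agent.Helper27.EB.Defs

/-!
# EB-12: the free part is comeagre

* `resid_FP`: countable intersection of the sets `{x | sh g x ≠ x}`, `g ≠ 0`, which are open (`sh g` is continuous) and dense: a basic open set fixes the values on a finite window `W`; choose `h` with `h, h + g ∉ W` (`Z^d` is infinite because `g ≠ 0`: take `h = n • g`, `n`
  large) and change the values at `h`, `h + g` to be different.  (`sh g x = x` for `x ∉ FP d` means: `∃ g ≠ 0`.)
* `resid_sub`: if `C` is residual in the subspace `FP d` then its image is residual in `Om d`: `mem_residual_iff`: `C` contains a countable intersection of dense open subsets of `FP d`; each is `val ⁻¹' U` with `U` open, and `U` is dense in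
  `Om d` because `FP d` is dense (`resid_FP`, Baire space: `dense_of_mem_residual`).  Intersect with `FP d`, which is residual.
-/

set_option autoImplicit false

namespace EB

open MeasureTheory

private lemma cont_sh {d : ℕ} (g : Gd d) : Continuous (sh g : Om d → Om d) :=
  continuous_pi fun h => continuous_apply (h + g)

private lemma dense_ne {d : ℕ} {g : Gd d} (hg : g ≠ 0) : Dense {x : Om d | sh g x ≠ x} := by
  classical
  rw [dense_iff_inter_open]
  rintro O hO ⟨x, hx⟩
  obtain ⟨W, u, hu, hsub⟩ := isOpen_pi_iff.1 hO x hx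
  obtain ⟨i, hi⟩ : ∃ i, g i ≠ 0 := by
    by_contra hcon
    push Not at hcon
    exact hg (funext hcon)
  have : Nonempty (Fin d) := ⟨i⟩
  have hinf : Infinite (Gd d) := inferInstanceAs (Infinite (Fin d → ℤ))
  obtain ⟨h, hh⟩ := Infinite.exists_notMem_finset W
  have hne : h + g ≠ h := by
    intro h1
    exact hg (by simpa using h1)
  refine ⟨Function.update x h (!x (h + g)), hsub ?_, ?_⟩
  · intro a ha
    have hah : a ≠ h := by
      rintro rfl
      exact hh ha
    rw [Function.update_of_ne hah]
    exact (hu a ha).2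
  · intro h1
    have h2 := congrFun h1 h
    unfold sh at h2
    rw [Function.update_of_ne hne, Function.update_self] at h2
    cases hb : x (h + g) <;> simp [hb] at h2

theorem resid_FP (d : ℕ) : FP d ∈ residual (Om d) := by
  have h1 : FP d = ⋂ g : Gd d, ⋂ _ : g ≠ 0, {x : Om d | sh g x ≠ x} := by
    ext x
    simp only [Set.mem_iInter]
    constructor
    · intro hx g hg h
      exact hg (hx g h)
    · intro hx g h
      by_contra hg
      exact hx g hg h
  rw [h1, countable_iInter_mem]
  intro g
  by_cases hg : g = 0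
  · have h2 : (⋂ _ : g ≠ 0, {x : Om d | sh g x ≠ x}) = Set.univ := by
      simp [hg]
    rw [h2]
    exact Filter.univ_mem
  · have h2 : (⋂ _ : g ≠ 0, {x : Om d | sh g x ≠ x}) = {x : Om d | sh g x ≠ x} := by
      simp [hg]
    rw [h2]
    refine residual_of_dense_open ?_ (dense_ne hg)
    exact (isClosed_eq (cont_sh g) continuous_id).isOpen_compl

theorem resid_sub (d : ℕ) (C : Set (FP d)) (hC : C ∈ residual (FP d)) :
    Subtype.val '' C ∈ residual (Om d) := by
  have hFP := resid_FP d
  have hd : Dense (FP d) := dense_of_mem_residual hFP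
  obtain ⟨S, hSo, hSd, hSc, hSC⟩ := mem_residual_iff.1 hC
  have key : ∀ t ∈ S, ∃ U : Set (Om d), U ∈ residual (Om d) ∧ Subtype.val ⁻¹' U = t := by
    intro t ht
    obtain ⟨U, hU, hUt⟩ := isOpen_induced_iff.1 (hSo t ht)
    refine ⟨U, residual_of_dense_open hU ?_, hUt⟩
    have h1 : Dense (Subtype.val '' t : Set (Om d)) :=
      hd.denseRange_val.dense_image continuous_subtype_val (hSd t ht)
    refine h1.mono ?_
    rintro _ ⟨y, hy, rfl⟩
    rw [← hUt] at hy
    exact hy
  choose! U hU hUt using key
  have h2 : (⋂ t ∈ S, U t) ∈ residual (Om d) := (countable_bInter_mem hSc).2 fun t ht => hU t ht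
  refine Filter.mem_of_superset (Filter.inter_mem h2 hFP) ?_
  rintro x ⟨hx, hxF⟩
  refine ⟨⟨x, hxF⟩, hSC ?_, rfl⟩
  intro t ht
  rw [← hUt t ht]
  exact Set.mem_iInter₂.1 hx t ht

end EB
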