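import Pool.Agent.Helper27.EB.Defs

/-!
# EB-18: the tower

`r n`, `D n` by recursion: `D 0 = 0`, `r n = D n + n + 1`, `D (n+1) = D n + 3 r n`.  `t n` = the maps of the hypothesis for the radius `r n`.  For `i : Fin K`: `G i 0 x = 0`, `G i (n+1) x = t n i (T (G i n x) x) + G i n x`, `s i n x = T (G i n x) x`;
so `s i (n+1) x = τ (s i n x)` with `τ y = T (t n i y) y`.  `nb (D n) (G i n x)`, `Ms (G i n)` (`Ms.bind`, `Ms.precomp`).
* (a) `s i n x = s i n y` implies `s i (n+1) x = s i (n+1) y`; hence equality persists for all larger indices.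
* (b) for all `x, n` there is `i` such that `s i (n+1) (T h x) = s i (n+1) x` for all `h` with `nb (n+1) h`: take `i` from the hypothesis for `x` and `r n`; `s i n (T h x) = T (G i n (T h x) + h) x` with `nb (D n + n + 1)`, so `τ` of it is `τ x`; also for `h = 0`.
* `X_i = {x | ∀ h, ∃ n, s i n (T h x) = s i n x}` is measurable (countable operations; equality of `T g x` and `T g' x` means `g = g'` by freeness: `s i n (T h x) = s i n x` iff `G i n (T h x) + h = G i n x`), invariant (by persistence: for `h'`: compare `s i n (T h (T h' x)) = s i n x = s i n (T h' x)` for large `n`),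
  and `⋃ X_i = X` by (b) and the pigeonhole principle: for given `x` some `i` works for infinitely many `n`; for `h` take such an `n` with `nb (n+1) h`.
* `ι x` = the least `i` with `x ∈ X_i` (`K > 0` if `X` is nonempty), `Ms ι`, invariant; `g n x = G (ι x) n x` (`Ms.bind`).  If `T (g n x) x = T (g n y) y` then `x` and `y` are in the same orbit, so `ι x = ι y`, and (a) applies.
-/

set_option autoImplicit false

namespace EB

private theorem tw_nb_add {d : ℕ} {M N : ℕ} {g h : Gd d} (hg : nb M g) (hh : nb N h) :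
    nb (M + N) (g + h) := by
  intro i
  have h1 := abs_add_le (g i) (h i)
  have h2 := hg i
  have h3 := hh i
  rw [Pi.add_apply]
  push_cast
  linarith

private theorem tw_nb_mono {d : ℕ} {M N : ℕ} (hMN : M ≤ N) {g : Gd d} (hg : nb M g) : nb N g := by
  intro i
  have h2 := hg i
  have h3 : (M : ℤ) ≤ N := by exact_mod_cast hMN
  linarith

private theorem tw_nb_exists {d : ℕ} (g : Gd d) : ∃ N, nb N g := by
  refine ⟨∑ i, (g i).natAbs, fun i => ?_⟩
  have h1 : (g i).natAbs ≤ ∑ i, (g i).natAbs :=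
    Finset.single_le_sum (f := fun i => (g i).natAbs) (fun _ _ => Nat.zero_le _)
      (Finset.mem_univ i)
  have h2 : |g i| = ((g i).natAbs : ℤ) := (Int.natCast_natAbs (g i)).symm
  rw [h2]
  exact_mod_cast h1

private theorem tw_inj {d : ℕ} {X : Type} [MeasurableSpace X] (a : FreeAct d X) {g h : Gd d}
    {x : X} (e : a.T g x = a.T h x) : g = h := by
  have h1 : a.T (-h + g) x = x := by
    rw [a.add, e, ← a.add, neg_add_cancel, a.zero]
  have h2 := a.free _ _ h1
  rwa [neg_add_eq_zero, eq_comm] at h2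

theorem tower_of_cells {d : ℕ} {X : Type} [MeasurableSpace X] (a : FreeAct d X) (K : ℕ)
    (hK : ∀ r : ℕ, ∃ t : Fin K → X → Gd d, (∀ i, Ms (t i)) ∧ (∀ i x, nb (3 * r) (t i x)) ∧
      ∀ x, ∃ i, ∀ h, nb r h → a.T (t i (a.T h x)) (a.T h x) = a.T (t i x) x) :
    Tower a := by
  classical
  choose t ht htn hti using hK
  -- the radii
  obtain ⟨D, hD0, hDs⟩ : ∃ D : ℕ → ℕ, D 0 = 0 ∧ ∀ n, D (n + 1) = D n + 3 * (D n + n + 1) :=
    ⟨fun n => Nat.rec 0 (fun n D => D + 3 * (D + n + 1)) n, rfl, fun n => rfl⟩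
  -- the maps
  obtain ⟨G, hG0, hGs⟩ : ∃ G : Fin K → ℕ → X → Gd d, (∀ i x, G i 0 x = 0) ∧
      ∀ i n x, G i (n + 1) x = t (D n + n + 1) i (a.T (G i n x) x) + G i n x :=
    ⟨fun i n => Nat.rec (fun _ => 0)
      (fun n G x => t (D n + n + 1) i (a.T (G x) x) + G x) n, fun _ _ => rfl, fun _ _ _ => rfl⟩
  have hGnb : ∀ i n x, nb (D n) (G i n x) := by
    intro i n
    induction n with
    | zero =>
      intro x j
      rw [hG0, hD0]
      simp
    | succ n ih =>
      intro x
      rw [hGs, hDs, add_comm (D n)]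
      exact tw_nb_add (htn _ i _) (ih x)
  have hGMs : ∀ i n, Ms (G i n) := by
    intro i n
    induction n with
    | zero =>
      have h : G i 0 = fun _ => 0 := funext fun x => hG0 i x
      rw [h]
      exact Ms.const 0
    | succ n ih =>
      have h : G i (n + 1) = fun x =>
          (fun (g : Gd d) (x : X) => t (D n + n + 1) i (a.T g x) + g) (G i n x) x :=
        funext fun x => hGs i n x
      rw [h]
      refine ih.bind (F := fun (g : Gd d) (x : X) => t (D n + n + 1) i (a.T g x) + g)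
        fun g => ?_
      exact ((ht (D n + n + 1) i).precomp (a.meas g)).comp fun z => z + g
  -- the points
  have hs : ∀ i n x, a.T (G i (n + 1) x) x =
      a.T (t (D n + n + 1) i (a.T (G i n x) x)) (a.T (G i n x) x) := by
    intro i n x
    rw [hGs, a.add]
  have ha : ∀ i n x y, a.T (G i n x) x = a.T (G i n y) y →
      a.T (G i (n + 1) x) x = a.T (G i (n + 1) y) y := by
    intro i n x y h
    rw [hs, hs, h]
  have ha' : ∀ i n m x y, n ≤ m → a.T (G i n x) x = a.T (G i n y) y →
      a.T (G i m x) x = a.T (G i m y) y := by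
    intro i n m x y hnm h
    induction m, hnm using Nat.le_induction with
    | base => exact h
    | succ m _ ih => exact ha i m x y ih
  have hb : ∀ x n, ∃ i, ∀ h, nb (n + 1) h →
      a.T (G i (n + 1) (a.T h x)) (a.T h x) = a.T (G i (n + 1) x) x := by
    intro x n
    obtain ⟨i, hi⟩ := hti (D n + n + 1) x
    have key : ∀ h, nb (n + 1) h → a.T (G i (n + 1) (a.T h x)) (a.T h x) =
        a.T (t (D n + n + 1) i x) x := by
      intro h hh
      rw [hs, ← a.add (G i n (a.T h x)) h x, hi]
      rw [add_assoc]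
      exact tw_nb_add (hGnb i n _) hh
    refine ⟨i, fun h hh => ?_⟩
    rw [key h hh]
    have h0 := key 0 (fun j => by rw [Pi.zero_apply, abs_zero]; positivity)
    rw [a.zero] at h0
    rw [h0]
  -- the sets
  obtain ⟨S, hS⟩ : ∃ S : Fin K → Set X, ∀ i x, x ∈ S i ↔
      ∀ h, ∃ n, a.T (G i n (a.T h x)) (a.T h x) = a.T (G i n x) x :=
    ⟨fun i => {x | ∀ h, ∃ n, a.T (G i n (a.T h x)) (a.T h x) = a.T (G i n x) x},
      fun _ _ => Iff.rfl⟩
  have hSm : ∀ i, MeasurableSet (S i) := by
    intro i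
    have h1 : S i = ⋂ h : Gd d, ⋃ n : ℕ,
        {x | (G i n (a.T h x), G i n x) ∈ {p : Gd d × Gd d | p.1 + h = p.2}} := by
      ext x
      rw [hS, Set.mem_iInter]
      refine forall_congr' fun h => ?_
      rw [Set.mem_iUnion]
      refine exists_congr fun n => ?_
      show _ ↔ G i n (a.T h x) + h = G i n x
      rw [← a.add]
      exact ⟨fun e => tw_inj a e, fun e => by rw [e]⟩
    rw [h1]
    refine MeasurableSet.iInter fun h => MeasurableSet.iUnion fun n => ?_
    exact (((hGMs i n).precomp (a.meas h)).pair (hGMs i n)).set _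
  have hSinv : ∀ i x h, x ∈ S i → a.T h x ∈ S i := by
    intro i x h' hx
    rw [hS] at hx ⊢
    intro h
    obtain ⟨n1, h1⟩ := hx (h + h')
    obtain ⟨n2, h2⟩ := hx h'
    refine ⟨max n1 n2, ?_⟩
    have h3 := ha' i n1 (max n1 n2) _ _ (le_max_left _ _) h1
    have h4 := ha' i n2 (max n1 n2) _ _ (le_max_right _ _) h2
    rw [← a.add h h' x, h3, h4]
  have hScov : ∀ x, ∃ i, x ∈ S i := by
    intro x
    choose I hI using hb x
    have h1 : ∃ i, ∀ N, ∃ n, N ≤ n ∧ I n = i := by
      by_contra hcon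
      push Not at hcon
      choose N hN using hcon
      have h2 := hN (I (∑ i, N i)) (∑ i, N i)
        (Finset.single_le_sum (f := N) (fun _ _ => Nat.zero_le _) (Finset.mem_univ _))
      exact h2 rfl
    obtain ⟨i, hi⟩ := h1
    refine ⟨i, ?_⟩
    rw [hS]
    intro h
    obtain ⟨N, hN⟩ := tw_nb_exists h
    obtain ⟨n, hn, hni⟩ := hi N
    refine ⟨n + 1, ?_⟩
    have h3 := hI n h (tw_nb_mono (by omega) hN)
    rw [hni] at h3
    exact h3
  have hmin : ∀ x, ∃ i, x ∈ S i ∧ ∀ j < i, x ∉ S j := by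
    intro x
    obtain ⟨i, hi, hmin⟩ := WellFounded.has_min (wellFounded_lt (α := Fin K)) {i | x ∈ S i}
      (hScov x)
    exact ⟨i, hi, fun j hj hx => hmin j hx hj⟩
  choose ι hι1 hι2 using hmin
  have huniq : ∀ x i, x ∈ S i → (∀ j < i, x ∉ S j) → ι x = i := by
    intro x i h1 h2
    rcases lt_trichotomy (ι x) i with h | h | h
    · exact absurd (hι1 x) (h2 _ h)
    · exact h
    · exact absurd h1 (hι2 x _ h)
  have hιMs : Ms ι := by
    intro i
    have h1 : {x | ι x = i} = S i ∩ ⋂ j : Fin K, ⋂ _ : j < i, (S j)ᶜ := by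
      ext x
      simp only [Set.mem_ofPred_eq, Set.mem_inter_iff, Set.mem_iInter, Set.mem_compl_iff]
      constructor
      · rintro rfl
        exact ⟨hι1 x, hι2 x⟩
      · rintro ⟨h1, h2⟩
        exact huniq x i h1 h2
    rw [h1]
    exact (hSm i).inter (MeasurableSet.iInter fun j => MeasurableSet.iInter fun _ =>
      (hSm j).compl)
  have hιinv : ∀ x h, ι (a.T h x) = ι x := by
    intro x h
    refine huniq _ _ (hSinv _ _ _ (hι1 x)) fun j hj hx => ?_
    have h1 := hSinv j _ (-h) hx
    rw [← a.add, neg_add_cancel, a.zero] at h1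
    exact hι2 x j hj h1
  refine ⟨fun n x => G (ι x) n x, fun n => ?_, fun n x y h => ?_, fun x h => ?_⟩
  · exact hιMs.bind (F := fun i x => G i n x) fun i => hGMs i n
  · have h1 : ι x = ι y := by
      have h2 : y = a.T (-(G (ι y) n y) + G (ι x) n x) x := by
        have h3 : a.T (G (ι x) n x) x = a.T (G (ι y) n y) y := h
        rw [a.add, h3, ← a.add, neg_add_cancel, a.zero]
      calc ι x = ι (a.T (-(G (ι y) n y) + G (ι x) n x) x) := (hιinv _ _).symm
        _ = ι y := by rw [← h2]
    show a.T (G (ι x) (n + 1) x) x = a.T (G (ι y) (n + 1) y) y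
    have h3 : a.T (G (ι x) n x) x = a.T (G (ι y) n y) y := h
    rw [← h1] at h3 ⊢
    exact ha _ _ _ _ h3
  · obtain ⟨n, hn⟩ := (hS (ι x) x).1 (hι1 x) h
    refine ⟨n, ?_⟩
    show a.T (G (ι (a.T h x)) n (a.T h x)) (a.T h x) = a.T (G (ι x) n x) x
    rw [hιinv]
    exact hn

end EB
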