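import Pool.Agent.Helper27.EB.Core
import Pool.Agent.Helper27.EB.MixM
import Pool.Agent.Helper27.EB.MixC
import Pool.Agent.Helper27.EB.Resid
import Pool.Agent.Helper27.EB.Cell
import Pool.Agent.Helper27.EB.TowerP
import Pool.Agent.Helper27.EB.BallIso
import Pool.Agent.Helper27.EB.GridFin

/-!
# EB: assembly
-/

set_option autoImplicit false

namespace EB

open MeasureTheory

theorem good_bern (p e d : ℕ) (hp : p.Prime) : Good (p ^ (e + 1)) d (ae (bern d)) where
  ne := inferInstance
  inv g _ hE := (bern_inv d g).quasiMeasurePreserving.tendsto_ae hE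
  mix F hF Q hQ h := by
    have : NeZero (p ^ (e + 1)) := ⟨pow_ne_zero _ hp.ne_zero⟩
    exact mix_bern _ d F hF Q hQ h

theorem good_resid (p e d : ℕ) (hp : p.Prime) : Good (p ^ (e + 1)) d (residual (Om d)) where
  ne := by
    refine ⟨fun h => ?_⟩
    have h1 : (∅ : Set (Om d)) ∈ residual (Om d) := by
      rw [h]
      exact Filter.mem_bot
    exact (dense_of_mem_residual h1).nonempty.ne_empty rfl
  inv g E hE := resid_inv d g E hE
  mix F hF Q hQ h := by
    have : NeZero (p ^ (e + 1)) := ⟨pow_ne_zero _ hp.ne_zero⟩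
    exact mix_resid _ d F hF Q hQ h

theorem tower {d : ℕ} {X : Type} [MeasurableSpace X] [StandardBorelSpace X] (a : FreeAct d X) :
    Tower a := by
  obtain ⟨K, hK⟩ := cells a
  exact tower_of_cells a K hK

/-- A solution on a set of the filter gives Borel solutions for all free Borel actions. -/
theorem main {d : ℕ} {S : Type} [AddCommGroup S] [Finite S] (L : LCL S) (hL : AffineLCL d L)
    (l : Filter (Om d)) (hl : ∀ p e : ℕ, p.Prime → Good (p ^ (e + 1)) d l) (C : Set (FP d))
    (hCm : MeasurableSet C) (hCi : Inv (fshift d) C) (hCl : Subtype.val '' C ∈ l)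
    (hS : BorelSolOn (fshift d) L C) {X : Type} [MeasurableSpace X] [StandardBorelSpace X]
    (a : FreeAct d X) : BorelSol a L := by
  classical
  obtain ⟨f, hf, hsol⟩ := hS
  rw [sol_iff (fshift d) L C hCi f] at hsol
  obtain ⟨φ, hφ⟩ : ∃ φ : Om d → S, φ = fun x =>
      if h : ∃ hx : x ∈ FP d, (⟨x, hx⟩ : FP d) ∈ C then f ⟨⟨x, h.1⟩, h.2⟩ else 0 := ⟨_, rfl⟩
  have hφ1 : ∀ y : C, φ y.1.1 = f y := by
    intro y
    rw [hφ]
    exact dif_pos ⟨y.1.2, y.2⟩
  have hφ0 : ∀ x, x ∉ Subtype.val '' C → φ x = 0 := by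
    intro x hx
    rw [hφ]
    refine dif_neg ?_
    rintro ⟨h1, h2⟩
    exact hx ⟨⟨x, h1⟩, h2, rfl⟩
  have hCm' : MeasurableSet (Subtype.val '' C : Set (Om d)) := (FP_meas d).subtype_image hCm
  have hφm : Ms φ := by
    intro s
    have h1 : {x | φ x = s} = (Subtype.val '' (Subtype.val '' {y : C | f y = s})) ∪
        ((Subtype.val '' C)ᶜ ∩ {_x : Om d | (0 : S) = s}) := by
      ext x
      simp only [Set.mem_union, Set.mem_inter_iff, Set.mem_compl_iff, Set.mem_ofPred_eq]
      constructor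
      · intro hx
        by_cases h : x ∈ Subtype.val '' C
        · left
          obtain ⟨y, hy, rfl⟩ := h
          refine ⟨y, ⟨⟨y, hy⟩, ?_, rfl⟩, rfl⟩
          have := hφ1 ⟨y, hy⟩
          exact this.symm.trans hx
        · right
          exact ⟨h, (hφ0 x h).symm.trans hx⟩
      · rintro (⟨_, ⟨y, hy, rfl⟩, rfl⟩ | ⟨h, h0⟩)
        · exact (hφ1 y).trans hy
        · rw [hφ0 x h]
          exact h0
    rw [h1]
    refine ((FP_meas d).subtype_image (hCm.subtype_image (hf s))).union (hCm'.compl.inter ?_)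
    exact MeasurableSet.const _
  have hev : ∀ᶠ x in l, (fun b : ball (grid d) L.r 0 => φ (sh b.1 x)) ∈ {w | Allowed d L w} := by
    filter_upwards [hCl] with x hx
    obtain ⟨y, hy, rfl⟩ := hx
    have h1 := hsol ⟨y, hy⟩
    have h2 : (fun b : ball (grid d) L.r 0 => φ (sh b.1 y.1)) =
        fun b : ball (grid d) L.r 0 => f ⟨(fshift d).T b.1 y, hCi b.1 y hy⟩ := by
      funext b
      exact hφ1 ⟨(fshift d).T b.1 y, hCi b.1 y hy⟩
    show Allowed d L _
    rw [h2]
    exact h1
  obtain ⟨ψ, hψ, hψA⟩ := core d l hl a (tower a) (ball (grid d) L.r 0)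
    (ball_grid_finite d L.r) {w | Allowed d L w} (fun u v w hu hv hw => hL u v w hu hv hw)
    φ hφm hev
  exact ⟨ψ, hψ, (sol_iff_univ a L ψ).2 hψA⟩

theorem solOn_univ {d : ℕ} {S : Type} (L : LCL S) (h : BorelSol (fshift d) L) :
    BorelSolOn (fshift d) L Set.univ := by
  obtain ⟨f, hf, hsol⟩ := h
  refine ⟨fun x => f x.1, fun s => ?_, ?_⟩
  · exact measurable_subtype_coe (hf s)
  · rw [sol_iff_univ] at hsol
    rw [sol_iff (fshift d) L Set.univ (fun _ _ _ => trivial)]
    exact fun x => hsol x.1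

theorem bern_of_meas {d : ℕ} {S : Type} (L : LCL S) (h : MeasSol d L) : BernSol d L := by
  have he := MeasurableEmbedding.subtype_coe (FP_meas d)
  obtain ⟨C, hC, hCi, hC0, hs⟩ := h ((bern d).comap Subtype.val) ⟨by
    rw [he.comap_apply, Set.image_univ, Subtype.range_coe_subtype]
    exact (prob_compl_eq_zero_iff (FP_meas d)).1 (bern_FP d)⟩
  refine ⟨C, hC, hCi, ?_, hs⟩
  rw [he.comap_apply] at hC0
  refine measure_mono_null ?_ (measure_union_null hC0 (bern_FP d))
  intro x hx
  by_cases h : x ∈ FP d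
  · left
    exact ⟨⟨x, h⟩, fun hc => hx ⟨⟨x, h⟩, hc, rfl⟩, rfl⟩
  · right
    exact h

/-- MP_eb515b_lc, affine LCL problems. -/
theorem affine_tfae (d : ℕ) {S : Type} [AddCommGroup S] [Finite S] (L : LCL S)
    (hL : AffineLCL d L) :
    List.TFAE [
      ∀ (X : Type) [MeasurableSpace X] [StandardBorelSpace X] (a : FreeAct d X), BorelSol a L,
      BorelSol (fshift d) L,
      MeasSol d L,
      BernSol d L,
      BaireSol d L] := by
  tfae_have 1 → 2 := by
    intro h
    have : StandardBorelSpace (FP d) := (FP_meas d).standardBorel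
    exact h (FP d) (fshift d)
  tfae_have 2 → 3 := by
    intro h μ _
    exact ⟨Set.univ, MeasurableSet.univ, fun _ _ _ => trivial, by simp, solOn_univ L h⟩
  tfae_have 3 → 4 := bern_of_meas L
  tfae_have 4 → 1 := by
    rintro ⟨C, hC, hCi, hC0, hs⟩ X _ _ a
    exact main L hL (ae (bern d)) (fun p e hp => good_bern p e d hp) C hC hCi
      (mem_ae_iff.2 hC0) hs a
  tfae_have 2 → 5 := by
    intro h
    exact ⟨Set.univ, MeasurableSet.univ, fun _ _ _ => trivial, Filter.univ_mem, solOn_univ L h⟩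
  tfae_have 5 → 1 := by
    rintro ⟨C, hC, hCi, hC0, hs⟩ X _ _ a
    exact main L hL (residual (Om d)) (fun p e hp => good_resid p e d hp) C hC hCi
      (resid_sub d C hC0) hs a
  tfae_finish

end EB
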