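import Pool.Agent.Helper27.EB.DefsB

/-!
# EB-33: compactness

Give `S` the discrete topology; `Gd d → S` is compact (`S` is finite).  The sets `K V = {y ∈ Ysub B A | ∀ v ∈ V, y v ∈ E v}` (`V` finite) are closed (conditions on finitely many coordinates: `B` is finite; `isClosed_discrete` preimages, intersections), nonempty and
directed (`K (V ∪ V') ⊆ K V ∩ K V'`), so their intersection is nonempty (`IsCompact.nonempty_iInter_of_directed_nonempty_isCompact_isClosed`).
(Alternatively with an ultrafilter on `Finset (Gd d)` containing all `{V | v ∈ V}`: `y v` = the value taken by `y_V v` for ultrafilter many `V`.)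
-/

set_option autoImplicit false

namespace EB

theorem compact_ext {d : ℕ} {S : Type} [Finite S] (B : Set (Gd d)) (hB : B.Finite)
    (A : Set (B → S)) (E : Gd d → Set S)
    (h : ∀ V : Finset (Gd d), ∃ y ∈ Ysub B A, ∀ v ∈ V, y v ∈ E v) :
    ∃ y ∈ Ysub B A, ∀ v, y v ∈ E v := by
  classical
  let _ : TopologicalSpace S := ⊥
  have : DiscreteTopology S := ⟨rfl⟩
  have : Finite B := hB.to_subtype
  have hY : IsClosed (Ysub B A) := by
    have h1 : Ysub B A = ⋂ v : Gd d, (fun (y : Gd d → S) (b : B) => y (v + b)) ⁻¹' A := by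
      ext y
      simp [Ysub]
    rw [h1]
    refine isClosed_iInter fun v => (isClosed_discrete A).preimage ?_
    exact continuous_pi fun b => continuous_apply (v + (b : Gd d))
  have hE : ∀ V : Finset (Gd d), IsClosed {y : Gd d → S | ∀ v ∈ V, y v ∈ E v} := by
    intro V
    have h1 : {y : Gd d → S | ∀ v ∈ V, y v ∈ E v} =
        ⋂ v ∈ V, (fun y : Gd d → S => y v) ⁻¹' E v := by
      ext y
      simp
    rw [h1]
    refine isClosed_biInter fun v _ => (isClosed_discrete (E v)).preimage ?_
    exact continuous_apply v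
  obtain ⟨y, hy⟩ := IsCompact.nonempty_iInter_of_directed_nonempty_isCompact_isClosed
    (fun V : Finset (Gd d) => Ysub B A ∩ {y : Gd d → S | ∀ v ∈ V, y v ∈ E v})
    (by
      intro V V'
      refine ⟨V ∪ V', fun y hy => ⟨hy.1, fun v hv => hy.2 v (Finset.mem_union_left _ hv)⟩,
        fun y hy => ⟨hy.1, fun v hv => hy.2 v (Finset.mem_union_right _ hv)⟩⟩)
    (fun V => by
      obtain ⟨y, hy1, hy2⟩ := h V
      exact ⟨y, hy1, hy2⟩)
    (fun V => (hY.inter (hE V)).isCompact) (fun V => hY.inter (hE V))
  rw [Set.mem_iInter] at hy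
  exact ⟨y, (hy ∅).1, fun v => (hy {v}).2 v (Finset.mem_singleton_self v)⟩

end EB
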