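import Pool.Agent.Helper27.EB.MixC

/-!
# EB-37: 2-mixing for Baire category

For every `a` such that `{F = a}` is not meagre (`∃ᶠ x in residual, F x = a`) there are a finite window `W_a` and a pattern such that `F x = a` for residually many `x` in the cylinder (`{F = a}` is Borel, so it is equal to an open set modulo a meagre set; see the proof of `mix_resid` in `MixC.lean`, reuse or copy its lemmas).
`M` = twice a bound for the coordinates of all the windows (`S` is finite).  If `¬ nb M g` then `W_a` and `W_b + g` are disjoint, so the open set `U = cyl_a ∩ (sh g)⁻¹ cyl_b` is nonempty; residually many `x ∈ U` satisfy `F x = a` and `F (sh g x) = b` (`resid_inv`).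
If this were not frequent in `residual` then residually many `x` would not satisfy it, contradiction in the Baire space `Om d` (a residual set is dense and meets `U`).
-/

set_option autoImplicit false

namespace EB

open MeasureTheory

private theorem mix2c_bound {d : ℕ} (W : Finset (Gd d)) :
    ∃ M : ℕ, ∀ w ∈ W, ∀ i, |w i| ≤ (M : ℤ) := by
  refine ⟨W.sup fun w => Finset.univ.sup fun i => (w i).natAbs, fun w hw i => ?_⟩
  have h1 : (w i).natAbs ≤ Finset.univ.sup fun i => (w i).natAbs :=
    Finset.le_sup (f := fun i => (w i).natAbs) (Finset.mem_univ i)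
  have h2 : (Finset.univ.sup fun i => (w i).natAbs) ≤
      W.sup fun w => Finset.univ.sup fun i => (w i).natAbs :=
    Finset.le_sup (f := fun w : Gd d => Finset.univ.sup fun i => (w i).natAbs) hw
  have h3 := h1.trans h2
  rw [Int.abs_eq_natAbs]
  exact_mod_cast h3

private theorem mix2c_cont {d : ℕ} (g : Gd d) : Continuous (sh g : Om d → Om d) :=
  continuous_pi fun h => continuous_apply (h + g)

private theorem mix2c_win {d : ℕ} (U : Set (Om d)) (hU : IsOpen U) :
    ∃ (W : Finset (Gd d)) (α : Om d), U.Nonempty →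
      ∀ y : Om d, (∀ w ∈ W, y w = α w) → y ∈ U := by
  by_cases hne : U.Nonempty
  · obtain ⟨α, hα⟩ := hne
    obtain ⟨I, u, h1, h2⟩ := isOpen_pi_iff.1 hU α hα
    refine ⟨I, α, fun _ y hy => h2 fun i hi => ?_⟩
    rw [hy i hi]
    exact (h1 i hi).2
  · exact ⟨∅, fun _ => false, fun h => absurd h hne⟩

theorem mix2_resid (d : ℕ) {S : Type} [Finite S] (F : Om d → S) (hF : Ms F) :
    ∃ M : ℕ, ∀ a b g, ¬ nb M g → (∃ᶠ x in residual (Om d), F x = a) →
      (∃ᶠ x in residual (Om d), F x = b) →
      ∃ᶠ x in residual (Om d), F x = a ∧ F (sh g x) = b := by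
  classical
  cases nonempty_fintype S
  choose U hUo hU using fun a : S => (hF a).residualEq_isOpen
  have hR : ∀ᶠ x in residual (Om d), ∀ a, (F x = a ↔ x ∈ U a) := by
    rw [Filter.eventually_all]
    intro a
    filter_upwards [hU a] with x hx
    exact iff_of_eq hx
  choose W α hW using fun a : S => mix2c_win (U a) (hUo a)
  obtain ⟨M, hM⟩ := mix2c_bound (Finset.univ.biUnion W)
  have hMW : ∀ a, ∀ w ∈ W a, ∀ i, |w i| ≤ (M : ℤ) := fun a w hw =>
    hM w (Finset.mem_biUnion.2 ⟨a, Finset.mem_univ a, hw⟩)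
  refine ⟨2 * M, fun a b g hg ha hb => ?_⟩
  have hne : ∀ c, (∃ᶠ x in residual (Om d), F x = c) → (U c).Nonempty := by
    intro c hc
    obtain ⟨x, hx1, hx2⟩ := (hc.and_eventually hR).exists
    exact ⟨x, (hx2 c).1 hx1⟩
  have hWa := hW a (hne a ha)
  have hWb := hW b (hne b hb)
  obtain ⟨i, hi⟩ : ∃ i, ((2 * M : ℕ) : ℤ) < |g i| := by
    by_contra hcon
    push Not at hcon
    exact hg hcon
  have hdisj : ∀ w' ∈ W b, w' + g ∉ W a := by
    intro w' hw' h
    have h1 := hMW a _ h i
    have h2 := hMW b _ hw' i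
    have h3 : |g i| ≤ |(w' + g) i| + |w' i| := by
      have h4 : g i = (w' + g) i - w' i := by simp
      rw [h4]
      exact abs_sub _ _
    push_cast at hi
    linarith
  -- the open set
  have hO : IsOpen (U a ∩ sh g ⁻¹' U b) := (hUo a).inter ((hUo b).preimage (mix2c_cont g))
  have hOne : (U a ∩ sh g ⁻¹' U b).Nonempty := by
    refine ⟨fun h => if h ∈ W a then α a h else α b (h - g), hWa _ fun w hw => ?_,
      hWb _ fun w' hw' => ?_⟩
    · exact if_pos hw
    · change (if w' + g ∈ W a then α a (w' + g) else α b (w' + g - g)) = α b w'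
      rw [if_neg (hdisj w' hw'), add_sub_cancel_right]
  intro hcon
  have hres : ∀ᶠ x in residual (Om d), ¬ (F x = a ∧ F (sh g x) = b) ∧
      (∀ a, (F x = a ↔ x ∈ U a)) ∧ ∀ a, (F (sh g x) = a ↔ sh g x ∈ U a) := by
    refine Filter.Eventually.and hcon (hR.and ?_)
    exact resid_inv d g _ hR
  obtain ⟨x, hx1, hx2, hx3, hx4⟩ := (dense_of_mem_residual hres).inter_open_nonempty _ hO hOne
  exact hx2 ⟨(hx3 a).2 hx1.1, (hx4 b).2 hx1.2⟩

end EB
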