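import Pool.Agent.Helper27.EB.Defs

/-!
# EB-01: divisibility by `p` in `(Z/p^(e+1))[Z^d]`

All statements are checked coefficient by coefficient (`AddMonoidAlgebra` is a structure with the field `coeff`; `mono g c = single g c`).
* `p_pow_zero`: `(p : R) ^ (e+1) = ((p ^ (e+1) : ℕ) : R) = 0`: the natural number `n` is `single 0 (n : ZMod _)` (`AddMonoidAlgebra.natCast_def` or `map_natCast` of `algebraMap`), and `(p^(e+1) : ZMod (p^(e+1))) = 0`.
* `p_dvd_iff`: `p ∣ a` iff `p ∣ a.coeff g` for all `g` (choose the quotients on the support, `AddMonoidAlgebra.ofCoeff`, `Finsupp.mapRange`/`Finsupp.onFinset`).  The same for `p ^ j` (`p_pow_dvd_iff`).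
* `exists_factor`: let `j` be maximal with `p ^ j ∣ a`; `j ≤ e` because `p ^ (e+1) = 0` and `a ≠ 0` (`Nat.find` for the first `j` with `¬ p ^ (j+1) ∣ a`; `p ^ 0 ∣ a`).  If `p ∣ s` then `p ^ (j+1) ∣ a`.
* `dvd_of_mul_zero`: for one coefficient `c : ZMod (p^(e+1))`: `p^(e+1-j) c = 0` means `p^(e+1) ∣ p^(e+1-j) c.val`, so `p^j ∣ c.val` and `c = p^j (c.val / p^j)`.
* `exists_unit`: `c : ZMod (p^(e+1))` is a unit iff `c.val` is coprime to `p` (`ZMod.isUnit_iff_coprime`); if no coefficient is a unit then `p` divides all of them.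
-/

set_option autoImplicit false

namespace EB

variable (p e d : ℕ) [Fact p.Prime]

private theorem neZ : NeZero (p ^ (e + 1)) :=
  ⟨pow_ne_zero _ (Fact.out : p.Prime).ne_zero⟩

private theorem pow_eq (j : ℕ) : (p : Rr (p ^ (e + 1)) d) ^ j =
    algebraMap (ZMod (p ^ (e + 1))) (Rr (p ^ (e + 1)) d) ((p : ZMod (p ^ (e + 1))) ^ j) := by
  rw [map_pow, map_natCast]

private theorem pow_mul_coeff (j : ℕ) (a : Rr (p ^ (e + 1)) d) (g : Gd d) :
    ((p : Rr (p ^ (e + 1)) d) ^ j * a).coeff g = (p : ZMod (p ^ (e + 1))) ^ j * a.coeff g := by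
  rw [pow_eq, ← Algebra.smul_def, AddMonoidAlgebra.coeff_smul_apply, smul_eq_mul]

theorem p_pow_zero : (p : Rr (p ^ (e + 1)) d) ^ (e + 1) = 0 := by
  rw [pow_eq, ← Nat.cast_pow, ZMod.natCast_self, map_zero]

theorem p_pow_dvd_iff (j : ℕ) (a : Rr (p ^ (e + 1)) d) :
    (p : Rr (p ^ (e + 1)) d) ^ j ∣ a ↔
      ∀ g, ((p : ZMod (p ^ (e + 1))) ^ j) ∣ a.coeff g := by
  classical
  constructor
  · rintro ⟨c, rfl⟩ g
    rw [pow_mul_coeff]
    exact dvd_mul_right _ _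
  · intro h
    choose c hc using h
    let f : Gd d →₀ ZMod (p ^ (e + 1)) := Finsupp.onFinset a.coeff.support
      (fun g => if g ∈ a.coeff.support then c g else 0) (fun g hg => by
        by_contra hn
        simp [hn] at hg)
    refine ⟨AddMonoidAlgebra.ofCoeff f, ?_⟩
    apply AddMonoidAlgebra.coeff_injective
    ext g
    rw [pow_mul_coeff, AddMonoidAlgebra.coeff_ofCoeff]
    change a.coeff g = (p : ZMod (p ^ (e + 1))) ^ j *
      (if g ∈ a.coeff.support then c g else 0)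
    split_ifs with hg
    · exact hc g
    · rw [mul_zero]
      exact Finsupp.notMem_support_iff.1 hg

theorem exists_factor (a : Rr (p ^ (e + 1)) d) (ha : a ≠ 0) :
    ∃ j, j ≤ e ∧ ∃ s : Rr (p ^ (e + 1)) d, ¬ (p : Rr (p ^ (e + 1)) d) ∣ s ∧
      a = (p : Rr (p ^ (e + 1)) d) ^ j * s := by
  classical
  have hP : ∃ j, ¬ (p : Rr (p ^ (e + 1)) d) ^ (j + 1) ∣ a := by
    refine ⟨e, ?_⟩
    rintro ⟨c, hc⟩
    apply ha
    rw [hc, p_pow_zero, zero_mul]
  have h1 := Nat.find_spec hP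
  have h2 : Nat.find hP ≤ e := Nat.find_min' hP (by
    rintro ⟨c, hc⟩
    apply ha
    rw [hc, p_pow_zero, zero_mul])
  have h3 : (p : Rr (p ^ (e + 1)) d) ^ Nat.find hP ∣ a := by
    rcases Nat.eq_zero_or_pos (Nat.find hP) with h0 | h0
    · rw [h0, pow_zero]
      exact one_dvd _
    · have h4 := Nat.find_min hP (m := Nat.find hP - 1) (by omega)
      rw [not_not, Nat.sub_add_cancel h0] at h4
      exact h4
  obtain ⟨s, hs⟩ := h3
  refine ⟨Nat.find hP, h2, s, ?_, hs⟩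
  intro hd
  apply h1
  obtain ⟨c, hc⟩ := hd
  refine ⟨c, hs.trans ?_⟩
  rw [hc, pow_succ (p : Rr (p ^ (e + 1)) d) (Nat.find hP), mul_assoc]

theorem dvd_of_mul_zero (j : ℕ) (hj : j ≤ e + 1) (a : Rr (p ^ (e + 1)) d)
    (h : (p : Rr (p ^ (e + 1)) d) ^ (e + 1 - j) * a = 0) :
    (p : Rr (p ^ (e + 1)) d) ^ j ∣ a := by
  haveI := neZ p e
  rw [p_pow_dvd_iff]
  intro g
  have h1 : (p : ZMod (p ^ (e + 1))) ^ (e + 1 - j) * a.coeff g = 0 := by
    rw [← pow_mul_coeff, h]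
    rfl
  set c := a.coeff g with hc
  have h2 : ((p ^ (e + 1 - j) * c.val : ℕ) : ZMod (p ^ (e + 1))) = 0 := by
    push_cast
    rw [ZMod.natCast_zmod_val]
    exact h1
  rw [ZMod.natCast_eq_zero_iff] at h2
  have hp : 0 < p := (Fact.out : p.Prime).pos
  have h3 : p ^ (e + 1 - j) * p ^ j ∣ p ^ (e + 1 - j) * c.val := by
    rw [← pow_add, Nat.sub_add_cancel hj]
    exact h2
  have h4 : p ^ j ∣ c.val := Nat.dvd_of_mul_dvd_mul_left (pow_pos hp _) h3
  obtain ⟨k, hk⟩ := h4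
  refine ⟨(k : ZMod (p ^ (e + 1))), ?_⟩
  rw [← ZMod.natCast_zmod_val c, hk]
  push_cast
  rfl

theorem exists_unit (a : Rr (p ^ (e + 1)) d) (h : ¬ (p : Rr (p ^ (e + 1)) d) ∣ a) :
    ∃ g, IsUnit (a.coeff g) := by
  haveI := neZ p e
  by_contra hcon
  push Not at hcon
  apply h
  rw [← pow_one (p : Rr (p ^ (e + 1)) d), p_pow_dvd_iff]
  intro g
  rw [pow_one]
  have h1 := hcon g
  set c := a.coeff g with hc
  rw [← ZMod.natCast_zmod_val c, ZMod.isUnit_iff_coprime] at h1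
  have hp : p.Prime := Fact.out
  have h2 : p ∣ c.val := by
    by_contra hn
    apply h1
    apply Nat.Coprime.pow_right
    exact ((Nat.Prime.coprime_iff_not_dvd hp).2 hn).symm
  obtain ⟨k, hk⟩ := h2
  refine ⟨(k : ZMod (p ^ (e + 1))), ?_⟩
  rw [← ZMod.natCast_zmod_val c, hk]
  push_cast
  rfl

end EB
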