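import Pool.Agent.Helper27.EB.CoreE

/-!
# EB-22: all finite abelian groups

`m = Nat.card S`, `m • s = 0` for all `s`.  For every prime factor `p` of `m` let `q_p = p ^ (m.factorization p)` and choose a natural number `E_p` with `E_p ≡ 1` mod `q_p` and `m / q_p ∣ E_p` (Chinese remainder theorem, coprime).  Then `q_p • (E_p • s) = 0` and
`∑_p E_p ≡ 1` mod `m` (modulo every `q_p`; the `q_p` are pairwise coprime with product `m`).  (Alternatively: strong induction on the number of primes, or `Nat.Coprime` splittings `m = q m'` one after the other.)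
`core_E` for every prime factor `p` (`m.factorization p = e + 1`) gives `ψ_p`; `ψ = ∑_p ψ_p` (`Ms.sum`).  For `x` there are `w_p ∈ A` with `ψ_p (a.T b x) = E_p • w_p b`.  Let `w₀ ∈ A` (nonempty by `hev`, `Good.ne`).  `H = {w - w₀ | w ∈ A}` is a subgroup, so
`w₀ + ∑_p E_p • (w_p - w₀) ∈ A`, and this is `∑_p E_p • w_p + (1 - ∑_p E_p) • w₀ = ∑_p E_p • w_p` because `m ∣ 1 - ∑ E_p`.  (If `S` is trivial there are no primes: `ψ = 0` and `w₀ = 0`.)
-/

set_option autoImplicit false

namespace EB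

theorem Aff.add_nsmul {V : Type} [AddCommGroup V] {A : Set V} (hA : Aff A) {w w₀ : V}
    (hw : w ∈ A) (hw₀ : w₀ ∈ A) (n : ℕ) {u : V} (hu : u ∈ A) : u + n • (w - w₀) ∈ A := by
  induction n with
  | zero => simpa using hu
  | succ n ih =>
    have h := hA _ _ _ ih hw₀ hw
    have e : u + n • (w - w₀) - w₀ + w = u + (n + 1) • (w - w₀) := by
      rw [add_smul, one_smul]
      abel
    rwa [e] at h

theorem Aff.add_sum {V : Type} [AddCommGroup V] {A : Set V} (hA : Aff A) {w₀ : V}
    (hw₀ : w₀ ∈ A) (s : Finset ℕ) (E : ℕ → ℕ) (w : ℕ → V) (hw : ∀ p ∈ s, w p ∈ A) :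
    w₀ + ∑ p ∈ s, E p • (w p - w₀) ∈ A := by
  classical
  induction s using Finset.induction_on with
  | empty => simpa using hw₀
  | insert p s hp ih =>
    rw [Finset.sum_insert hp, add_comm (E p • (w p - w₀)), ← add_assoc]
    exact hA.add_nsmul (hw p (Finset.mem_insert_self p s)) hw₀ (E p)
      (ih fun q hq => hw q (Finset.mem_insert_of_mem hq))

theorem core (d : ℕ) (l : Filter (Om d))
    (hl : ∀ p e : ℕ, p.Prime → Good (p ^ (e + 1)) d l) {X : Type} [MeasurableSpace X]
    (a : FreeAct d X) (ht : Tower a) {S : Type} [AddCommGroup S] [Finite S] (B : Set (Gd d))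
    (hB : B.Finite) (A : Set (B → S)) (hA : Aff A) (φ : Om d → S) (hφ : Ms φ)
    (hev : ∀ᶠ x in l, (fun b : B => φ (sh b x)) ∈ A) :
    ∃ ψ : X → S, Ms ψ ∧ ∀ x, (fun b : B => ψ (a.T b x)) ∈ A := by
  classical
  have hm0 : Nat.card S ≠ 0 := Nat.card_pos.ne'
  set m := Nat.card S with hm
  have hcard : ∀ s : S, m • s = 0 := fun s => card_nsmul_eq_zero'
  have hdvd : ∀ (k : ℕ) (s : S), m ∣ k → k • s = 0 := by
    rintro k s ⟨c, rfl⟩
    rw [mul_comm, mul_smul, hcard, smul_zero]
  -- the idempotents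
  have hE : ∀ p ∈ m.primeFactors, ∃ E : ℕ, p ^ (m.factorization p) ∣ ((E : ℤ) - 1).natAbs ∧
      m / p ^ (m.factorization p) ∣ E := by
    intro p hp
    have hpp := Nat.prime_of_mem_primeFactors hp
    have hco : Nat.Coprime (p ^ (m.factorization p)) (m / p ^ (m.factorization p)) :=
      (Nat.coprime_ordCompl hpp hm0).pow_left _
    obtain ⟨E, h1, h2⟩ := Nat.chineseRemainder hco 1 0
    refine ⟨E, ?_, (Nat.modEq_zero_iff_dvd.1 h2)⟩
    have h3 := (Nat.modEq_iff_dvd.1 h1.symm)
    exact Int.natCast_dvd.1 (by simpa using h3)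
  choose! E hE1 hE2 using hE
  have hq : ∀ p ∈ m.primeFactors, ∀ s : S, p ^ (m.factorization p) • (E p • s) = 0 := by
    intro p hp s
    rw [← mul_smul]
    refine hdvd _ _ ?_
    have h := Nat.mul_dvd_mul_left (p ^ (m.factorization p)) (hE2 p hp)
    rwa [Nat.ordProj_mul_ordCompl_eq_self] at h
  have hsum : (m : ℤ) ∣ (∑ p ∈ m.primeFactors, (E p : ℤ)) - 1 := by
    have h1 : ∀ p ∈ m.primeFactors, ((p ^ (m.factorization p) : ℕ) : ℤ) ∣
        (∑ p ∈ m.primeFactors, (E p : ℤ)) - 1 := by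
      intro p hp
      rw [← Finset.add_sum_erase _ _ hp, add_sub_right_comm]
      refine dvd_add (Int.natCast_dvd.2 (hE1 p hp)) (Finset.dvd_sum fun r hr => ?_)
      have hr' := Finset.mem_of_mem_erase hr
      have hne := Finset.ne_of_mem_erase hr
      refine Int.natCast_dvd_natCast.2 (dvd_trans ?_ (hE2 r hr'))
      have hco : Nat.Coprime (p ^ (m.factorization p)) (r ^ (m.factorization r)) :=
        Nat.Coprime.pow _ _ ((Nat.coprime_primes (Nat.prime_of_mem_primeFactors hp)
          (Nat.prime_of_mem_primeFactors hr')).2 hne.symm)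
      have h2 : p ^ (m.factorization p) ∣ r ^ (m.factorization r) * (m / r ^ (m.factorization r)) := by
        rw [Nat.ordProj_mul_ordCompl_eq_self]
        exact Nat.ordProj_dvd m p
      exact hco.dvd_of_dvd_mul_left h2
    have h2 : (∏ p ∈ m.primeFactors, ((p ^ (m.factorization p) : ℕ) : ℤ)) ∣
        (∑ p ∈ m.primeFactors, (E p : ℤ)) - 1 := by
      refine Finset.prod_dvd_of_coprime (fun p hp r hr hne => ?_) h1
      exact Nat.isCoprime_iff_coprime.2 (Nat.Coprime.pow _ _
        ((Nat.coprime_primes (Nat.prime_of_mem_primeFactors hp)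
          (Nat.prime_of_mem_primeFactors hr)).2 hne))
    have h3 : ∏ p ∈ m.primeFactors, p ^ (m.factorization p) = m := Nat.prod_factorization_pow_eq_self hm0
    rw [← Nat.cast_prod, h3] at h2
    exact h2
  -- the parts
  have hpart : ∀ p ∈ m.primeFactors, ∃ ψ : X → S, Ms ψ ∧
      ∀ x, ∃ w ∈ A, ∀ b : B, ψ (a.T b x) = E p • w b := by
    intro p hp
    have hpp := Nat.prime_of_mem_primeFactors hp
    have hpos : 0 < m.factorization p := hpp.factorization_pos_of_dvd hm0
      (Nat.dvd_of_mem_primeFactors hp)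
    obtain ⟨e, he⟩ := Nat.exists_eq_succ_of_ne_zero hpos.ne'
    have : Fact p.Prime := ⟨hpp⟩
    refine core_E p e d l (hl p e hpp) a ht (E p) (fun s => ?_) B hB A hA φ hφ hev
    have := hq p hp s
    rwa [he] at this
  choose! ψ hψ1 hψ2 using hpart
  have := (hl 2 0 Nat.prime_two).ne
  obtain ⟨x₀, hx₀⟩ := hev.exists
  refine ⟨fun x => ∑ p ∈ m.primeFactors, ψ p x, Ms.sum _ hψ1, fun x => ?_⟩
  have hw : ∀ p ∈ m.primeFactors, ∃ w ∈ A, ∀ b : B, ψ p (a.T b x) = E p • w b :=
    fun p hp => hψ2 p hp x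
  choose! w hwA hwb using hw
  have h := hA.add_sum hx₀ m.primeFactors E w hwA
  have e : (fun b : B => ∑ p ∈ m.primeFactors, ψ p (a.T b x)) =
      (fun b : B => φ (sh b x₀)) + ∑ p ∈ m.primeFactors, E p • (w p - fun b : B => φ (sh b x₀)) := by
    funext b
    rw [Pi.add_apply, Finset.sum_apply]
    have h1 : ∀ p ∈ m.primeFactors, (E p • (w p - fun b : B => φ (sh b x₀))) b =
        ψ p (a.T b x) - E p • φ (sh b x₀) := by
      intro p hp
      rw [hwb p hp b, Pi.smul_apply, Pi.sub_apply, smul_sub]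
    rw [Finset.sum_congr rfl h1, Finset.sum_sub_distrib, ← Finset.sum_smul]
    have h2 : (∑ p ∈ m.primeFactors, E p) • φ (sh b x₀) = φ (sh b x₀) := by
      obtain ⟨c, hc⟩ := hsum
      have h3 : ((∑ p ∈ m.primeFactors, E p : ℕ) : ℤ) = 1 + c * m := by
        push_cast
        linear_combination hc
      have h4 : ((∑ p ∈ m.primeFactors, E p : ℕ) : ℤ) • φ (sh b x₀) = φ (sh b x₀) := by
        rw [h3, add_smul, one_smul, mul_smul, natCast_zsmul, hcard, smul_zero, add_zero]
      rwa [natCast_zsmul] at h4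
    rw [h2]
    abel
  rw [e]
  exact h

end EB
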