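import Pool.Agent.Helper27.EB.CoreP

/-!
# EB-21: one primary part

`S' = ` the range of `s ↦ E • s`, a subgroup of `S` which is killed by `q = p^(e+1)`.  It embeds into `Fin k → ZMod q`: `S'` is a `ZMod q`-module (`AddCommGroup.zmodModule`), for every `s ≠ 0` there is a linear functional `F_s : S' → ZMod q` with `F_s s ≠ 0` (`zmod_separate` with `N = ⊥`);
`S'` is finite, `k = Nat.card S'`, `j : S' → (Fin k → ZMod q)` the vector of all `F_s`, injective and additive.
`𝒜' = {fun b => j (E • w b) | w ∈ A}` is `Aff`.  `φ' x = j (E • φ x)` is `Ms` (`Ms.comp`; `S` is finite) and eventually `(φ' (sh b x))_b ∈ 𝒜'`.  `core_p` gives `ψ'`.  For every `x` there is `w ∈ A` with `ψ' (a.T b x) = j (E • w b)` for all `b ∈ B`.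
`ψ x =` the unique `s ∈ S'` with `j s = ψ' x` if there is one (in particular if `x = a.T b y` for some `b ∈ B`), otherwise `0`: `ψ = σ ∘ ψ'` with a function `σ` (`Function.invFun`-like) satisfying `σ (j s) = s`.
-/

set_option autoImplicit false

namespace EB

theorem core_E_embed1 (p e : ℕ) [Fact p.Prime] {M : Type} [AddCommGroup M] [Finite M]
    [Module (ZMod (p ^ (e + 1))) M] :
    ∃ (k : ℕ) (J : M →+ (Fin k → ZMod (p ^ (e + 1)))), Function.Injective J := by
  classical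
  have hF : ∀ s : M, ∃ F : M →+ ZMod (p ^ (e + 1)), s ≠ 0 → F s ≠ 0 := by
    intro s
    by_cases hs : s = 0
    · exact ⟨0, fun h => absurd hs h⟩
    · obtain ⟨F, -, h⟩ := zmod_separate p e (⊥ : Submodule (ZMod (p ^ (e + 1))) M) s (by
        simpa using hs)
      exact ⟨F.toAddMonoidHom, fun _ => h⟩
  choose F hF using hF
  let ε : M ≃ Fin (Nat.card M) := Finite.equivFin M
  refine ⟨Nat.card M, AddMonoidHom.pi fun i => F (ε.symm i), ?_⟩
  intro s t h
  have h1 := congrFun h (ε (s - t))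
  have h2 : F (s - t) s = F (s - t) t := by
    simpa using h1
  by_contra hne
  apply hF _ (sub_ne_zero.2 hne)
  rw [map_sub, h2, sub_self]

/-- A finite group with exponent `q` embeds into a power of `ZMod q`. -/
theorem core_E_embed0 (p e : ℕ) [Fact p.Prime] {M : Type} [AddCommGroup M] [Finite M]
    (hM : ∀ s : M, p ^ (e + 1) • s = 0) :
    ∃ (k : ℕ) (J : M →+ (Fin k → ZMod (p ^ (e + 1)))), Function.Injective J :=
  @core_E_embed1 p e _ M _ _ (AddCommGroup.zmodModule hM)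

/-- The group `E • S` embeds into a power of `ZMod q`. -/
theorem core_E_embed (p e : ℕ) [Fact p.Prime] {S : Type} [AddCommGroup S] [Finite S] (E : ℕ)
    (hE : ∀ s : S, p ^ (e + 1) • (E • s) = 0) :
    ∃ (k : ℕ) (J : S →+ (Fin k → ZMod (p ^ (e + 1)))), ∀ s t, J s = J t → E • s = E • t := by
  obtain ⟨k, J, hJ⟩ := core_E_embed0 p e (M := (nsmulAddMonoidHom E : S →+ S).range) (by
    rintro ⟨x, s, rfl⟩
    exact Subtype.ext (hE s))
  refine ⟨k, J.comp (nsmulAddMonoidHom E : S →+ S).rangeRestrict, fun s t h => ?_⟩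
  exact congrArg Subtype.val (hJ h)

theorem core_E (p e d : ℕ) [Fact p.Prime] (l : Filter (Om d)) (hl : Good (p ^ (e + 1)) d l)
    {X : Type} [MeasurableSpace X] (a : FreeAct d X) (ht : Tower a) {S : Type} [AddCommGroup S]
    [Finite S] (E : ℕ) (hE : ∀ s : S, p ^ (e + 1) • (E • s) = 0) (B : Set (Gd d))
    (hB : B.Finite) (A : Set (B → S)) (hA : Aff A) (φ : Om d → S) (hφ : Ms φ)
    (hev : ∀ᶠ x in l, (fun b : B => φ (sh b x)) ∈ A) :
    ∃ ψ : X → S, Ms ψ ∧ ∀ x, ∃ w ∈ A, ∀ b : B, ψ (a.T b x) = E • w b := by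
  classical
  obtain ⟨k, J, hJ⟩ := core_E_embed p e E hE
  obtain ⟨ψ', hψ', h⟩ := core_p p e d k l hl a ht B hB ((fun w b => J (w b)) '' A)
    (by
      rintro _ _ _ ⟨u, hu, rfl⟩ ⟨v, hv, rfl⟩ ⟨w, hw, rfl⟩
      refine ⟨u - v + w, hA u v w hu hv hw, ?_⟩
      funext b
      simp only [Pi.add_apply, Pi.sub_apply, map_add, map_sub])
    (fun x => J (φ x)) (hφ.comp J)
    (by
      filter_upwards [hev] with x hx
      exact ⟨_, hx, rfl⟩)
  let σ : (Fin k → ZMod (p ^ (e + 1))) → S := fun v =>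
    if h : ∃ s, J s = v then E • h.choose else 0
  have hσ : ∀ s, σ (J s) = E • s := by
    intro s
    have hex : ∃ t, J t = J s := ⟨s, rfl⟩
    show (if h : ∃ t, J t = J s then E • h.choose else 0) = _
    rw [dif_pos hex]
    exact hJ _ _ hex.choose_spec
  have : NeZero (p ^ (e + 1)) := ⟨pow_ne_zero _ (Fact.out : p.Prime).ne_zero⟩
  refine ⟨fun x => σ (ψ' x), hψ'.comp σ, fun x => ?_⟩
  obtain ⟨w, hw, hwx⟩ := h x
  refine ⟨w, hw, fun b => ?_⟩
  have h1 := congrFun hwx b
  show σ (ψ' (a.T b x)) = _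
  rw [← hσ]
  exact congrArg σ h1.symm

end EB
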