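import Pool.Agent.Helper27.EB.Inj

/-!
# EB-19: gluing

`A = ZMod (p^(e+1))`, `R = A[Z^d]`, `T = a.T`, `g n` the maps of the tower.  `e_i = Pi.single i 1 : Fin k → R`.
* For `u : Gd d` the functional `h_u v = y0 (mono (-u) 1 • v) - y0 v` on `Fin k → R` vanishes on `ker D` (`hy`), so there is an `A`-linear `η u : (Fin l → R) → A` with `η u (D v) = h_u v` (define it on the range of `D` and extend by `zmod_extend`;
  `D` is also `A`-linear: `D.restrictScalars`).
* `θ n x i = y0 (mono (-(g n x)) 1 • e_i)`, `u n x = g (n+1) x - g n x`, `β n x j = η (u n x) (mono (-(g n x)) 1 • e_j)`, `(D* β) x i = pr T (D e_i) β x`, `ψ_n = θ n - ∑_{m < n} D* (β m)` (functions `Fin k → X → A`).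
* KEY: let `y : (Fin k → R) → A` be linear and `f x i = y (mono (-(g n x)) 1 • e_i)`.  If `T (g n (T h x)) (T h x) = T (g n x) x` for all `h` in the supports of the `v i` then `pr T v f x = y (mono (-(g n x)) 1 • v)`: by freeness
  `g n (T h x) + h = g n x`, so `mono (-(g n (T h x))) 1 = mono (h - g n x) 1`; `v = ∑_i ∑_h (v i)_h x^h e_i`.  The same with `l` and `η (u n x)` (if also `u n (T h x) = u n x`; `g (n+1) (T h x) + h = g (n+1) x` by the monotonicity of the tower).
* So if the `D e_i`-neighbourhood of `x` is in one class for `n`: `(D* β n) x i = η (u n x) (mono (-(g n x)) 1 • D e_i) = η (u n x) (D (mono (-(g n x)) 1 • e_i)) = h_{u n x} (mono (-(g n x)) 1 • e_i) = θ (n+1) x i - θ n x i`, i.e. `ψ_{n+1} x i = ψ_n x i`.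
* For every `x` and every finite set of `h` all of them are in the class of `x` for large `n` (cofinality and monotonicity).  So `ψ_n x i` is eventually constant; `ψ i x` = the limit; `Ms` (`{x | ψ i x = a} = ⋃_m ⋂_{n ≥ m} {x | ψ_n x i = a}`).
* For `v` with `D v = 0` and `x`: for large `n` `ψ i (T h x) = ψ_n (T h x) i` for all `h` in the supports and `pr T v ψ x = pr T v (θ n) x - ∑_{m<n} pr T v (D* (β m)) x`; `pr T v (θ n) x = y0 (mono (-(g n x)) 1 • v) = y0 v` by KEY and `hy`, and
  `pr T v (D* β) x = pr T (D v) β x = 0` (`pr_smul`, `pr_add`, `D v = ∑_i v i • D e_i`).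
-/

set_option autoImplicit false

namespace EB

theorem glue_expand1 {q d k : ℕ} (L : (Fin k → Rr q d) →ₗ[ZMod q] ZMod q) (i : Fin k)
    (P : Rr q d) : L (Pi.single i P) =
      P.coeff.sum fun h c => c * L ((mono h 1 : Rr q d) • Pi.single i 1) := by
  classical
  induction P using Rr_induction with
  | h0 => simp
  | h1 P Q hP hQ =>
    rw [Pi.single_add, map_add, hP, hQ, AddMonoidAlgebra.coeff_add, Finsupp.sum_add_index']
    · intro g
      ring
    · intro g b c
      ring
  | h2 g c =>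
    have h3 : (mono g c : Rr q d).coeff = Finsupp.single g c := by
      unfold mono
      rw [AddMonoidAlgebra.coeff_single]
    rw [h3, Finsupp.sum_single_index (by ring), ← smul_eq_mul, ← L.map_smul]
    congr 1
    ext1 j
    by_cases hj : j = i
    · subst hj
      rw [Pi.single_eq_same, Pi.smul_apply, Pi.smul_apply, Pi.single_eq_same, smul_eq_mul, mul_one]
      unfold mono
      rw [AddMonoidAlgebra.smul_single, smul_eq_mul, mul_one]
    · rw [Pi.single_eq_of_ne hj, Pi.smul_apply, Pi.smul_apply, Pi.single_eq_of_ne hj, smul_zero,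
        smul_zero]

theorem glue_expand {q d k : ℕ} (L : (Fin k → Rr q d) →ₗ[ZMod q] ZMod q) (v : Fin k → Rr q d) :
    L v = ∑ i, (v i).coeff.sum fun h c => c * L ((mono h 1 : Rr q d) • Pi.single i 1) := by
  classical
  conv_lhs => rw [← Finset.univ_sum_single v]
  rw [map_sum]
  exact Finset.sum_congr rfl fun i _ => glue_expand1 L i (v i)

theorem glue_mono_mul {q d : ℕ} (g h : Gd d) :
    (mono g 1 : Rr q d) * mono h 1 = mono (g + h) 1 := by
  unfold mono
  rw [AddMonoidAlgebra.single_mul_single, mul_one]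

theorem glue_key {q d k : ℕ} {X : Type} (T : Gd d → X → X) (G : X → Gd d)
    (y : X → (Fin k → Rr q d) →ₗ[ZMod q] ZMod q) (v : Fin k → Rr q d) (x : X)
    (hG : ∀ i, ∀ h ∈ (v i).coeff.support, G (T h x) + h = G x)
    (hyx : ∀ i, ∀ h ∈ (v i).coeff.support, y (T h x) = y x) :
    pr T v (fun i z => y z ((mono (-(G z)) 1 : Rr q d) • Pi.single i 1)) x =
      y x ((mono (-(G x)) 1 : Rr q d) • v) := by
  classical
  have h1 := glue_expand ((y x).comp
    (LinearMap.lsmul (Rr q d) (Fin k → Rr q d) (mono (-(G x)) 1) |>.restrictScalars (ZMod q))) v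
  simp only [LinearMap.comp_apply, LinearMap.restrictScalars_apply, LinearMap.lsmul_apply] at h1
  rw [h1]
  unfold pr
  refine Finset.sum_congr rfl fun i _ => ?_
  unfold opf
  refine Finsupp.sum_congr fun h hh => ?_
  beta_reduce
  rw [hyx i h hh, smul_smul, glue_mono_mul]
  have h2 : -(G (T h x)) = -(G x) + h := by
    rw [← hG i h hh]
    abel
  rw [h2]

theorem glue_eta (p e d k l : ℕ) [Fact p.Prime]
    (D : (Fin k → Rr (p ^ (e + 1)) d) →ₗ[Rr (p ^ (e + 1)) d] (Fin l → Rr (p ^ (e + 1)) d))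
    (h : (Fin k → Rr (p ^ (e + 1)) d) →ₗ[ZMod (p ^ (e + 1))] ZMod (p ^ (e + 1)))
    (hh : ∀ v, D v = 0 → h v = 0) :
    ∃ η : (Fin l → Rr (p ^ (e + 1)) d) →ₗ[ZMod (p ^ (e + 1))] ZMod (p ^ (e + 1)),
      ∀ v, η (D v) = h v := by
  let D' := D.restrictScalars (ZMod (p ^ (e + 1)))
  have hle : LinearMap.ker D' ≤ LinearMap.ker h := by
    intro v hv
    rw [LinearMap.mem_ker] at hv ⊢
    exact hh v hv
  let f : LinearMap.range D' →ₗ[ZMod (p ^ (e + 1))] ZMod (p ^ (e + 1)) :=
    ((LinearMap.ker D').liftQ h hle).comp D'.quotKerEquivRange.symm.toLinearMap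
  obtain ⟨F, hF⟩ := zmod_extend p e (LinearMap.range D') f
  refine ⟨F, fun v => ?_⟩
  have h1 := hF ⟨D' v, LinearMap.mem_range_self D' v⟩
  have h2 : f ⟨D' v, LinearMap.mem_range_self D' v⟩ = h v := by
    show (LinearMap.ker D').liftQ h hle (D'.quotKerEquivRange.symm ⟨D' v, _⟩) = h v
    rw [LinearMap.quotKerEquivRange_symm_apply_image, Submodule.mkQ_apply, Submodule.liftQ_apply]
  rw [h2] at h1
  exact h1

theorem glue_opf_sub {q d : ℕ} {X : Type} (T : Gd d → X → X) (P : Rr q d) (F : X → ZMod q)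
    (n : ℕ) (H : ℕ → X → ZMod q) (x : X) :
    opf T P (fun y => F y - ∑ m ∈ Finset.range n, H m y) x =
      opf T P F x - ∑ m ∈ Finset.range n, opf T P (H m) x := by
  unfold opf Finsupp.sum
  rw [Finset.sum_comm, ← Finset.sum_sub_distrib]
  refine Finset.sum_congr rfl fun g _ => ?_
  beta_reduce
  rw [mul_sub, Finset.mul_sum]

theorem glue_pr_zero {q d k : ℕ} {X : Type} (T : Gd d → X → X) (φ : Fin k → X → ZMod q)
    (x : X) : pr T (0 : Fin k → Rr q d) φ x = 0 := by
  unfold pr
  exact Finset.sum_eq_zero fun i _ => opf_zero T (φ i) x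

theorem glue_pr_sum {q d k : ℕ} {X ι : Type} (T : Gd d → X → X) (s : Finset ι)
    (w : ι → Fin k → Rr q d) (φ : Fin k → X → ZMod q) (x : X) :
    pr T (∑ i ∈ s, w i) φ x = ∑ i ∈ s, pr T (w i) φ x := by
  classical
  induction s using Finset.induction_on with
  | empty =>
    rw [Finset.sum_empty, Finset.sum_empty]
    exact glue_pr_zero T φ x
  | insert i s hi ih => rw [Finset.sum_insert hi, Finset.sum_insert hi, pr_add, ih]

/-- `v = 0` under `D` kills the image of the adjoint -/
theorem glue_adj {q d k l : ℕ} {X : Type} {T : Gd d → X → X}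
    (hT : ∀ g h x, T (g + h) x = T g (T h x))
    (D : (Fin k → Rr q d) →ₗ[Rr q d] (Fin l → Rr q d)) (β : Fin l → X → ZMod q)
    (v : Fin k → Rr q d) (hv : D v = 0) (x : X) :
    pr T v (fun i y => pr T (D (Pi.single i 1)) β y) x = 0 := by
  classical
  have h1 : pr T v (fun i y => pr T (D (Pi.single i 1)) β y) x =
      ∑ i, pr T (v i • D (Pi.single i 1)) β x := by
    unfold pr
    refine Finset.sum_congr rfl fun i _ => ?_
    exact (pr_smul hT (v i) (D (Pi.single i 1)) β x).symm
  rw [h1, ← glue_pr_sum]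
  have h2 : ∑ i, v i • D (Pi.single i 1) = D v := by
    conv_rhs => rw [← Finset.univ_sum_single v]
    rw [map_sum]
    refine Finset.sum_congr rfl fun i _ => ?_
    rw [← D.map_smul]
    congr 1
    ext1 j
    by_cases hj : j = i
    · subst hj
      rw [Pi.single_eq_same, Pi.smul_apply, Pi.single_eq_same, smul_eq_mul, mul_one]
    · rw [Pi.single_eq_of_ne hj, Pi.smul_apply, Pi.single_eq_of_ne hj, smul_zero]
  rw [h2, hv]
  exact glue_pr_zero T β x

theorem glue_free {d : ℕ} {X : Type} [MeasurableSpace X] (a : FreeAct d X) (g : X → Gd d)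
    (x : X) (h : Gd d) (hh : a.T (g (a.T h x)) (a.T h x) = a.T (g x) x) :
    g (a.T h x) + h = g x := by
  rw [← a.add] at hh
  have h1 : a.T (g (a.T h x) + h - g x) (a.T (g x) x) = a.T (g x) x := by
    rw [← a.add, sub_add_cancel]
    exact hh
  have h2 := a.free _ _ h1
  exact sub_eq_zero.1 h2

theorem glue (p e d k l : ℕ) [Fact p.Prime] {X : Type} [MeasurableSpace X] (a : FreeAct d X)
    (ht : Tower a)
    (D : (Fin k → Rr (p ^ (e + 1)) d) →ₗ[Rr (p ^ (e + 1)) d] (Fin l → Rr (p ^ (e + 1)) d))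
    (y0 : (Fin k → Rr (p ^ (e + 1)) d) →ₗ[ZMod (p ^ (e + 1))] ZMod (p ^ (e + 1)))
    (hy : ∀ v, D v = 0 → ∀ u : Gd d, y0 ((mono u 1 : Rr (p ^ (e + 1)) d) • v) = y0 v) :
    ∃ ψ : Fin k → X → ZMod (p ^ (e + 1)), (∀ i, Ms (ψ i)) ∧
      ∀ v, D v = 0 → ∀ x, pr a.T v ψ x = y0 v := by
  classical
  obtain ⟨g, hg, hmn, hcf⟩ := ht
  -- the functionals
  have hη : ∀ u : Gd d, ∃ η : (Fin l → Rr (p ^ (e + 1)) d) →ₗ[ZMod (p ^ (e + 1))]
      ZMod (p ^ (e + 1)), ∀ v, η (D v) = y0 ((mono (-u) 1 : Rr (p ^ (e + 1)) d) • v) - y0 v := by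
    intro u
    obtain ⟨η, h1⟩ := glue_eta p e d k l D
      (y0.comp ((LinearMap.lsmul (Rr (p ^ (e + 1)) d) (Fin k → Rr (p ^ (e + 1)) d)
        (mono (-u) 1)).restrictScalars (ZMod (p ^ (e + 1)))) - y0) (by
        intro v hv
        simp only [LinearMap.sub_apply, LinearMap.comp_apply, LinearMap.restrictScalars_apply,
          LinearMap.lsmul_apply]
        rw [hy v hv (-u), sub_self])
    refine ⟨η, fun v => ?_⟩
    rw [h1 v]
    simp only [LinearMap.sub_apply, LinearMap.comp_apply, LinearMap.restrictScalars_apply,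
      LinearMap.lsmul_apply]
  choose η hη using hη
  -- the functions
  let θ : ℕ → Fin k → X → ZMod (p ^ (e + 1)) := fun n i x =>
    y0 ((mono (-(g n x)) 1 : Rr (p ^ (e + 1)) d) • Pi.single i 1)
  let u : ℕ → X → Gd d := fun n x => g (n + 1) x - g n x
  let β : ℕ → Fin l → X → ZMod (p ^ (e + 1)) := fun n j x =>
    η (u n x) ((mono (-(g n x)) 1 : Rr (p ^ (e + 1)) d) • Pi.single j 1)
  let S : ℕ → Fin k → X → ZMod (p ^ (e + 1)) := fun m i x =>
    pr a.T (D (Pi.single i 1)) (β m) x
  let ψs : ℕ → Fin k → X → ZMod (p ^ (e + 1)) := fun n i x =>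
    θ n i x - ∑ m ∈ Finset.range n, S m i x
  -- monotonicity
  have hmono : ∀ (x y : X) (n m : ℕ), n ≤ m → a.T (g n x) x = a.T (g n y) y →
      a.T (g m x) x = a.T (g m y) y := by
    intro x y n m hnm hn
    induction m, hnm using Nat.le_induction with
    | base => exact hn
    | succ m _ ih => exact hmn m x y ih
  -- a finite set is in one class
  have hfin : ∀ (F : Finset (Gd d)) (x : X), ∃ N, ∀ n, N ≤ n → ∀ h ∈ F,
      a.T (g n (a.T h x)) (a.T h x) = a.T (g n x) x := by
    intro F x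
    choose N hN using fun h => hcf x h
    refine ⟨F.sup N, fun n hn h hh => ?_⟩
    exact hmono _ _ (N h) n ((Finset.le_sup hh).trans hn) (hN h)
  -- the step
  have hstep : ∀ (n : ℕ) (i : Fin k) (x : X),
      (∀ j, ∀ h ∈ ((D (Pi.single i 1) : Fin l → Rr (p ^ (e + 1)) d) j).coeff.support,
        a.T (g n (a.T h x)) (a.T h x) = a.T (g n x) x) → ψs (n + 1) i x = ψs n i x := by
    intro n i x hx
    have h1 : S n i x = θ (n + 1) i x - θ n i x := by
      have h2 := glue_key a.T (g n) (fun z => η (u n z)) (D (Pi.single i 1)) x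
        (fun j h hh => glue_free a (g n) x h (hx j h hh))
        (fun j h hh => by
          have h3 := glue_free a (g n) x h (hx j h hh)
          have h4 := glue_free a (g (n + 1)) x h (hmn n _ _ (hx j h hh))
          have h5 : u n (a.T h x) = u n x := by
            show g (n + 1) (a.T h x) - g n (a.T h x) = g (n + 1) x - g n x
            rw [← h3, ← h4]
            abel
          show η (u n (a.T h x)) = η (u n x)
          rw [h5])
      have h6 : S n i x = η (u n x) ((mono (-(g n x)) 1 : Rr (p ^ (e + 1)) d) •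
          D (Pi.single i 1)) := h2
      rw [h6, ← D.map_smul, hη, smul_smul, glue_mono_mul]
      have h7 : -(u n x) + -(g n x) = -(g (n + 1) x) := by
        show -(g (n + 1) x - g n x) + -(g n x) = -(g (n + 1) x)
        abel
      rw [h7]
    show θ (n + 1) i x - ∑ m ∈ Finset.range (n + 1), S m i x =
      θ n i x - ∑ m ∈ Finset.range n, S m i x
    rw [Finset.sum_range_succ, h1]
    ring
  -- eventually constant
  have hev : ∀ (i : Fin k) (x : X), ∃ N, ∀ n, N ≤ n → ψs n i x = ψs N i x := by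
    intro i x
    obtain ⟨N, hN⟩ := hfin (Finset.univ.biUnion fun j =>
      ((D (Pi.single i 1) : Fin l → Rr (p ^ (e + 1)) d) j).coeff.support) x
    refine ⟨N, fun n hn => ?_⟩
    induction n, hn using Nat.le_induction with
    | base => rfl
    | succ n hn ih =>
      rw [hstep n i x fun j h hh => hN n hn h
        (Finset.mem_biUnion.2 ⟨j, Finset.mem_univ j, hh⟩), ih]
  choose N hN using hev
  let ψ : Fin k → X → ZMod (p ^ (e + 1)) := fun i x => ψs (N i x) i x
  have hψ : ∀ i x n, N i x ≤ n → ψ i x = ψs n i x := fun i x n hn => (hN i x n hn).symm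
  -- measurability
  have hms : ∀ n i, Ms (ψs n i) := by
    intro n i
    have h1 : Ms (θ n i) := (hg n).comp fun γ =>
      y0 ((mono (-γ) 1 : Rr (p ^ (e + 1)) d) • Pi.single i 1)
    have h2 : ∀ m j, Ms (β m j) := fun m j => (hg m).map2 (hg (m + 1)) fun γ γ' =>
      η (γ' - γ) ((mono (-γ) 1 : Rr (p ^ (e + 1)) d) • Pi.single j 1)
    have h3 : ∀ m, Ms (S m i) := fun m =>
      Ms.sum Finset.univ fun j _ => opf_Ms a.meas _ (h2 m j)
    exact h1.map2 (Ms.sum (Finset.range n) fun m _ => h3 m) fun s t => s - t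
  refine ⟨ψ, fun i c => ?_, fun v hv x => ?_⟩
  · have h1 : {x | ψ i x = c} = ⋃ m, ⋂ n, {x | m ≤ n → ψs n i x = c} := by
      ext x
      simp only [Set.mem_ofPred_eq, Set.mem_iUnion, Set.mem_iInter]
      constructor
      · intro hx
        refine ⟨N i x, fun n hn => ?_⟩
        rw [← hψ i x n hn, hx]
      · rintro ⟨m, hm⟩
        rw [hψ i x (max (N i x) m) (le_max_left _ _)]
        exact hm _ (le_max_right _ _)
    rw [h1]
    refine MeasurableSet.iUnion fun m => MeasurableSet.iInter fun n => ?_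
    by_cases hmn' : m ≤ n
    · have h2 : {x | m ≤ n → ψs n i x = c} = {x | ψs n i x = c} := by
        ext x
        simp [hmn']
      rw [h2]
      exact hms n i c
    · have h2 : {x : X | m ≤ n → ψs n i x = c} = Set.univ := by
        ext x
        simp [hmn']
      rw [h2]
      exact MeasurableSet.univ
  · obtain ⟨M, hM⟩ := hfin (Finset.univ.biUnion fun i => (v i).coeff.support) x
    have hM' : ∀ n, M ≤ n → ∀ i, ∀ h ∈ (v i).coeff.support,
        a.T (g n (a.T h x)) (a.T h x) = a.T (g n x) x := fun n hn i h hh =>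
      hM n hn h (Finset.mem_biUnion.2 ⟨i, Finset.mem_univ i, hh⟩)
    let n := max M ((Finset.univ.biUnion fun i => (v i).coeff.support).sup fun h =>
      Finset.univ.sup fun i => N i (a.T h x))
    have hn1 : M ≤ n := le_max_left _ _
    have hn2 : ∀ i, ∀ h ∈ (v i).coeff.support, N i (a.T h x) ≤ n := by
      intro i h hh
      refine le_trans ?_ (le_max_right _ _)
      have h1 : N i (a.T h x) ≤ Finset.univ.sup fun i => N i (a.T h x) :=
        Finset.le_sup (f := fun i => N i (a.T h x)) (Finset.mem_univ i)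
      refine h1.trans ?_
      exact Finset.le_sup (f := fun h => Finset.univ.sup fun i => N i (a.T h x))
        (Finset.mem_biUnion.2 ⟨i, Finset.mem_univ i, hh⟩)
    have h1 : pr a.T v ψ x = pr a.T v (ψs n) x := by
      unfold pr
      refine Finset.sum_congr rfl fun i _ => ?_
      unfold opf
      refine Finsupp.sum_congr fun h hh => ?_
      rw [hψ i (a.T h x) n (hn2 i h hh)]
    have h2 : pr a.T v (ψs n) x = pr a.T v (θ n) x -
        ∑ m ∈ Finset.range n, pr a.T v (S m) x := by
      unfold pr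
      rw [Finset.sum_comm, ← Finset.sum_sub_distrib]
      refine Finset.sum_congr rfl fun i _ => ?_
      exact glue_opf_sub a.T (v i) (θ n i) n (fun m => S m i) x
    have h3 : pr a.T v (θ n) x = y0 v := by
      have h4 := glue_key a.T (g n) (fun _ => y0) v x
        (fun i h hh => glue_free a (g n) x h (hM' n hn1 i h hh)) (fun _ _ _ => rfl)
      have h5 : pr a.T v (θ n) x = y0 ((mono (-(g n x)) 1 : Rr (p ^ (e + 1)) d) • v) := h4
      rw [h5, hy v hv]
    rw [h1, h2, h3]
    have h6 : ∑ m ∈ Finset.range n, pr a.T v (S m) x = 0 :=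
      Finset.sum_eq_zero fun m _ => glue_adj a.add D (β m) v hv x
    rw [h6, sub_zero]

end EB
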