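import Pool.Agent.Helper27.EB.Coef

/-!
# EB-03: powers in `(Z/p^(e+1))[Z^d]`

1. `p ∣ P ^ (p ^ n) - expd (p ^ n) P`: in the quotient ring `R / (p)` (characteristic `p`: `add_pow_char_pow`, `CharP`) both sides are additive in `P`, so by `Rr_induction` it is enough to consider
   `P = mono g c`: `(c x^g)^(p^n) = c^(p^n) x^(p^n g)` and `c^(p^n) ≡ c` mod `p` (`ZMod.pow_card_pow`, or `p ∣ (c.val)^p - c.val`).  (Alternatively through `(Z/p)[Z^d]`.)
   `expd m (mono g c) = mono (m • g) c` (`AddMonoidAlgebra.mapDomain_single`).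
2. `dvd_sub_pow_of_dvd_sub`: `p ∣ a - b` implies `p^(e+1) ∣ a^(p^e) - b^(p^e)`, and `p^(e+1) = 0` (`p_pow_zero`); `a = P^(p^n)`, `b = expd (p^n) P`; `expd` is a ring homomorphism.
-/

set_option autoImplicit false

namespace EB

private theorem expd_mono {q d : ℕ} (m : ℕ) (g : Gd d) (c : ZMod q) :
    expd m (mono g c) = mono (m • g) c := by
  unfold expd mono
  simp [AddMonoidAlgebra.mapDomainRingHom_apply]

private theorem mono_pow {q d : ℕ} (m : ℕ) (g : Gd d) (c : ZMod q) :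
    (mono g c) ^ m = mono (m • g) (c ^ m) := by
  unfold mono
  rw [AddMonoidAlgebra.single_pow]

private theorem zmod_dvd (p e n : ℕ) [Fact p.Prime] (c : ZMod (p ^ (e + 1))) :
    (p : ZMod (p ^ (e + 1))) ∣ c ^ (p ^ n) - c := by
  haveI : NeZero (p ^ (e + 1)) := ⟨pow_ne_zero _ (Fact.out : p.Prime).ne_zero⟩
  have h1 : (p : ℤ) ∣ (c.val : ℤ) ^ (p ^ n) - (c.val : ℤ) := by
    rw [← ZMod.intCast_zmod_eq_zero_iff_dvd]
    push_cast
    rw [ZMod.pow_card_pow, sub_self]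
  obtain ⟨k, hk⟩ := h1
  refine ⟨(k : ZMod (p ^ (e + 1))), ?_⟩
  have h2 := congrArg (Int.cast : ℤ → ZMod (p ^ (e + 1))) hk
  push_cast at h2
  rw [ZMod.natCast_zmod_val] at h2
  exact h2

private theorem dvd_frob (p e d n : ℕ) [Fact p.Prime] (P : Rr (p ^ (e + 1)) d) :
    (p : Rr (p ^ (e + 1)) d) ∣ P ^ (p ^ n) - expd (p ^ n) P := by
  have hp : p.Prime := Fact.out
  induction P using Rr_induction with
  | h0 =>
    rw [zero_pow (pow_ne_zero _ hp.ne_zero), map_zero, sub_zero]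
    exact dvd_zero _
  | h1 P Q hP hQ =>
    obtain ⟨r, hr⟩ := exists_add_pow_prime_pow_eq hp P Q n
    rw [hr, map_add]
    have h3 : P ^ p ^ n + Q ^ p ^ n + (p : Rr (p ^ (e + 1)) d) * P * Q * r -
        (expd (p ^ n) P + expd (p ^ n) Q) =
        (P ^ p ^ n - expd (p ^ n) P) + (Q ^ p ^ n - expd (p ^ n) Q) +
          (p : Rr (p ^ (e + 1)) d) * (P * Q * r) := by ring
    rw [h3]
    exact dvd_add (dvd_add hP hQ) (dvd_mul_right _ _)
  | h2 g c =>
    rw [expd_mono, mono_pow]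
    rw [← pow_one (p : Rr (p ^ (e + 1)) d), p_pow_dvd_iff]
    intro g'
    rw [pow_one]
    unfold mono
    rw [AddMonoidAlgebra.coeff_sub, Finsupp.sub_apply, AddMonoidAlgebra.coeff_single,
      AddMonoidAlgebra.coeff_single]
    by_cases h : (p ^ n • g) = g'
    · subst h
      rw [Finsupp.single_eq_same, Finsupp.single_eq_same]
      exact zmod_dvd p e n c
    · rw [Finsupp.single_eq_of_ne (Ne.symm h), Finsupp.single_eq_of_ne (Ne.symm h), sub_self]
      exact dvd_zero _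

theorem frob_pow (p e d n : ℕ) [Fact p.Prime] (P : Rr (p ^ (e + 1)) d) :
    P ^ (p ^ (n + e)) = expd (p ^ n) (P ^ (p ^ e)) := by
  have h1 := dvd_sub_pow_of_dvd_sub (dvd_frob p e d n P) e
  rw [p_pow_zero, zero_dvd_iff, sub_eq_zero] at h1
  have h2 : P ^ (p ^ (n + e)) = (P ^ p ^ n) ^ p ^ e := by
    rw [← pow_mul, ← pow_add p n e]
  rw [h2, h1, map_pow]

end EB
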