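import Pool.Agent.Helper27.EB.PrimeP
import Pool.Agent.Helper27.EB.Frob

/-!
# EB-06: saturation

* `Good.opf_const`: `opf sh Q G x` is a finite sum over the support of `Q` of terms `Q_g * G (sh g x)`; for each `g` the set `{x | G (sh g x) = c}` is the preimage of a set of the filter (`Good.inv`), so eventually
  `opf sh Q G x = Q.coeff.sum fun _ c' => c' * c`.
* `sat`: for every `n`: `P ^ (p^(n+e)) = P ^ (p^(n+e) - 1) * P`, `opf_mul` (`sh_add`), and `Good.opf_const` for `G = opf sh P F`: eventually `opf sh (P ^ (p^(n+e))) F x = c`.  By `frob_pow` the operator is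
  `expd (p ^ n) Q`, `Q = P ^ (p ^ e)`; `p ∤ Q` (`not_dvd_pow`), so `Q` has a unit coefficient (`exists_unit`); `Good.mix` with `m = p ^ n ≥ n ≥ n0` (`Nat.lt_pow_self`).
-/

set_option autoImplicit false

namespace EB

theorem Good.opf_const {q d : ℕ} {l : Filter (Om d)} (hl : Good q d l) (Q : Rr q d)
    {G : Om d → ZMod q} {c : ZMod q} (h : ∀ᶠ x in l, G x = c) :
    ∀ᶠ x in l, opf sh Q G x = Q.coeff.sum fun _ b => b * c := by
  have h1 : ∀ g : Gd d, ∀ᶠ x in l, G (sh g x) = c := fun g => hl.inv g _ h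
  have h2 : ∀ᶠ x in l, ∀ g ∈ Q.coeff.support, G (sh g x) = c := by
    rw [Filter.eventually_all_finset]
    exact fun g _ => h1 g
  filter_upwards [h2] with x hx
  unfold opf
  refine Finset.sum_congr rfl fun g hg => ?_
  show Q.coeff g * G (sh g x) = Q.coeff g * c
  rw [hx g hg]

theorem sat (p e d : ℕ) [Fact p.Prime] (l : Filter (Om d)) (hl : Good (p ^ (e + 1)) d l)
    (F : Om d → ZMod (p ^ (e + 1))) (hF : Ms F) (P : Rr (p ^ (e + 1)) d)
    (hP : ¬ (p : Rr (p ^ (e + 1)) d) ∣ P) (h : ∃ c, ∀ᶠ x in l, opf sh P F x = c) :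
    ∃ c, ∀ᶠ x in l, F x = c := by
  obtain ⟨c, hc⟩ := h
  have hp : p.Prime := Fact.out
  have hu := exists_unit p e d (P ^ (p ^ e)) (not_dvd_pow p e d P hP (p ^ e))
  refine hl.mix F hF (P ^ (p ^ e)) hu fun n => ⟨p ^ n, (Nat.lt_pow_self hp.one_lt).le, ?_⟩
  have h1 : expd (p ^ n) (P ^ (p ^ e)) = P ^ (p ^ (n + e) - 1) * P := by
    rw [← frob_pow p e d n P, pow_sub_one_mul (pow_ne_zero _ hp.ne_zero)]
  rw [h1]
  refine ⟨(P ^ (p ^ (n + e) - 1)).coeff.sum fun _ b => b * c,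
    (hl.opf_const (P ^ (p ^ (n + e) - 1)) hc).mono fun x hx => ?_⟩
  rw [opf_mul (fun g h x => sh_add g h x)]
  exact hx

end EB
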