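import Pool.Agent.Helper27.EB.ExistsD
import Pool.Agent.Helper27.EB.Sat
import Pool.Agent.Helper27.EB.Glue

/-!
# EB-20: affine constraints over `Z/p^(e+1)`

`A = ZMod (p^(e+1))`, `φ_i x = φ x i`.  `N = {v : Fin k → R | ∃ c, ∀ᶠ x in l, pr sh v φ x = c}` is an `R`-submodule (`pr_add`, `pr_smul` with `sh_add`, `Good.opf_const`), saturated (`sat`, `pr_smul`; `pr sh v φ` is `Ms` by `opf_Ms`, `sh_meas`).
The constant `c v` of `v ∈ N` is unique (`Good.ne`), `c` is `A`-linear and `c (mono u 1 • v) = c v` (`Good.opf_const`, `mono`).  `D` from `exists_D`; `y0` extends `c` (`zmod_extend` for the restriction of scalars of `N`).  `ψ'` from `glue`, `ψ x i = ψ' i x`.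
Let `x : X` and `z b = ψ (a.T b x)`; claim `z ∈ 𝒜`.  `𝒜` is nonempty (`hev`, `Good.ne`), `z₀ ∈ 𝒜`, `H = {w - z₀ | w ∈ 𝒜}` is an additive subgroup of `B → Fin k → A` by `Aff`, hence an `A`-submodule (multiples by elements of `ZMod` are natural multiples).  If `z - z₀ ∉ H` then by
`zmod_separate` there is a linear `λ` with `λ = 0` on `H` and `λ (z - z₀) ≠ 0`.  `λ w = ∑_{b,i} λ_{b,i} w b i`; let `v i = ∑_b mono b λ_{b,i}` (`B` is finite).  Then `pr sh v φ x' = λ (fun b => φ (sh b x'))` `= λ z₀` for eventually all `x'`, so `v ∈ N`, `c v = λ z₀`, `D v = 0`,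
and `λ z = pr a.T v ψ' x = y0 v = λ z₀`, contradiction.
-/

set_option autoImplicit false

namespace EB

private theorem mono_zero_smul {q d k : ℕ} (c : ZMod q) (v : Fin k → Rr q d) :
    c • v = (mono 0 c : Rr q d) • v := by
  have h : (mono 0 c : Rr q d) = algebraMap (ZMod q) (Rr q d) c := rfl
  rw [h, algebraMap_smul]

private theorem opf_sum {q d : ℕ} {X ι : Type} (T : Gd d → X → X) (s : Finset ι)
    (P : ι → Rr q d) (F : X → ZMod q) (x : X) :
    opf T (∑ i ∈ s, P i) F x = ∑ i ∈ s, opf T (P i) F x := by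
  classical
  induction s using Finset.induction_on with
  | empty => rw [Finset.sum_empty, Finset.sum_empty, opf_zero]
  | insert i s hi ih => rw [Finset.sum_insert hi, Finset.sum_insert hi, opf_add, ih]

private theorem functional_eq {A B : Type} [CommRing A] [Fintype B] [DecidableEq B] {k : ℕ}
    (F : (B → Fin k → A) →ₗ[A] A) :
    ∃ cf : B → Fin k → A, ∀ w, F w = ∑ i, ∑ b, cf b i * w b i := by
  refine ⟨fun b i => F (Pi.single b fun j => if i = j then 1 else 0), fun w => ?_⟩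
  have h1 : w = ∑ b, Pi.single b (w b) := (Finset.univ_sum_single w).symm
  conv_lhs => rw [h1]
  rw [map_sum, Finset.sum_comm]
  refine Finset.sum_congr rfl fun b _ => ?_
  have h2 := LinearMap.pi_apply_eq_sum_univ (F ∘ₗ LinearMap.single A (fun _ => Fin k → A) b) (w b)
  rw [LinearMap.comp_apply, LinearMap.single_apply] at h2
  rw [h2]
  refine Finset.sum_congr rfl fun i _ => ?_
  rw [LinearMap.comp_apply, LinearMap.single_apply, smul_eq_mul, mul_comm]

theorem core_p (p e d k : ℕ) [Fact p.Prime] (l : Filter (Om d)) (hl : Good (p ^ (e + 1)) d l)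
    {X : Type} [MeasurableSpace X] (a : FreeAct d X) (ht : Tower a) (B : Set (Gd d))
    (hB : B.Finite) (A : Set (B → Fin k → ZMod (p ^ (e + 1)))) (hA : Aff A)
    (φ : Om d → Fin k → ZMod (p ^ (e + 1))) (hφ : Ms φ)
    (hev : ∀ᶠ x in l, (fun b : B => φ (sh b x)) ∈ A) :
    ∃ ψ : X → Fin k → ZMod (p ^ (e + 1)), Ms ψ ∧ ∀ x, (fun b : B => ψ (a.T b x)) ∈ A := by
  classical
  have : NeZero (p ^ (e + 1)) := ⟨pow_ne_zero _ (Fact.out : p.Prime).ne_zero⟩
  have : Fintype B := hB.fintype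
  have hne := hl.ne
  set φi : Fin k → Om d → ZMod (p ^ (e + 1)) := fun i x => φ x i with hφi
  have huniq : ∀ (F : Om d → ZMod (p ^ (e + 1))) (c c' : ZMod (p ^ (e + 1))),
      (∀ᶠ x in l, F x = c) → (∀ᶠ x in l, F x = c') → c = c' := by
    intro F c c' h h'
    obtain ⟨x, hx, hx'⟩ := (h.and h').exists
    rw [← hx, hx']
  let N : Submodule (Rr (p ^ (e + 1)) d) (Fin k → Rr (p ^ (e + 1)) d) :=
    { carrier := {v | ∃ c, ∀ᶠ x in l, pr sh v φi x = c}
      zero_mem' := by
        refine ⟨0, Filter.Eventually.of_forall fun x => ?_⟩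
        unfold pr
        exact Finset.sum_eq_zero fun i _ => opf_zero sh (φi i) x
      add_mem' := by
        rintro v w ⟨c, hc⟩ ⟨c', hc'⟩
        refine ⟨c + c', ?_⟩
        filter_upwards [hc, hc'] with x hx hx'
        rw [pr_add, hx, hx']
      smul_mem' := by
        rintro P v ⟨c, hc⟩
        have h := hl.opf_const P hc
        refine ⟨P.coeff.sum fun _ b => b * c, ?_⟩
        filter_upwards [h] with x hx
        rw [pr_smul sh_add]
        exact hx }
  have hNmem : ∀ v, v ∈ N ↔ ∃ c, ∀ᶠ x in l, pr sh v φi x = c := fun v => Iff.rfl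
  have hMs : ∀ v : Fin k → Rr (p ^ (e + 1)) d, Ms fun x => pr sh v φi x := by
    intro v
    unfold pr
    exact Ms.sum _ fun i _ => opf_Ms sh_meas (v i) (hφ.comp fun s => s i)
  have hsat : ∀ (P : Rr (p ^ (e + 1)) d) (v : Fin k → Rr (p ^ (e + 1)) d),
      ¬ (p : Rr (p ^ (e + 1)) d) ∣ P → P • v ∈ N → v ∈ N := by
    intro P v hP hv
    rw [hNmem] at hv ⊢
    obtain ⟨c, hc⟩ := hv
    refine sat p e d l hl _ (hMs v) P hP ⟨c, ?_⟩
    filter_upwards [hc] with x hx
    rwa [pr_smul sh_add] at hx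
  obtain ⟨l', D, hD⟩ := exists_D p e d k N hsat
  have hcex : ∀ v : (N.restrictScalars (ZMod (p ^ (e + 1)))), ∃ c, ∀ᶠ x in l,
      pr sh (v : Fin k → Rr (p ^ (e + 1)) d) φi x = c := fun v => v.2
  choose c hc using hcex
  let c0 : (N.restrictScalars (ZMod (p ^ (e + 1)))) →ₗ[ZMod (p ^ (e + 1))] ZMod (p ^ (e + 1)) :=
    { toFun := c
      map_add' := by
        intro v w
        refine huniq _ _ _ (hc (v + w)) ?_
        filter_upwards [hc v, hc w] with x hx hx'
        rw [Submodule.coe_add, pr_add, hx, hx']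
      map_smul' := by
        intro r v
        refine huniq _ _ _ (hc (r • v)) ?_
        filter_upwards [hc v] with x hx
        rw [Submodule.coe_smul, mono_zero_smul, pr_smul sh_add, opf_mono, sh_zero, hx]
        rfl }
  obtain ⟨y0, hy0⟩ := zmod_extend p e (N.restrictScalars (ZMod (p ^ (e + 1)))) c0
  have hy0' : ∀ (v : Fin k → Rr (p ^ (e + 1)) d) (b : ZMod (p ^ (e + 1))),
      (∀ᶠ x in l, pr sh v φi x = b) → y0 v = b := by
    intro v b h
    have hv : v ∈ N.restrictScalars (ZMod (p ^ (e + 1))) := ⟨b, h⟩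
    have h1 := hy0 ⟨v, hv⟩
    rw [h1]
    exact huniq _ _ _ (hc ⟨v, hv⟩) h
  obtain ⟨ψ', hψ', hpr⟩ := glue p e d k l' a ht D y0 (by
    intro v hv u
    rw [hD, hNmem] at hv
    obtain ⟨b, hb⟩ := hv
    rw [hy0' v b hb]
    apply hy0'
    have h1 : ∀ᶠ x in l, pr sh v φi (sh u x) = b := hl.inv u _ hb
    filter_upwards [h1] with x hx
    rw [pr_smul sh_add, opf_mono, one_mul]
    exact hx)
  refine ⟨fun x i => ψ' i x, Ms.pi hψ', fun x => ?_⟩
  obtain ⟨x0, hx0⟩ := hev.exists
  set z₀ : B → Fin k → ZMod (p ^ (e + 1)) := fun b : B => φ (sh b x0) with hz₀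
  let H : AddSubgroup (B → Fin k → ZMod (p ^ (e + 1))) :=
    { carrier := {w | w + z₀ ∈ A}
      zero_mem' := by
        change 0 + z₀ ∈ A
        rwa [zero_add]
      add_mem' := by
        intro w w' hw hw'
        change w + z₀ ∈ A at hw
        change w' + z₀ ∈ A at hw'
        change w + w' + z₀ ∈ A
        have h := hA _ _ _ hw hx0 hw'
        rwa [show w + z₀ - z₀ + (w' + z₀) = w + w' + z₀ by abel] at h
      neg_mem' := by
        intro w hw
        change w + z₀ ∈ A at hw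
        change -w + z₀ ∈ A
        have h := hA _ _ _ hx0 hw hx0
        rwa [show z₀ - (w + z₀) + z₀ = -w + z₀ by abel] at h }
  have hHmem : ∀ w, w ∈ AddSubgroup.toZModSubmodule (p ^ (e + 1)) H ↔ w + z₀ ∈ A :=
    fun w => Iff.rfl
  by_contra hcon
  obtain ⟨F, hF0, hF1⟩ := zmod_separate p e (AddSubgroup.toZModSubmodule (p ^ (e + 1)) H)
    ((fun b : B => fun i => ψ' i (a.T b x)) - z₀) (by
      rw [hHmem, sub_add_cancel]
      exact hcon)
  obtain ⟨cf, hcf⟩ := functional_eq F
  set v : Fin k → Rr (p ^ (e + 1)) d := fun i => ∑ b : B, mono (b : Gd d) (cf b i) with hv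
  have hprv : ∀ {Y : Type} (T : Gd d → Y → Y) (f : Fin k → Y → ZMod (p ^ (e + 1))) (y : Y),
      pr T v f y = F fun b i => f i (T b y) := by
    intro Y T f y
    rw [hcf]
    unfold pr
    refine Finset.sum_congr rfl fun i _ => ?_
    rw [hv]
    dsimp only
    rw [opf_sum]
    exact Finset.sum_congr rfl fun b _ => opf_mono T _ _ _ _
  have hev2 : ∀ᶠ x' in l, pr sh v φi x' = F z₀ := by
    filter_upwards [hev] with x' hx'
    rw [hprv]
    have h1 : (fun b : B => φ (sh b x')) - z₀ ∈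
        AddSubgroup.toZModSubmodule (p ^ (e + 1)) H := by
      rw [hHmem, sub_add_cancel]
      exact hx'
    have h2 := hF0 _ h1
    rw [map_sub, sub_eq_zero] at h2
    exact h2
  have hvN : v ∈ N := ⟨_, hev2⟩
  have h3 := hpr v ((hD v).2 hvN) x
  rw [hy0' v _ hev2, hprv] at h3
  apply hF1
  rw [map_sub, sub_eq_zero]
  exact h3

end EB
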