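import Pool.Agent.Helper27.EB.Defs

/-!
# EB-07: approximation by cylinder functions

1. Sets: the sets `E` such that for every `ε > 0` there are a finite `W` and a measurable set `E'` depending only on the coordinates in `W` (`x ∈ E' ↔ y ∈ E'` if `x = y` on `W`) with `μ (symmDiff E E') ≤ ε`
   form a σ-algebra (complement: clear; countable union: `⋃ E_n` is close to a finite union `⋃_{n < M} E_n` (continuity of the measure), approximate `E_n` with `ε / (2 M)`) which contains the sets `{x | x w = b}`;
   use `MeasurableSpace.generateFrom` induction (the σ-algebra of the product is generated by the coordinates, `MeasurableSpace.pi = ⨆ comap`, or `generateFrom_induction`), or `MeasurableSet` approximation theorems of Mathlib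
   (`MeasureTheory.exists_measure_symmDiff_lt_of_generateFrom_isSetRing` or similar, for the ring of cylinders `measurableCylinders`).
2. Functions: `S` finite (nonempty, because `Om d` is nonempty: `F (fun _ => false)`).  For each `s` let `E'_s` approximate `{F = s}` with `ε / card S`; `F' x =` a chosen `s` with `x ∈ E'_s` if there is exactly one such `s`, and a fixed value otherwise.
   If `F x ≠ F' x` then `x` is in one of the symmetric differences.  `W` is the union of the windows, and `F'` depends only on it, `Ms F'` because finitely many measurable sets are involved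
   (a function which depends on finitely many coordinates is automatically `Ms`).
-/

set_option autoImplicit false

namespace EB

open MeasureTheory

private theorem cyl_set (d : ℕ) (μ : Measure (Om d)) [IsProbabilityMeasure μ] {E : Set (Om d)}
    (hE : MeasurableSet E) {ε : ENNReal} (hε : 0 < ε) :
    ∃ (W : Finset (Gd d)) (E' : Set (Om d)), MeasurableSet E' ∧
      (∀ x y : Om d, (∀ w ∈ W, x w = y w) → (x ∈ E' ↔ y ∈ E')) ∧ μ (symmDiff E' E) < ε := by
  obtain ⟨t, ht, hlt⟩ := exists_measure_symmDiff_lt_of_generateFrom_isSetRing (μ := μ)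
    (C := measurableCylinders fun _ : Gd d => Bool) isSetRing_measurableCylinders
    ⟨{Set.univ}, Set.countable_singleton _, by
      rintro s hs
      rw [Set.mem_singleton_iff] at hs
      rw [hs]
      exact univ_mem_measurableCylinders _, by simp⟩ generateFrom_measurableCylinders.symm hE hε
  obtain ⟨W, T, hT, rfl⟩ := (mem_measurableCylinders _).1 ht
  refine ⟨W, cylinder W T, hT.cylinder W, fun x y hxy => ?_, hlt⟩
  rw [mem_cylinder, mem_cylinder]
  have h1 : W.restrict x = W.restrict y := by
    funext w
    exact hxy w.1 w.2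
  rw [h1]

theorem cyl_approx (d : ℕ) (μ : Measure (Om d)) [IsProbabilityMeasure μ] {S : Type} [Finite S]
    (F : Om d → S) (hF : Ms F) (ε : ENNReal) (hε : 0 < ε) :
    ∃ (W : Finset (Gd d)) (F' : Om d → S), Ms F' ∧
      (∀ x y : Om d, (∀ w ∈ W, x w = y w) → F' x = F' y) ∧ μ {x | F x ≠ F' x} ≤ ε := by
  classical
  cases nonempty_fintype S
  have hc : 0 < ε / (Fintype.card S : ENNReal) :=
    ENNReal.div_pos hε.ne' (ENNReal.natCast_ne_top _)
  choose W E' hE' hdep hsm using fun s : S => cyl_set d μ (hF s) hc
  let G : (S → Prop) → S := fun p => if h : ∃ s, p s ∧ ∀ s', p s' → s' = s then h.choose else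
    F fun _ => false
  refine ⟨Finset.univ.biUnion W, fun x => G fun s => x ∈ E' s, ?_, ?_, ?_⟩
  · refine Ms.comp (S := S → Prop) (f := fun x s => x ∈ E' s) (Ms.pi fun s => ?_) G
    intro q
    by_cases hq : q
    · have h1 : {x | (x ∈ E' s) = q} = E' s := by
        ext x
        simp [hq]
      rw [h1]
      exact hE' s
    · have h1 : {x | (x ∈ E' s) = q} = (E' s)ᶜ := by
        ext x
        simp [hq]
      rw [h1]
      exact (hE' s).compl
  · intro x y hxy
    have h1 : (fun s => x ∈ E' s) = fun s => y ∈ E' s := by
      funext s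
      exact propext (hdep s x y fun w hw => hxy w (Finset.mem_biUnion.2 ⟨s, Finset.mem_univ s, hw⟩))
    show G (fun s => x ∈ E' s) = G fun s => y ∈ E' s
    rw [h1]
  · have hsub : {x | F x ≠ G fun s => x ∈ E' s} ⊆ ⋃ s, symmDiff (E' s) {x | F x = s} := by
      intro x hx
      by_contra hcon
      apply hx
      have h1 : ∀ s, x ∈ E' s ↔ F x = s := by
        intro s
        have h2 : x ∉ symmDiff (E' s) {x | F x = s} := fun h => hcon (Set.mem_iUnion.2 ⟨s, h⟩)
        rw [Set.mem_symmDiff] at h2
        simp only [Set.mem_ofPred_eq] at h2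
        tauto
      have h3 : ∃ s, x ∈ E' s ∧ ∀ s', x ∈ E' s' → s' = s :=
        ⟨F x, (h1 _).2 rfl, fun s' hs' => ((h1 s').1 hs').symm⟩
      show F x = G fun s => x ∈ E' s
      simp only [G]
      rw [dif_pos h3]
      exact (h1 _).1 h3.choose_spec.1
    calc μ {x | F x ≠ G fun s => x ∈ E' s} ≤ μ (⋃ s, symmDiff (E' s) {x | F x = s}) :=
          measure_mono hsub
      _ ≤ ∑ s, μ (symmDiff (E' s) {x | F x = s}) := measure_iUnion_fintype_le μ _
      _ ≤ ∑ _s : S, ε / (Fintype.card S : ENNReal) := Finset.sum_le_sum fun s _ => (hsm s).le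
      _ = Fintype.card S * (ε / Fintype.card S) := by
          rw [Finset.sum_const, Finset.card_univ, nsmul_eq_mul]
      _ ≤ ε := ENNReal.mul_div_le

end EB
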