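import Pool.Agent.Helper27.EB.Defs

/-!
# Project EB, part B: LCL problems with a majority polymorphism
-/

set_option autoImplicit false

namespace EB

/-- The set is closed under the pointwise operation `m`. -/
def MClosed {ι S : Type} (m : S → S → S → S) (Y : Set (ι → S)) : Prop :=
  ∀ u v w, u ∈ Y → v ∈ Y → w ∈ Y → (fun i => m (u i) (v i) (w i)) ∈ Y

/-- `C` absorbs `D`. -/
def Absorb {S : Type} (m : S → S → S → S) (D C : Set S) : Prop :=
  C ⊆ D ∧ ∀ s ∈ C, ∀ t ∈ C, ∀ u ∈ D, m s t u ∈ C ∧ m s u t ∈ C ∧ m u s t ∈ C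

/-- The configurations all of whose `B`-patterns are in `A`. -/
def Ysub {d : ℕ} {S : Type} (B : Set (Gd d)) (A : Set (B → S)) : Set (Gd d → S) :=
  {y | ∀ v, (fun b : B => y (v + b)) ∈ A}

end EB
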