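import Pool.Agent.Helper27.EB.Coef

/-!
# EB-04: saturated submodules are kernels

Claim for every finite set `J` of coordinates and every saturated `N ≤ (Fin k → R)` whose elements vanish outside `J`: there are `l` and an `R`-linear `D : (Fin k → R) → (Fin l → R)` with
`D w = 0 ↔ w ∈ N` for all `w` which vanish outside `J`.  (Then `J = univ`.)  Induction on `J.card`.
* If `N = ⊥` (in particular `J = ∅`): `D = id`.
* Otherwise consider all `(j, i, v, s)` with `v ∈ N`, `i ∈ J`, `v i = p ^ j * s`, `¬ p ∣ s` (`exists_factor`: every nonzero coordinate has this form with `j ≤ e`) and choose one with `j` minimal; `i₀ = i`.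
  Then `p ^ j ∣ w i'` for all `w ∈ N`, `i'` (by minimality; coordinates `0` are trivial), in particular `v = p ^ j • v'` with `v' i₀ = s` and `v'` zero outside `J` (choose quotients coordinatewise, `v' i₀ = s`).
  `E w = s • w - w i₀ • v'` is `R`-linear, `(E w) i₀ = 0`, `E w` vanishes outside `J \ {i₀}` for `w` vanishing outside `J`.
  `N₁ = {w ∈ N | w i₀ = 0}` is saturated and vanishes outside `J \ {i₀}`: `D₁` by induction.
  `D w = Fin.cons (p ^ (e+1-j) * w i₀) (D₁ (E w))` (or use a product type and `LinearEquiv`).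
  - `w ∈ N`: `w i₀ = p ^ j * a`, `E w = s • w - (a * p ^ j) • v' = s • w - a • v ∈ N`, so `E w ∈ N₁`; and `p ^ (e+1-j) * w i₀ = p ^ (e+1) * a = 0` (`p_pow_zero`).
  - `D w = 0`: `w i₀ = p ^ j * a` by `dvd_of_mul_zero`, `s • w = E w + w i₀ • v' = E w + a • v ∈ N`, so `w ∈ N` by saturation.
-/

set_option autoImplicit false

namespace EB

private theorem exists_D_core {R : Type*} [CommRing R] (q : R) (e k : ℕ) (hA : q ^ (e + 1) = 0)
    (hB : ∀ a : R, a ≠ 0 → ∃ j, j ≤ e ∧ ∃ s : R, ¬ q ∣ s ∧ a = q ^ j * s)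
    (hC : ∀ j, j ≤ e + 1 → ∀ a : R, q ^ (e + 1 - j) * a = 0 → q ^ j ∣ a) (n : ℕ) :
    ∀ J : Finset (Fin k), J.card = n → ∀ N : Submodule R (Fin k → R),
      (∀ w ∈ N, ∀ i, i ∉ J → w i = 0) →
      (∀ (P : R) (w : Fin k → R), ¬ q ∣ P → (∀ i, i ∉ J → w i = 0) → P • w ∈ N → w ∈ N) →
      ∃ (l : ℕ) (D : (Fin k → R) →ₗ[R] (Fin l → R)),
        ∀ w, (∀ i, i ∉ J → w i = 0) → (D w = 0 ↔ w ∈ N) := by
  classical
  induction n with
  | zero =>
    intro J hJ N hN _
    rw [Finset.card_eq_zero] at hJ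
    subst hJ
    refine ⟨k, LinearMap.id, fun w hw => ?_⟩
    have h0 : w = 0 := funext fun i => hw i (Finset.notMem_empty i)
    rw [h0]
    simp
  | succ n ih =>
    intro J hJ N hN hsat
    by_cases hbot : ∀ w ∈ N, w = 0
    · refine ⟨k, LinearMap.id, fun w _ => ?_⟩
      rw [LinearMap.id_apply]
      constructor
      · rintro rfl
        exact N.zero_mem
      · exact hbot w
    push Not at hbot
    obtain ⟨v₀, hv₀, hne⟩ := hbot
    obtain ⟨i₁, hi₁⟩ : ∃ i, v₀ i ≠ 0 := by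
      by_contra h
      push Not at h
      exact hne (funext h)
    obtain ⟨j₁, hj₁, s₁, hs₁, hvs₁⟩ := hB _ hi₁
    have hex : ∃ j, ∃ v ∈ N, ∃ i, ∃ s : R, ¬ q ∣ s ∧ v i = q ^ j * s :=
      ⟨j₁, v₀, hv₀, i₁, s₁, hs₁, hvs₁⟩
    obtain ⟨j, hj, hmin⟩ : ∃ j, (∃ v ∈ N, ∃ i, ∃ s : R, ¬ q ∣ s ∧ v i = q ^ j * s) ∧
        ∀ j', (∃ v ∈ N, ∃ i, ∃ s : R, ¬ q ∣ s ∧ v i = q ^ j' * s) → j ≤ j' :=
      ⟨Nat.find hex, Nat.find_spec hex, fun j' h => Nat.find_min' hex h⟩
    have hje : j ≤ e := (hmin j₁ ⟨v₀, hv₀, i₁, s₁, hs₁, hvs₁⟩).trans hj₁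
    obtain ⟨v, hv, i₀, s, hs, hvs⟩ := hj
    have hdiv : ∀ w ∈ N, ∀ i, q ^ j ∣ w i := by
      intro w hw i
      by_cases h0 : w i = 0
      · rw [h0]
        exact dvd_zero _
      · obtain ⟨j', -, s', hs', hws⟩ := hB _ h0
        rw [hws]
        exact (pow_dvd_pow q (hmin j' ⟨w, hw, i, s', hs', hws⟩)).mul_right _
    by_cases hi₀ : i₀ ∈ J
    swap
    · exfalso
      -- then `q ^ j * s = 0`, so `q ∣ s`
      have h1 := hN v hv i₀ hi₀
      rw [hvs] at h1
      have h2 : q ^ (e + 1 - (e + 1 - j)) * s = 0 := by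
        rw [Nat.sub_sub_self (by omega)]
        exact h1
      have h3 := hC (e + 1 - j) (by omega) s h2
      exact hs ((dvd_pow_self q (by omega)).trans h3)
    obtain ⟨v', hv'0, hv'J, hv'⟩ : ∃ v' : Fin k → R, v' i₀ = s ∧ (∀ i, i ∉ J → v' i = 0) ∧
        ∀ i, q ^ j * v' i = v i := by
      choose c hc using hdiv v hv
      refine ⟨fun i => if i = i₀ then s else if i ∈ J then c i else 0, ?_, ?_, ?_⟩
      · simp
      · intro i hi
        have h1 : i ≠ i₀ := fun h => hi (h ▸ hi₀)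
        simp [h1, hi]
      · intro i
        by_cases h1 : i = i₀
        · subst h1
          simp [hvs]
        · by_cases h2 : i ∈ J
          · simp only [h1, if_false, h2, if_true]
            exact (hc i).symm
          · simp only [h1, if_false, h2]
            rw [mul_zero, hN v hv i h2]
    have hvv : q ^ j • v' = v := funext fun i => hv' i
    obtain ⟨E, hE⟩ : ∃ E : (Fin k → R) →ₗ[R] (Fin k → R), ∀ w, E w = s • w - w i₀ • v' :=
      ⟨s • LinearMap.id - (LinearMap.proj i₀).smulRight v', fun w => by simp⟩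
    have hE0 : ∀ w, E w i₀ = 0 := by
      intro w
      rw [hE, Pi.sub_apply, Pi.smul_apply, Pi.smul_apply, hv'0, smul_eq_mul, smul_eq_mul]
      ring
    have hEJ : ∀ w, (∀ i, i ∉ J → w i = 0) → ∀ i, i ∉ J.erase i₀ → E w i = 0 := by
      intro w hw i hi
      by_cases h1 : i = i₀
      · rw [h1]
        exact hE0 w
      · have h2 : i ∉ J := fun h => hi (Finset.mem_erase.2 ⟨h1, h⟩)
        rw [hE, Pi.sub_apply, Pi.smul_apply, Pi.smul_apply, hw i h2, hv'J i h2]
        simp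
    obtain ⟨l₁, D₁, hD₁⟩ := ih (J.erase i₀) (by rw [Finset.card_erase_of_mem hi₀, hJ]; rfl)
      (N ⊓ LinearMap.ker (LinearMap.proj i₀ : (Fin k → R) →ₗ[R] R)) (by
        rintro w ⟨hw, hw0⟩ i hi
        by_cases h1 : i = i₀
        · rw [h1]
          exact hw0
        · exact hN w hw i fun h => hi (Finset.mem_erase.2 ⟨h1, h⟩)) (by
        intro P w hP hw hPw
        refine ⟨hsat P w hP (fun i hi => hw i fun h => hi (Finset.mem_of_mem_erase h)) hPw.1, ?_⟩
        exact hw i₀ (Finset.notMem_erase i₀ J))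
    refine ⟨l₁ + 1, LinearMap.pi (Fin.cons (q ^ (e + 1 - j) • LinearMap.proj i₀)
      fun i => (LinearMap.proj i).comp (D₁.comp E)), fun w hw => ?_⟩
    have hcons : (LinearMap.pi (Fin.cons (q ^ (e + 1 - j) • LinearMap.proj i₀)
        fun i => (LinearMap.proj i).comp (D₁.comp E)) : (Fin k → R) →ₗ[R] (Fin (l₁ + 1) → R)) w = 0 ↔
        q ^ (e + 1 - j) * w i₀ = 0 ∧ D₁ (E w) = 0 := by
      rw [funext_iff, Fin.forall_fin_succ, funext_iff]
      simp [LinearMap.pi_apply]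
    rw [hcons, hD₁ (E w) (hEJ w hw)]
    constructor
    · rintro ⟨h1, h2, -⟩
      obtain ⟨a, ha⟩ := hC j (by omega) _ h1
      have h3 : s • w = E w + a • v := by
        rw [hE, ← hvv, ha, smul_smul, mul_comm a]
        abel
      refine hsat s w hs hw ?_
      rw [h3]
      exact N.add_mem h2 (N.smul_mem a hv)
    · intro hwN
      obtain ⟨a, ha⟩ := hdiv w hwN i₀
      refine ⟨?_, ?_, hE0 w⟩
      · rw [ha, ← mul_assoc, ← pow_add, Nat.sub_add_cancel (by omega), hA, zero_mul]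
      · have h3 : E w = s • w - a • v := by
          rw [hE, ← hvv, ha, smul_smul, mul_comm a]
        change E w ∈ N
        rw [h3]
        exact N.sub_mem (N.smul_mem s hwN) (N.smul_mem a hv)

theorem exists_D (p e d k : ℕ) [Fact p.Prime]
    (N : Submodule (Rr (p ^ (e + 1)) d) (Fin k → Rr (p ^ (e + 1)) d))
    (hN : ∀ (P : Rr (p ^ (e + 1)) d) (v : Fin k → Rr (p ^ (e + 1)) d),
      ¬ (p : Rr (p ^ (e + 1)) d) ∣ P → P • v ∈ N → v ∈ N) :
    ∃ (l : ℕ) (D : (Fin k → Rr (p ^ (e + 1)) d) →ₗ[Rr (p ^ (e + 1)) d]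
      (Fin l → Rr (p ^ (e + 1)) d)), ∀ v, D v = 0 ↔ v ∈ N := by
  obtain ⟨l, D, hD⟩ := exists_D_core (p : Rr (p ^ (e + 1)) d) e k (p_pow_zero p e d)
    (exists_factor p e d) (dvd_of_mul_zero p e d) _ Finset.univ rfl N
    (fun w _ i hi => absurd (Finset.mem_univ i) hi) (fun P w hP _ hPw => hN P w hP hPw)
  exact ⟨l, D, fun v => hD v fun i hi => absurd (Finset.mem_univ i) hi⟩

end EB
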