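import Pool.Agent.Helper27.EB.PosCone

/-!
# EB-34: walks of absorbing sets

`C + g := {y g | y ∈ Y, y 0 ∈ C}` for `C ⊆ D`.
* If `Absorb m D C` then `Absorb m D (C + g)`: for `s = y g`, `t = y' g` and `u ∈ D` there is `z ∈ Y` with `z g = u` (`hsur` and a shift by `-g`); `m y y' z ∈ Y` has the value `m (y 0) (y' 0) (z 0) ∈ C` at `0` and `m s t u` at `g`.  The same for the other two positions.
* (1) If `y ∈ Y`, `y v ∈ C` then `y (v + g) ∈ C + g` (shift).
* `P` the positive cone of `exists_cone`.  CLAIM: there is `C` with `Absorb m D C`, `C` nonempty, `C ≠ D`, and `C + g = D` for all `g` with `P g`.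
  Otherwise: start with `C 0 = {a}` (`Absorb` by the majority law; `≠ D` because of `b`), and choose for every nonempty proper absorbing `C` some `g` with `P g` and `C + g ≠ D`; `C (n+1) = C n + g n` (nonempty, proper, absorbing; nonempty: `hsur`).
  `Set S` is finite, so `C i = C j` for some `i < j` (pigeonhole, `Finite.exists_ne_map_eq_of_infinite`); `u = ∑_{i ≤ n < j} g n`, `P u`, so `u ≠ 0`.  By (1): `y v ∈ C i` implies `y (v + u) ∈ C i` for all `v`, hence `y (v + k • u) ∈ C i` for all `k`.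
  For large `k` not `nb M (k • u)` (a coordinate of `u` is not `0`).  Let `c ∈ C i` and `b' ∈ D \ C i`: by `hfar` there is `y ∈ Y` with `y 0 = c`, `y (k • u) = b'`, contradiction.
* With this `C`: let `u, v` be given.  `u = v`: `hsur` and a shift.  Otherwise `P (v - u)` or `P (u - v)`; by symmetry the first: `C + (v - u) = D ⊇ C`, so there is `y ∈ Y` with `y 0 ∈ C` and `y (v - u) ∈ C`; shift by `-u`.
-/

set_option autoImplicit false

namespace EB

private def w34 {d : ℕ} {S : Type} (Y : Set (Gd d → S)) (C : Set S) (g : Gd d) : Set S :=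
  {s | ∃ y ∈ Y, y 0 ∈ C ∧ y g = s}

private lemma w34_absorb {d : ℕ} {S : Type} {m : S → S → S → S} {Y : Set (Gd d → S)}
    (hY : MClosed m Y) (hsh : ∀ y ∈ Y, ∀ g, (fun v => y (v + g)) ∈ Y) {D : Set S}
    (hD : ∀ y ∈ Y, ∀ v, y v ∈ D) (hsur : ∀ a ∈ D, ∃ y ∈ Y, y 0 = a) {C : Set S}
    (hC : Absorb m D C) (g : Gd d) : Absorb m D (w34 Y C g) := by
  refine ⟨?_, ?_⟩
  · rintro s ⟨y, hy, -, rfl⟩
    exact hD y hy g
  · rintro s ⟨y, hy, hy0, rfl⟩ t ⟨y', hy', hy0', rfl⟩ u hu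
    obtain ⟨z, hz, hz0⟩ := hsur u hu
    have hz' := hsh z hz (-g)
    have hzg : (fun v => z (v + -g)) g = u := by
      show z (g + -g) = u
      rw [add_neg_cancel, hz0]
    have hz0D : (fun v => z (v + -g)) 0 ∈ D := hD _ hz' 0
    obtain ⟨h1, h2, h3⟩ := hC.2 _ hy0 _ hy0' _ hz0D
    refine ⟨⟨_, hY _ _ _ hy hy' hz', h1, ?_⟩, ⟨_, hY _ _ _ hy hz' hy', h2, ?_⟩,
      ⟨_, hY _ _ _ hz' hy hy', h3, ?_⟩⟩
    · show m (y g) (y' g) ((fun v => z (v + -g)) g) = m (y g) (y' g) u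
      rw [hzg]
    · show m (y g) ((fun v => z (v + -g)) g) (y' g) = m (y g) u (y' g)
      rw [hzg]
    · show m ((fun v => z (v + -g)) g) (y g) (y' g) = m u (y g) (y' g)
      rw [hzg]

private lemma w34_step {d : ℕ} {S : Type} {Y : Set (Gd d → S)}
    (hsh : ∀ y ∈ Y, ∀ g, (fun v => y (v + g)) ∈ Y) {C : Set S} (g : Gd d) {y : Gd d → S}
    (hy : y ∈ Y) {v : Gd d} (hv : y v ∈ C) : y (v + g) ∈ w34 Y C g := by
  refine ⟨fun x => y (x + v), hsh y hy v, ?_, ?_⟩
  · show y (0 + v) ∈ C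
    rwa [zero_add]
  · show y (g + v) = y (v + g)
    rw [add_comm]

theorem exists_absorb {d : ℕ} {S : Type} [Finite S] (m : S → S → S → S) (hm : Majority m)
    (Y : Set (Gd d → S)) (hY : MClosed m Y) (hsh : ∀ y ∈ Y, ∀ g, (fun v => y (v + g)) ∈ Y)
    (D : Set S) (hD : ∀ y ∈ Y, ∀ v, y v ∈ D) (M : ℕ) (hsur : ∀ a ∈ D, ∃ y ∈ Y, y 0 = a)
    (hfar : ∀ a ∈ D, ∀ b ∈ D, ∀ g, ¬ nb M g → ∃ y ∈ Y, y 0 = a ∧ y g = b)
    (h2 : ∃ a ∈ D, ∃ b ∈ D, a ≠ b) :
    ∃ C : Set S, Absorb m D C ∧ C.Nonempty ∧ C ≠ D ∧ ∀ u v, ∃ y ∈ Y, y u ∈ C ∧ y v ∈ C := by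
  classical
  obtain ⟨P, hPadd, hP0, hPor⟩ := exists_cone d
  have claim : ∃ C : Set S, (Absorb m D C ∧ C.Nonempty ∧ C ≠ D) ∧ ∀ g, P g → w34 Y C g = D := by
    by_contra hcon
    push Not at hcon
    have hne : ∀ C : {C : Set S // Absorb m D C ∧ C.Nonempty ∧ C ≠ D},
        ∃ g, P g ∧ w34 Y C.1 g ≠ D := fun C => hcon C.1 C.2
    choose G hG1 hG2 using hne
    have hgood : ∀ C : {C : Set S // Absorb m D C ∧ C.Nonempty ∧ C ≠ D},
        Absorb m D (w34 Y C.1 (G C)) ∧ (w34 Y C.1 (G C)).Nonempty ∧ w34 Y C.1 (G C) ≠ D := by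
      intro C
      refine ⟨w34_absorb hY hsh hD hsur C.2.1 _, ?_, hG2 C⟩
      obtain ⟨c, hc⟩ := C.2.2.1
      obtain ⟨y, hy, hy0⟩ := hsur c (C.2.1.1 hc)
      exact ⟨y (G C), y, hy, by rw [hy0]; exact hc, rfl⟩
    obtain ⟨a, ha, b, hb, hab⟩ := h2
    have hstart : Absorb m D {a} ∧ ({a} : Set S).Nonempty ∧ ({a} : Set S) ≠ D := by
      refine ⟨⟨?_, ?_⟩, Set.singleton_nonempty a, ?_⟩
      · rintro x rfl
        exact ha
      · rintro s rfl t rfl u hu
        obtain ⟨h1, h3, h4⟩ := hm t u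
        exact ⟨h1, h3, h4⟩
      · intro h
        rw [← h] at hb
        exact hab hb.symm
    let nx : {C : Set S // Absorb m D C ∧ C.Nonempty ∧ C ≠ D} →
        {C : Set S // Absorb m D C ∧ C.Nonempty ∧ C ≠ D} := fun C =>
      ⟨w34 Y C.1 (G C), hgood C⟩
    let sq : ℕ → {C : Set S // Absorb m D C ∧ C.Nonempty ∧ C ≠ D} := fun n =>
      Nat.rec ⟨{a}, hstart⟩ (fun _ C => nx C) n
    have hsq : ∀ n, sq (n + 1) = nx (sq n) := fun n => rfl
    have hstep : ∀ i k, ∃ u, P u ∧ ∀ y ∈ Y, ∀ v, y v ∈ (sq i).1 →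
        y (v + u) ∈ (sq (i + 1 + k)).1 := by
      intro i k
      induction k with
      | zero =>
        refine ⟨G (sq i), hG1 _, fun y hy v hv => ?_⟩
        exact w34_step hsh _ hy hv
      | succ k ih =>
        obtain ⟨u, hu, hu'⟩ := ih
        refine ⟨u + G (sq (i + 1 + k)), hPadd _ _ hu (hG1 _), fun y hy v hv => ?_⟩
        have h1 := w34_step hsh (G (sq (i + 1 + k))) hy (hu' y hy v hv)
        have h3 : v + (u + G (sq (i + 1 + k))) = v + u + G (sq (i + 1 + k)) :=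
          (add_assoc _ _ _).symm
        rw [h3]
        exact h1
    obtain ⟨i, j, hij, heq⟩ := Finite.exists_ne_map_eq_of_infinite fun n => (sq n).1
    have key : ∀ i j, i < j → (sq i).1 = (sq j).1 → False := by
      intro i j hij heq
      obtain ⟨k, rfl⟩ : ∃ k, j = i + 1 + k := ⟨j - (i + 1), by omega⟩
      obtain ⟨u, hu, hu'⟩ := hstep i k
      rw [← heq] at hu'
      have hit : ∀ n : ℕ, ∀ y ∈ Y, ∀ v, y v ∈ (sq i).1 → y (v + n • u) ∈ (sq i).1 := by
        intro n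
        induction n with
        | zero =>
          intro y hy v hv
          rw [zero_smul, add_zero]
          exact hv
        | succ n ih =>
          intro y hy v hv
          rw [succ_nsmul, ← add_assoc]
          exact hu' y hy _ (ih y hy v hv)
      have hu0 : u ≠ 0 := fun h => hP0 (h ▸ hu)
      obtain ⟨l, hl⟩ : ∃ l, u l ≠ 0 := by
        by_contra hcon2
        push Not at hcon2
        exact hu0 (funext hcon2)
      have hnb : ¬ nb M ((M + 1) • u) := by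
        intro h
        have h1 := h l
        rw [Pi.smul_apply, nsmul_eq_mul, abs_mul] at h1
        have h3 : 1 ≤ |u l| := Int.one_le_abs hl
        have h4 : |((M + 1 : ℕ) : ℤ)| = (M : ℤ) + 1 := by
          rw [abs_of_nonneg (by positivity)]
          push_cast
          ring
        rw [h4] at h1
        nlinarith
      obtain ⟨c, hc⟩ := (sq i).2.2.1
      have hss : (sq i).1 ⊆ D := (sq i).2.1.1
      obtain ⟨b', hb', hb''⟩ : ∃ b' ∈ D, b' ∉ (sq i).1 := by
        by_contra hcon3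
        push Not at hcon3
        exact (sq i).2.2.2 (Set.Subset.antisymm hss hcon3)
      obtain ⟨y, hy, hy0, hyg⟩ := hfar c (hss hc) b' hb' _ hnb
      have h5 := hit (M + 1) y hy 0 (by rw [hy0]; exact hc)
      rw [zero_add, hyg] at h5
      exact hb'' h5
    rcases lt_or_gt_of_ne hij with h | h
    · exact key i j h heq
    · exact key j i h heq.symm
  obtain ⟨C, ⟨hC1, hC2, hC3⟩, hC4⟩ := claim
  refine ⟨C, hC1, hC2, hC3, ?_⟩
  have hP : ∀ u v, P (v - u) → ∃ y ∈ Y, y u ∈ C ∧ y v ∈ C := by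
    intro u v h
    obtain ⟨c, hc⟩ := hC2
    have hcD : c ∈ w34 Y C (v - u) := by
      rw [hC4 _ h]
      exact hC1.1 hc
    obtain ⟨y, hy, hy0, hyg⟩ := hcD
    refine ⟨fun x => y (x + -u), hsh y hy (-u), ?_, ?_⟩
    · show y (u + -u) ∈ C
      rwa [add_neg_cancel]
    · show y (v + -u) ∈ C
      rw [← sub_eq_add_neg, hyg]
      exact hc
  intro u v
  by_cases huv : v - u = 0
  · obtain ⟨c, hc⟩ := hC2
    obtain ⟨y, hy, hy0⟩ := hsur c (hC1.1 hc)
    have hvu : v = u := sub_eq_zero.1 huv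
    have h1 : (fun x => y (x + -u)) u ∈ C := by
      show y (u + -u) ∈ C
      rw [add_neg_cancel, hy0]
      exact hc
    refine ⟨fun x => y (x + -u), hsh y hy (-u), h1, ?_⟩
    rw [hvu]
    exact h1
  · rcases hPor _ huv with h | h
    · exact hP u v h
    · rw [neg_sub] at h
      obtain ⟨y, hy, h1, h3⟩ := hP v u h
      exact ⟨y, hy, h3, h1⟩

end EB
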