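import Pool.Agent.Helper27.EB.Helly
import Pool.Agent.Helper27.EB.Compactn
import Pool.Agent.Helper27.EB.WalkS

/-!
# EB-35: majority and 2-mixing give a constant configuration

For `D ⊆ S` let `Y_D = {y ∈ Ysub B A | ∀ v, y v ∈ D}`.  Call `D` good if it is nonempty, `∀ a ∈ D, ∃ y ∈ Y_D, y 0 = a`, and `∀ a b ∈ D`, `¬ nb M g → ∃ y ∈ Y_D, y 0 = a ∧ y g = b` (the same `M` for all `D`).
`Y_D` is shift invariant, and closed under `m` if `D` is closed under `m` (then `Ysub B A` is closed by `hA`).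
* CLOSURE: let `D` be the closure of `T` under `m` (the intersection of all `m`-closed sets containing `T`, or an inductive predicate).  `D` is good: for fixed `g` with `¬ nb M g` the set `{(a, b) | ∃ y ∈ Y_D, y 0 = a ∧ y g = b}` is closed under `m` and contains `T × T`;
  so for fixed `b ∈ T` the set of `a` with `(a, b)` in it is closed under `m` (because `m b b b = b`) and contains `T`, hence contains `D`; then for fixed `a ∈ D` the same for `b`.  The same for `y 0 = a`.
* STEP: if `D` is good and closed under `m` and has two different elements then there is a good `m`-closed `D' ⊊ D`: `C` from `exists_absorb` for `Y = Y_D`.  By `helly` (`E v = C` for all `v`) and `compact_ext` (intersect `E v` with `D`; or apply `compact_ext` with `E v = C ⊆ D`) the set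
  `Y_C = {y ∈ Ysub B A | ∀ v, y v ∈ C}` is nonempty.  `D' = {y 0 | y ∈ Y_C} ⊆ C ≠ D`; `C` is closed under `m` (`Absorb`), so `D'` is; `Y_{D'} = Y_C` (shift).  Goodness of `D'`: for `a, b ∈ D'`, `¬ nb M g` (so `g ≠ 0`) apply `helly` in `Y_D` with `E 0 = {a}`, `E g = {b}`, `E v = C`
  otherwise (`{a}` is absorbing by `Majority`); the pairs: `(0, v)`: an element of `Y_C` with `y 0 = a`; `(g, v)`: a shift of an element of `Y_C`; `(0, g)`: goodness of `D`; `(v, v')`: `Y_C` nonempty.  Then `compact_ext`.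
* Strong induction on the cardinality of `D` (`Set.ncard`): we arrive at a good `D = {s}`, and `Y_D` nonempty means that the constant pattern `s` is in `A`.
-/

set_option autoImplicit false

namespace EB

/-- the configurations of `Ysub B A` with all labels in `D` -/
def YD {d : ℕ} {S : Type} (B : Set (Gd d)) (A : Set (B → S)) (D : Set S) : Set (Gd d → S) :=
  {y | y ∈ Ysub B A ∧ ∀ v, y v ∈ D}

/-- closed under `m` -/
def Mcl {S : Type} (m : S → S → S → S) (D : Set S) : Prop :=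
  ∀ s ∈ D, ∀ t ∈ D, ∀ u ∈ D, m s t u ∈ D

/-- a good set of labels -/
structure GoodD {d : ℕ} {S : Type} (m : S → S → S → S) (B : Set (Gd d)) (A : Set (B → S)) (M : ℕ)
    (D : Set S) : Prop where
  ne : D.Nonempty
  cl : Mcl m D
  sur : ∀ a ∈ D, ∃ y ∈ YD B A D, y 0 = a
  far : ∀ a ∈ D, ∀ b ∈ D, ∀ g, ¬ nb M g → ∃ y ∈ YD B A D, y 0 = a ∧ y g = b

theorem ysub_shift {d : ℕ} {S : Type} {B : Set (Gd d)} {A : Set (B → S)} {y : Gd d → S}
    (hy : y ∈ Ysub B A) (g : Gd d) : (fun v => y (v + g)) ∈ Ysub B A := by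
  intro v
  have h := hy (v + g)
  have h2 : (fun b : B => y (v + b + g)) = fun b : B => y (v + g + b) := by
    funext b
    congr 1
    abel
  show (fun b : B => y (v + b + g)) ∈ A
  rw [h2]
  exact h

theorem ysub_mclosed {d : ℕ} {S : Type} {m : S → S → S → S} {B : Set (Gd d)} {A : Set (B → S)}
    (hA : MClosed m A) : MClosed m (Ysub B A) := by
  intro u v w hu hv hw x
  exact hA _ _ _ (hu x) (hv x) (hw x)

theorem yd_shift {d : ℕ} {S : Type} {B : Set (Gd d)} {A : Set (B → S)} {D : Set S} {y : Gd d → S}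
    (hy : y ∈ YD B A D) (g : Gd d) : (fun v => y (v + g)) ∈ YD B A D :=
  ⟨ysub_shift hy.1 g, fun v => hy.2 (v + g)⟩

theorem yd_mclosed {d : ℕ} {S : Type} {m : S → S → S → S} {B : Set (Gd d)} {A : Set (B → S)}
    (hA : MClosed m A) {D : Set S} (hD : Mcl m D) : MClosed m (YD B A D) := by
  intro u v w hu hv hw
  exact ⟨ysub_mclosed hA u v w hu.1 hv.1 hw.1, fun x => hD _ (hu.2 x) _ (hv.2 x) _ (hw.2 x)⟩

theorem yd_mono {d : ℕ} {S : Type} {B : Set (Gd d)} {A : Set (B → S)} {C D : Set S} (h : C ⊆ D)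
    {y : Gd d → S} (hy : y ∈ YD B A C) : y ∈ YD B A D :=
  ⟨hy.1, fun v => h (hy.2 v)⟩

theorem absorb_single {S : Type} {m : S → S → S → S} (hm : Majority m) {D : Set S} {a : S}
    (ha : a ∈ D) : Absorb m D {a} := by
  refine ⟨Set.singleton_subset_iff.mpr ha, ?_⟩
  intro s hs t ht u _
  rw [Set.mem_singleton_iff] at hs ht
  subst hs
  subst ht
  exact ⟨(hm _ u).1, (hm _ u).2.1, (hm _ u).2.2⟩

/-- the closure step -/
theorem closure_good {d : ℕ} {S : Type} (m : S → S → S → S) (hm : Majority m)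
    (B : Set (Gd d)) (A : Set (B → S)) (hA : MClosed m A) (T : Set S)
    (hT : T.Nonempty) (M : ℕ) (hsur : ∀ a ∈ T, ∃ y ∈ Ysub B A, (∀ v, y v ∈ T) ∧ y 0 = a)
    (hfar : ∀ a ∈ T, ∀ b ∈ T, ∀ g, ¬ nb M g →
      ∃ y ∈ Ysub B A, (∀ v, y v ∈ T) ∧ y 0 = a ∧ y g = b) :
    ∃ D : Set S, GoodD m B A M D := by
  set D : Set S := {s | ∀ C : Set S, T ⊆ C → Mcl m C → s ∈ C} with hD
  have hTD : T ⊆ D := fun s hs C hC _ => hC hs
  have hDcl : Mcl m D := fun s hs t ht u hu C hC hC' =>
    hC' s (hs C hC hC') t (ht C hC hC') u (hu C hC hC')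
  have hmin : ∀ C : Set S, T ⊆ C → Mcl m C → D ⊆ C := fun C h1 h2 s hs => hs C h1 h2
  have hYcl := yd_mclosed (B := B) hA hDcl
  have hmmm : ∀ x, m x x x = x := fun x => (hm x x).1
  refine ⟨D, ⟨hT.mono hTD, hDcl, ?_, ?_⟩⟩
  · have h1 : D ⊆ {a | ∃ y ∈ YD B A D, y 0 = a} := by
      apply hmin
      · intro a ha
        obtain ⟨y, hy, hyT, hy0⟩ := hsur a ha
        exact ⟨y, ⟨hy, fun v => hTD (hyT v)⟩, hy0⟩
      · rintro s ⟨y1, h1, rfl⟩ t ⟨y2, h2, rfl⟩ u ⟨y3, h3, rfl⟩
        exact ⟨_, hYcl y1 y2 y3 h1 h2 h3, rfl⟩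
    exact fun a ha => h1 ha
  · intro a ha b hb g hg
    have h1 : ∀ b ∈ T, D ⊆ {a | ∃ y ∈ YD B A D, y 0 = a ∧ y g = b} := by
      intro b hb
      apply hmin
      · intro a ha
        obtain ⟨y, hy, hyT, hy0, hyg⟩ := hfar a ha b hb g hg
        exact ⟨y, ⟨hy, fun v => hTD (hyT v)⟩, hy0, hyg⟩
      · rintro s ⟨y1, h1, rfl, h1'⟩ t ⟨y2, h2, rfl, h2'⟩ u ⟨y3, h3, rfl, h3'⟩
        refine ⟨_, hYcl y1 y2 y3 h1 h2 h3, rfl, ?_⟩
        show m (y1 g) (y2 g) (y3 g) = b
        rw [h1', h2', h3', hmmm]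
    have h2 : D ⊆ {b | ∃ y ∈ YD B A D, y 0 = a ∧ y g = b} := by
      apply hmin
      · intro b hb
        exact h1 b hb ha
      · rintro s ⟨y1, h1, h1', rfl⟩ t ⟨y2, h2, h2', rfl⟩ u ⟨y3, h3, h3', rfl⟩
        refine ⟨_, hYcl y1 y2 y3 h1 h2 h3, ?_, rfl⟩
        show m (y1 0) (y2 0) (y3 0) = a
        rw [h1', h2', h3', hmmm]
    exact h2 hb

/-- the reduction step -/
theorem step_good {d : ℕ} {S : Type} [Finite S] (m : S → S → S → S) (hm : Majority m)
    (B : Set (Gd d)) (hB : B.Finite) (A : Set (B → S)) (hA : MClosed m A) (M : ℕ) (D : Set S)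
    (hD : GoodD m B A M D) (h2 : ∃ a ∈ D, ∃ b ∈ D, a ≠ b) :
    ∃ D' : Set S, D' ⊂ D ∧ GoodD m B A M D' := by
  classical
  have hYm := yd_mclosed (B := B) hA hD.cl
  have hYD : ∀ y ∈ YD B A D, ∀ v, y v ∈ D := fun y hy v => hy.2 v
  obtain ⟨C, hC, hCne, hCD, hpair⟩ := exists_absorb m hm (YD B A D) hYm
    (fun y hy g => yd_shift hy g) D hYD M hD.sur hD.far h2
  obtain ⟨a0, ha0⟩ := hD.ne
  obtain ⟨yD, hyD, -⟩ := hD.sur a0 ha0
  have hCm : Mcl m C := fun s hs t ht u hu => (hC.2 s hs t ht u (hC.1 hu)).1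
  -- an element of `YD B A C`
  obtain ⟨y0, hy0, hy0C⟩ := compact_ext B hB A (fun _ => C) (by
    intro V
    rcases V.eq_empty_or_nonempty with rfl | hV
    · exact ⟨yD, hyD.1, fun v hv => absurd hv (Finset.notMem_empty v)⟩
    · obtain ⟨y, hy, hyV⟩ := helly m (YD B A D) hYm D hYD (fun _ => C) (fun _ => hC) hpair V hV
      exact ⟨y, hy.1, hyV⟩)
  have hy0Y : y0 ∈ YD B A C := ⟨hy0, hy0C⟩
  set D' : Set S := {s | ∃ y ∈ YD B A C, y 0 = s} with hD'
  have hD'C : D' ⊆ C := by
    rintro s ⟨y, hy, rfl⟩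
    exact hy.2 0
  have hYC : ∀ y ∈ YD B A C, y ∈ YD B A D' := by
    intro y hy
    refine ⟨hy.1, fun v => ⟨_, yd_shift hy v, ?_⟩⟩
    show y (0 + v) = y v
    rw [zero_add]
  have hYCm := yd_mclosed (B := B) hA hCm
  refine ⟨D', ?_, ⟨⟨y0 0, y0, hy0Y, rfl⟩, ?_, ?_, ?_⟩⟩
  · refine (Set.ssubset_iff_subset_ne).mpr ⟨hD'C.trans hC.1, ?_⟩
    rintro h
    exact hCD (Set.Subset.antisymm hC.1 (h ▸ hD'C))
  · rintro s ⟨y1, h1, rfl⟩ t ⟨y2, h2, rfl⟩ u ⟨y3, h3, rfl⟩
    exact ⟨_, hYCm y1 y2 y3 h1 h2 h3, rfl⟩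
  · rintro a ⟨y, hy, rfl⟩
    exact ⟨y, hYC y hy, rfl⟩
  · rintro a ha b hb g hg
    have haC : a ∈ C := hD'C ha
    have hbC : b ∈ C := hD'C hb
    have haD : a ∈ D := hC.1 haC
    have hbD : b ∈ D := hC.1 hbC
    have hg0 : g ≠ 0 := by
      rintro rfl
      apply hg
      intro i
      simp
    obtain ⟨ya, hya, hya0⟩ := ha
    obtain ⟨yb', hyb', hyb0⟩ := hb
    -- a shift of `yb'` with value `b` at `g`
    obtain ⟨yb, hyb, hybg⟩ : ∃ y ∈ YD B A C, y g = b :=
      ⟨_, yd_shift hyb' (-g), by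
        show yb' (g + -g) = b
        rw [add_neg_cancel]
        exact hyb0⟩
    set E : Gd d → Set S := fun v => if v = 0 then {a} else if v = g then {b} else C with hE
    have hE0 : E 0 = {a} := by rw [hE]; exact if_pos rfl
    have hEg : E g = {b} := by
      rw [hE]
      show (if g = 0 then {a} else if g = g then {b} else C) = {b}
      rw [if_neg hg0, if_pos rfl]
    have hEv : ∀ v, v ≠ 0 → v ≠ g → E v = C := by
      intro v hv hv'
      rw [hE]
      show (if v = 0 then {a} else if v = g then {b} else C) = C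
      rw [if_neg hv, if_neg hv']
    have hEabs : ∀ v, Absorb m D (E v) := by
      intro v
      by_cases hv : v = 0
      · rw [hv, hE0]
        exact absorb_single hm haD
      · by_cases hv' : v = g
        · rw [hv', hEg]
          exact absorb_single hm hbD
        · rw [hEv v hv hv']
          exact hC
    have hEC : ∀ v, E v ⊆ C := by
      intro v
      by_cases hv : v = 0
      · rw [hv, hE0]
        exact Set.singleton_subset_iff.mpr haC
      · by_cases hv' : v = g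
        · rw [hv', hEg]
          exact Set.singleton_subset_iff.mpr hbC
        · rw [hEv v hv hv']
    have hmemE : ∀ y ∈ YD B A C, ∀ v, v ≠ 0 → v ≠ g → y v ∈ E v := by
      intro y hy v hv hv'
      rw [hEv v hv hv']
      exact hy.2 v
    have hya0' : ya 0 ∈ E 0 := by rw [hE0]; exact hya0
    have hybg' : yb g ∈ E g := by rw [hEg]; exact hybg
    have hp : ∀ i j, ∃ y ∈ YD B A D, y i ∈ E i ∧ y j ∈ E j := by
      intro i j
      by_cases hi0 : i = 0
      · by_cases hjg : j = g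
        · obtain ⟨y, hy, h1, h2⟩ := hD.far a haD b hbD g hg
          refine ⟨y, hy, ?_, ?_⟩
          · rw [hi0, hE0]; exact h1
          · rw [hjg, hEg]; exact h2
        · refine ⟨ya, yd_mono hC.1 hya, ?_, ?_⟩
          · rw [hi0]; exact hya0'
          · by_cases hj0 : j = 0
            · rw [hj0]; exact hya0'
            · exact hmemE ya hya j hj0 hjg
      · by_cases hig : i = g
        · by_cases hj0 : j = 0
          · obtain ⟨y, hy, h1, h2⟩ := hD.far a haD b hbD g hg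
            refine ⟨y, hy, ?_, ?_⟩
            · rw [hig, hEg]; exact h2
            · rw [hj0, hE0]; exact h1
          · refine ⟨yb, yd_mono hC.1 hyb, ?_, ?_⟩
            · rw [hig]; exact hybg'
            · by_cases hjg : j = g
              · rw [hjg]; exact hybg'
              · exact hmemE yb hyb j hj0 hjg
        · by_cases hj0 : j = 0
          · refine ⟨ya, yd_mono hC.1 hya, hmemE ya hya i hi0 hig, ?_⟩
            rw [hj0]; exact hya0'
          · by_cases hjg : j = g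
            · refine ⟨yb, yd_mono hC.1 hyb, hmemE yb hyb i hi0 hig, ?_⟩
              rw [hjg]; exact hybg'
            · exact ⟨y0, yd_mono hC.1 hy0Y, hmemE y0 hy0Y i hi0 hig, hmemE y0 hy0Y j hj0 hjg⟩
    obtain ⟨y, hy, hyE⟩ := compact_ext B hB A E (by
      intro V
      rcases V.eq_empty_or_nonempty with rfl | hV
      · exact ⟨yD, hyD.1, fun v hv => absurd hv (Finset.notMem_empty v)⟩
      · obtain ⟨y, hy, hyV⟩ := helly m (YD B A D) hYm D hYD E hEabs hp V hV
        exact ⟨y, hy.1, hyV⟩)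
    refine ⟨y, hYC y ⟨hy, fun v => hEC v (hyE v)⟩, ?_, ?_⟩
    · have h := hyE 0
      rw [hE0] at h
      exact h
    · have h := hyE g
      rw [hEg] at h
      exact h

theorem maj_const {d : ℕ} {S : Type} [Finite S] (m : S → S → S → S) (hm : Majority m)
    (B : Set (Gd d)) (hB : B.Finite) (A : Set (B → S)) (hA : MClosed m A) (T : Set S)
    (hT : T.Nonempty) (M : ℕ) (hsur : ∀ a ∈ T, ∃ y ∈ Ysub B A, (∀ v, y v ∈ T) ∧ y 0 = a)
    (hfar : ∀ a ∈ T, ∀ b ∈ T, ∀ g, ¬ nb M g →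
      ∃ y ∈ Ysub B A, (∀ v, y v ∈ T) ∧ y 0 = a ∧ y g = b) :
    ∃ s, (fun _ : B => s) ∈ A := by
  have key : ∀ n : ℕ, ∀ D : Set S, D.ncard ≤ n → GoodD m B A M D → ∃ s, (fun _ : B => s) ∈ A := by
    intro n
    induction n with
    | zero =>
      intro D hn hD
      exfalso
      have h1 : D.ncard = 0 := by omega
      rw [Set.ncard_eq_zero] at h1
      exact hD.ne.ne_empty h1
    | succ n ih =>
      intro D hn hD
      by_cases h2 : ∃ a ∈ D, ∃ b ∈ D, a ≠ b
      · obtain ⟨D', hlt, hD'⟩ := step_good m hm B hB A hA M D hD h2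
        have h3 : D'.ncard < D.ncard := Set.ncard_lt_ncard hlt (Set.toFinite D)
        exact ih D' (by omega) hD'
      · push Not at h2
        obtain ⟨a, ha⟩ := hD.ne
        obtain ⟨y, hy, -⟩ := hD.sur a ha
        refine ⟨a, ?_⟩
        have h3 := hy.1 0
        have h4 : (fun b : B => y (0 + b)) = fun _ : B => a := by
          funext b
          exact h2 _ (hy.2 _) _ ha
        rw [h4] at h3
        exact h3
  obtain ⟨D, hD⟩ := closure_good m hm B A hA T hT M hsur hfar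
  exact key D.ncard D le_rfl hD

end EB
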