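import Pool.Agent.Helper27.EB.Final
import Pool.Agent.Helper27.EB.MajConst
import Pool.Agent.Helper27.EB.Mix2M
import Pool.Agent.Helper27.EB.Mix2C

/-!
# EB: assembly of part B
-/

set_option autoImplicit false

namespace EB

open MeasureTheory

theorem const_borel {d : ℕ} {S : Type} (L : LCL S) (h : ConstSol d L) {X : Type}
    [MeasurableSpace X] (a : FreeAct d X) : BorelSol a L := by
  obtain ⟨s, hs⟩ := h
  refine ⟨fun _ => s, Ms.const s, ?_⟩
  rw [sol_iff_univ]
  exact fun _ => hs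

/-- A solution on a set of a 2-mixing filter gives a constant solution. -/
theorem mainB {d : ℕ} {S : Type} [Finite S] (m : S → S → S → S) (hm : Majority m) (L : LCL S)
    (hL : Preserved d m L) (l : Filter (Om d)) [l.NeBot] [CountableInterFilter l]
    (hinv : ∀ (g : Gd d) (E : Set (Om d)), E ∈ l → sh g ⁻¹' E ∈ l)
    (hmix : ∀ F : Om d → S, Ms F → ∃ M : ℕ, ∀ a b g, ¬ nb M g → (∃ᶠ x in l, F x = a) →
      (∃ᶠ x in l, F x = b) → ∃ᶠ x in l, F x = a ∧ F (sh g x) = b)
    (C : Set (FP d)) (hCm : MeasurableSet C) (hCi : Inv (fshift d) C)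
    (hCl : Subtype.val '' C ∈ l) (hS : BorelSolOn (fshift d) L C) : ConstSol d L := by
  classical
  obtain ⟨f, hf, hsol⟩ := hS
  rw [sol_iff (fshift d) L C hCi f] at hsol
  obtain ⟨x0, hx0⟩ : (Subtype.val '' C : Set (Om d)).Nonempty := Filter.nonempty_of_mem hCl
  obtain ⟨y0, hy0, -⟩ := hx0
  obtain ⟨s0, hs0⟩ : ∃ s0 : S, s0 = f ⟨y0, hy0⟩ := ⟨_, rfl⟩
  obtain ⟨φ, hφ⟩ : ∃ φ : Om d → S, φ = fun x =>
      if h : ∃ hx : x ∈ FP d, (⟨x, hx⟩ : FP d) ∈ C then f ⟨⟨x, h.1⟩, h.2⟩ else s0 := ⟨_, rfl⟩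
  have hφ1 : ∀ y : C, φ y.1.1 = f y := by
    intro y
    rw [hφ]
    exact dif_pos ⟨y.1.2, y.2⟩
  have hφ0 : ∀ x, x ∉ Subtype.val '' C → φ x = s0 := by
    intro x hx
    rw [hφ]
    refine dif_neg ?_
    rintro ⟨h1, h2⟩
    exact hx ⟨⟨x, h1⟩, h2, rfl⟩
  have hCm' : MeasurableSet (Subtype.val '' C : Set (Om d)) := (FP_meas d).subtype_image hCm
  have hφm : Ms φ := by
    intro s
    have h1 : {x | φ x = s} = (Subtype.val '' (Subtype.val '' {y : C | f y = s})) ∪
        ((Subtype.val '' C)ᶜ ∩ {_x : Om d | s0 = s}) := by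
      ext x
      simp only [Set.mem_union, Set.mem_inter_iff, Set.mem_compl_iff, Set.mem_ofPred_eq]
      constructor
      · intro hx
        by_cases h : x ∈ Subtype.val '' C
        · left
          obtain ⟨y, hy, rfl⟩ := h
          refine ⟨y, ⟨⟨y, hy⟩, ?_, rfl⟩, rfl⟩
          have := hφ1 ⟨y, hy⟩
          exact this.symm.trans hx
        · right
          exact ⟨h, (hφ0 x h).symm.trans hx⟩
      · rintro (⟨_, ⟨y, hy, rfl⟩, rfl⟩ | ⟨h, h0⟩)
        · exact (hφ1 y).trans hy
        · rw [hφ0 x h]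
          exact h0
    rw [h1]
    refine ((FP_meas d).subtype_image (hCm.subtype_image (hf s))).union (hCm'.compl.inter ?_)
    exact MeasurableSet.const _
  obtain ⟨T, hT⟩ : ∃ T : Set S, T = {s | ∃ᶠ x in l, φ x = s} := ⟨_, rfl⟩
  -- the typical labels
  have hTev : ∀ᶠ x in l, ∀ v, φ (sh v x) ∈ T := by
    rw [eventually_countable_forall]
    intro v
    have h1 : ∀ᶠ x in l, φ x ∈ T := by
      have h2 : ∀ᶠ x in l, ∀ s, s ∉ T → φ x ≠ s := by
        rw [Filter.eventually_all]
        intro s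
        by_cases hs : s ∈ T
        · exact Filter.Eventually.of_forall fun x h => absurd hs h
        · have h3 : ¬ ∃ᶠ x in l, φ x = s := by
            rw [hT] at hs
            exact hs
          rw [Filter.not_frequently] at h3
          exact h3.mono fun x hx _ => hx
      exact h2.mono fun x hx => by
        by_contra hc
        exact hx _ hc rfl
    exact hinv v _ h1
  have hYev : ∀ᶠ x in l, (fun v => φ (sh v x)) ∈
      Ysub (ball (grid d) L.r 0) {w | Allowed d L w} := by
    filter_upwards [hCl] with x hx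
    obtain ⟨y, hy, rfl⟩ := hx
    intro v
    have hv := hCi v y hy
    have h1 := hsol ⟨(fshift d).T v y, hv⟩
    have h2 : (fun b : ball (grid d) L.r 0 => φ (sh (v + b.1) y.1)) =
        fun b : ball (grid d) L.r 0 =>
          f ⟨(fshift d).T b.1 ((fshift d).T v y), hCi b.1 _ hv⟩ := by
      funext b
      rw [← hφ1]
      show φ (sh (v + b.1) y.1) = φ (sh b.1 (sh v y.1))
      rw [← sh_add, add_comm]
    show Allowed d L _
    rw [h2]
    exact h1
  obtain ⟨M, hM⟩ := hmix φ hφm
  have hTne : T.Nonempty := by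
    obtain ⟨x, hx⟩ := hTev.exists
    exact ⟨_, hx 0⟩
  have hTf : ∀ a ∈ T, ∃ᶠ x in l, φ x = a := by
    intro a ha
    rw [hT] at ha
    exact ha
  obtain ⟨s, hs⟩ := maj_const m hm (ball (grid d) L.r 0) (ball_grid_finite d L.r)
    {w | Allowed d L w} (fun u v w hu hv hw => hL u v w hu hv hw) T hTne M
    (fun a ha => by
      obtain ⟨x, hx, hxT, hxY⟩ := ((hTf a ha).and_eventually (hTev.and hYev)).exists
      refine ⟨fun v => φ (sh v x), hxY, hxT, ?_⟩
      show φ (sh 0 x) = a
      rw [sh_zero]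
      exact hx)
    (fun a ha b hb g hg => by
      obtain ⟨x, hx, hxT, hxY⟩ :=
        ((hM a b g hg (hTf a ha) (hTf b hb)).and_eventually (hTev.and hYev)).exists
      refine ⟨fun v => φ (sh v x), hxY, hxT, ?_, hx.2⟩
      show φ (sh 0 x) = a
      rw [sh_zero]
      exact hx.1)
  exact ⟨s, hs⟩

/-- MP_eb515b_lc, LCL problems with a majority polymorphism. -/
theorem majority_tfae (d : ℕ) {S : Type} [Finite S] (m : S → S → S → S) (hm : Majority m)
    (L : LCL S) (hL : Preserved d m L) :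
    List.TFAE [
      ConstSol d L,
      ∀ (X : Type) [MeasurableSpace X] (a : FreeAct d X), BorelSol a L,
      BorelSol (fshift d) L,
      MeasSol d L,
      BernSol d L,
      BaireSol d L] := by
  have hne : (residual (Om d)).NeBot := (good_resid 2 0 d Nat.prime_two).ne
  tfae_have 1 → 2 := fun h X _ a => const_borel L h a
  tfae_have 2 → 3 := fun h => h (FP d) (fshift d)
  tfae_have 3 → 4 := by
    intro h μ _
    exact ⟨Set.univ, MeasurableSet.univ, fun _ _ _ => trivial, by simp, solOn_univ L h⟩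
  tfae_have 4 → 5 := bern_of_meas L
  tfae_have 5 → 1 := by
    rintro ⟨C, hC, hCi, hC0, hs⟩
    exact mainB m hm L hL (ae (bern d)) (good_bern 2 0 d Nat.prime_two).inv
      (fun F hF => mix2_bern d F hF) C hC hCi (mem_ae_iff.2 hC0) hs
  tfae_have 3 → 6 := by
    intro h
    exact ⟨Set.univ, MeasurableSet.univ, fun _ _ _ => trivial, Filter.univ_mem, solOn_univ L h⟩
  tfae_have 6 → 1 := by
    rintro ⟨C, hC, hCi, hC0, hs⟩
    exact mainB m hm L hL (residual (Om d)) (good_resid 2 0 d Nat.prime_two).inv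
      (fun F hF => mix2_resid d F hF) C hC hCi (resid_sub d C hC0) hs
  tfae_finish

end EB
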