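import Pool.Agent.Helper27.EB.DefsB

/-!
# EB-32: Helly property

Strong induction on `V.card`.  If `V.card ≤ 2` then `V = {i, j}` (possibly `i = j`): `hp`.  If `V.card ≥ 3` choose different `i₁, i₂, i₃ ∈ V` and `y_k` for `V.erase i_k` (`k = 1, 2, 3`).  `y = m y₁ y₂ y₃ ∈ Y`.
At `i ∈ V` different from `i₁, i₂, i₃` all three values are in `E i ⊆ D`; at `i₁` the values of `y₂, y₃` are in `E i₁` and `y₁ i₁ ∈ D`, similarly for `i₂`, `i₃`.  (`Absorb`.)
-/

set_option autoImplicit false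

namespace EB

theorem helly {ι S : Type} (m : S → S → S → S) (Y : Set (ι → S)) (hY : MClosed m Y) (D : Set S)
    (hD : ∀ y ∈ Y, ∀ i, y i ∈ D) (E : ι → Set S) (hE : ∀ i, Absorb m D (E i))
    (hp : ∀ i j, ∃ y ∈ Y, y i ∈ E i ∧ y j ∈ E j) (V : Finset ι) (hV : V.Nonempty) :
    ∃ y ∈ Y, ∀ i ∈ V, y i ∈ E i := by
  classical
  induction hn : V.card using Nat.strong_induction_on generalizing V with
  | _ n ih =>
  subst hn
  rcases Nat.lt_or_ge V.card 3 with h3 | h3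
  · -- at most two points
    obtain ⟨i, hi⟩ := hV
    by_cases h1 : V = {i}
    · obtain ⟨y, hy, hyi, -⟩ := hp i i
      refine ⟨y, hy, fun k hk => ?_⟩
      rw [h1, Finset.mem_singleton] at hk
      rwa [hk]
    · obtain ⟨j, hj, hij⟩ : ∃ j ∈ V, j ≠ i := by
        by_contra hcon
        push Not at hcon
        exact h1 (Finset.eq_singleton_iff_unique_mem.2 ⟨hi, hcon⟩)
      obtain ⟨y, hy, hyi, hyj⟩ := hp i j
      refine ⟨y, hy, fun k hk => ?_⟩
      have h2 : V = {i, j} := by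
        symm
        apply Finset.eq_of_subset_of_card_le
        · intro k hk
          rw [Finset.mem_insert, Finset.mem_singleton] at hk
          rcases hk with rfl | rfl
          · exact hi
          · exact hj
        · rw [Finset.card_pair hij.symm]
          omega
      rw [h2, Finset.mem_insert, Finset.mem_singleton] at hk
      rcases hk with rfl | rfl
      · exact hyi
      · exact hyj
  · -- at least three points
    obtain ⟨i₁, i₂, i₃, h1, h2, h3', h12, h13, h23⟩ : ∃ a b c, a ∈ V ∧ b ∈ V ∧ c ∈ V ∧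
        a ≠ b ∧ a ≠ c ∧ b ≠ c := by
      obtain ⟨a, ha, b, hb, c, hc, hab, hac, hbc⟩ := Finset.two_lt_card.1 h3
      exact ⟨a, b, c, ha, hb, hc, hab, hac, hbc⟩
    have key : ∀ i ∈ V, ∃ y ∈ Y, ∀ k ∈ V.erase i, y k ∈ E k := by
      intro i hi
      have hc : (V.erase i).card = V.card - 1 := Finset.card_erase_of_mem hi
      refine ih (V.erase i).card (by omega) (V.erase i) ?_ rfl
      rw [← Finset.card_pos]
      omega
    obtain ⟨y₁, hy₁, hk₁⟩ := key i₁ h1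
    obtain ⟨y₂, hy₂, hk₂⟩ := key i₂ h2
    obtain ⟨y₃, hy₃, hk₃⟩ := key i₃ h3'
    refine ⟨fun i => m (y₁ i) (y₂ i) (y₃ i), hY y₁ y₂ y₃ hy₁ hy₂ hy₃, fun k hk => ?_⟩
    have hDE := hE k
    by_cases e1 : k = i₁
    · have a2 : y₂ k ∈ E k := hk₂ k (Finset.mem_erase.2 ⟨by rw [e1]; exact h12, hk⟩)
      have a3 : y₃ k ∈ E k := hk₃ k (Finset.mem_erase.2 ⟨by rw [e1]; exact h13, hk⟩)
      exact (hDE.2 _ a2 _ a3 _ (hD y₁ hy₁ k)).2.2
    · have a1 : y₁ k ∈ E k := hk₁ k (Finset.mem_erase.2 ⟨e1, hk⟩)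
      by_cases e2 : k = i₂
      · have a3 : y₃ k ∈ E k := hk₃ k (Finset.mem_erase.2 ⟨by rw [e2]; exact h23, hk⟩)
        exact (hDE.2 _ a1 _ a3 _ (hD y₂ hy₂ k)).2.1
      · have a2 : y₂ k ∈ E k := hk₂ k (Finset.mem_erase.2 ⟨e2, hk⟩)
        exact (hDE.2 _ a1 _ a2 _ (hD y₃ hy₃ k)).1

end EB
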