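import Pool.Agent.Helper27.EB.Defs

/-!
# EB-05: `Z/p^(e+1)` is an injective cogenerator

* `zmod_baer`/`zmod_extend`: Baer's criterion (`Module.Baer`, `Module.Baer.extension_property` or `Module.Baer.injective` and `Module.Injective.out`).  An ideal `I` of `A = ZMod (p^(e+1))` is `(p^j)` for some `j ≤ e+1`
  (`ZMod` is a principal ideal ring; a generator is `p^j` times a unit), and for a linear `f : I → A` the value `b = f (p^j)` satisfies `p^(e+1-j) b = 0`, so `b = p^j c` (compute with `ZMod.val`) and `f x = c x` on `I`.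
* `zmod_separate`: `w = ` the class of `z` in `M ⧸ N`, `w ≠ 0`; `j` minimal with `p ^ j • w = 0`, `1 ≤ j ≤ e+1`.  The linear functional `a • w ↦ a p^(e+1-j)` on the span of `w` is well defined (the annihilator of `w` is `(p^j)`)
  and has the value `p^(e+1-j) ≠ 0` at `w`; extend it to `M ⧸ N` by `zmod_extend` and compose with `N.mkQ`.
-/

set_option autoImplicit false

namespace EB

private theorem dvd_of_ann (n : ℕ) [NeZero n] (a b : ZMod n)
    (h : ∀ r : ZMod n, r * a = 0 → r * b = 0) : ∃ c, b = a * c := by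
  obtain ⟨k, hk⟩ : a.val.gcd n ∣ n := Nat.gcd_dvd_right _ _
  obtain ⟨a', ha'⟩ : a.val.gcd n ∣ a.val := Nat.gcd_dvd_left _ _
  have hn : 0 < n := Nat.pos_of_ne_zero (NeZero.ne n)
  have hg : 0 < a.val.gcd n := Nat.gcd_pos_of_pos_right _ hn
  have hk0 : 0 < k := by
    rcases Nat.eq_zero_or_pos k with h0 | h0
    · rw [h0, mul_zero] at hk
      omega
    · exact h0
  have h1 : (k : ZMod n) * a = 0 := by
    rw [← ZMod.natCast_zmod_val a, ← Nat.cast_mul, ZMod.natCast_eq_zero_iff]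
    refine ⟨a', ?_⟩
    calc k * a.val = k * (a.val.gcd n * a') := by rw [← ha']
      _ = (a.val.gcd n * k) * a' := by ring
      _ = n * a' := by rw [← hk]
  have h2 := h _ h1
  rw [← ZMod.natCast_zmod_val b, ← Nat.cast_mul, ZMod.natCast_eq_zero_iff] at h2
  have h3 : a.val.gcd n * k ∣ b.val * k := by
    rw [← hk, mul_comm b.val k]
    exact h2
  obtain ⟨b', hb'⟩ := Nat.dvd_of_mul_dvd_mul_right hk0 h3
  have h4 : ((a.val.gcd n : ℕ) : ZMod n) = a * ((a.val.gcdA n : ℤ) : ZMod n) := by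
    have h5 := congrArg (Int.cast : ℤ → ZMod n) (Nat.gcd_eq_gcd_ab a.val n)
    push_cast at h5
    rw [ZMod.natCast_zmod_val, ZMod.natCast_self, zero_mul, add_zero] at h5
    exact h5
  refine ⟨((a.val.gcdA n : ℤ) : ZMod n) * b', ?_⟩
  calc b = ((b.val : ℕ) : ZMod n) := (ZMod.natCast_zmod_val b).symm
    _ = ((a.val.gcd n * b' : ℕ) : ZMod n) := by rw [← hb']
    _ = a * (((a.val.gcdA n : ℤ) : ZMod n) * b') := by
        rw [Nat.cast_mul, h4, mul_assoc]

private theorem zmod_pir (n : ℕ) : IsPrincipalIdealRing (ZMod n) :=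
  IsPrincipalIdealRing.of_surjective (Int.castRingHom (ZMod n)) ZMod.intCast_surjective

private theorem zmod_baer (n : ℕ) [NeZero n] : Module.Baer (ZMod n) (ZMod n) := by
  intro I f
  have := zmod_pir n
  obtain ⟨a, ha⟩ := (IsPrincipalIdealRing.principal I).principal
  have haI : a ∈ I := by
    rw [ha]
    exact Submodule.mem_span_singleton_self a
  obtain ⟨c, hc⟩ := dvd_of_ann n a (f ⟨a, haI⟩) (by
    intro r hr
    have h1 : r • f ⟨a, haI⟩ = f (r • ⟨a, haI⟩) := (f.map_smul r _).symm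
    have h2 : (r • (⟨a, haI⟩ : I)) = 0 := Subtype.ext hr
    rw [h2, map_zero] at h1
    exact h1)
  refine ⟨LinearMap.toSpanSingleton (ZMod n) (ZMod n) c, fun x hx => ?_⟩
  have hx' := hx
  rw [ha] at hx'
  obtain ⟨r, hr⟩ := Submodule.mem_span_singleton.1 hx'
  have h3 : (⟨x, hx⟩ : I) = r • ⟨a, haI⟩ := Subtype.ext hr.symm
  rw [h3, f.map_smul, hc, LinearMap.toSpanSingleton_apply, ← hr, smul_eq_mul, smul_eq_mul,
    smul_eq_mul, mul_assoc]

theorem zmod_extend (p e : ℕ) [Fact p.Prime] {M : Type} [AddCommGroup M]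
    [Module (ZMod (p ^ (e + 1))) M] (N : Submodule (ZMod (p ^ (e + 1))) M)
    (f : N →ₗ[ZMod (p ^ (e + 1))] ZMod (p ^ (e + 1))) :
    ∃ F : M →ₗ[ZMod (p ^ (e + 1))] ZMod (p ^ (e + 1)), ∀ x : N, F x = f x := by
  have : NeZero (p ^ (e + 1)) := ⟨pow_ne_zero _ (Fact.out : p.Prime).ne_zero⟩
  obtain ⟨F, hF⟩ := (zmod_baer (p ^ (e + 1))).extension_property N.subtype
    N.injective_subtype f
  exact ⟨F, fun x => LinearMap.congr_fun hF x⟩

theorem zmod_separate (p e : ℕ) [Fact p.Prime] {M : Type} [AddCommGroup M]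
    [Module (ZMod (p ^ (e + 1))) M] (N : Submodule (ZMod (p ^ (e + 1))) M) (z : M)
    (hz : z ∉ N) :
    ∃ F : M →ₗ[ZMod (p ^ (e + 1))] ZMod (p ^ (e + 1)), (∀ x ∈ N, F x = 0) ∧ F z ≠ 0 := by
  have : NeZero (p ^ (e + 1)) := ⟨pow_ne_zero _ (Fact.out : p.Prime).ne_zero⟩
  generalize p ^ (e + 1) = n at *
  have hpir := zmod_pir n
  set φ : ZMod n →ₗ[ZMod n] M ⧸ N := LinearMap.toSpanSingleton (ZMod n) (M ⧸ N) (N.mkQ z) with hφ
  have hφ1 : φ 1 = N.mkQ z := by
    rw [hφ, LinearMap.toSpanSingleton_apply, one_smul]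
  obtain ⟨a, ha⟩ := (IsPrincipalIdealRing.principal (LinearMap.ker φ)).principal
  have haI : a ∈ LinearMap.ker φ := by
    rw [ha]
    exact Submodule.mem_span_singleton_self a
  have hau : ¬ IsUnit a := by
    intro hu
    obtain ⟨u, rfl⟩ := hu
    have h1 : (1 : ZMod n) ∈ LinearMap.ker φ := by
      have h2 := (LinearMap.ker φ).smul_mem (↑u⁻¹ : ZMod n) haI
      rwa [smul_eq_mul, Units.inv_mul] at h2
    rw [LinearMap.mem_ker, hφ1] at h1
    exact hz ((Submodule.Quotient.mk_eq_zero N).1 h1)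
  rw [isUnit_iff_mem_nonZeroDivisors_of_finite, mem_nonZeroDivisors_iff_right] at hau
  push Not at hau
  obtain ⟨b, hb, hb0⟩ := hau
  set ψ : ZMod n →ₗ[ZMod n] ZMod n := LinearMap.toSpanSingleton (ZMod n) (ZMod n) b with hψ
  have hker : LinearMap.ker φ ≤ LinearMap.ker ψ := by
    rw [ha, Submodule.span_le, Set.singleton_subset_iff, SetLike.mem_coe, LinearMap.mem_ker, hψ,
      LinearMap.toSpanSingleton_apply, smul_eq_mul, mul_comm]
    exact hb
  obtain ⟨F, hF⟩ := (zmod_baer n).extension_property ((LinearMap.ker φ).liftQ φ le_rfl)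
    (by rw [← LinearMap.ker_eq_bot]; exact Submodule.ker_liftQ_eq_bot _ _ _ le_rfl)
    ((LinearMap.ker φ).liftQ ψ hker)
  refine ⟨F.comp N.mkQ, ?_, ?_⟩
  · intro x hx
    rw [LinearMap.comp_apply, Submodule.mkQ_apply, (Submodule.Quotient.mk_eq_zero N).2 hx, map_zero]
  · have h1 := LinearMap.congr_fun hF (Submodule.Quotient.mk 1)
    rw [LinearMap.comp_apply, Submodule.liftQ_apply, Submodule.liftQ_apply, hφ1, hψ,
      LinearMap.toSpanSingleton_apply, one_smul] at h1
    rw [LinearMap.comp_apply, h1]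
    exact hb0

end EB
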