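import Pool.Agent.Helper27.EB.DefsB

/-!
# EB-31: a positive cone

`P g`: there is `i` with `0 < g i` and `g j = 0` for all `j < i` (the lexicographic order).  Closed under addition: compare the two indices.  `g ≠ 0`: take the first nonzero coordinate (`Finset.min'` or `WellFounded.min` on `Fin d`).
-/

set_option autoImplicit false

namespace EB

theorem exists_cone (d : ℕ) : ∃ P : Gd d → Prop, (∀ g h, P g → P h → P (g + h)) ∧ ¬ P 0 ∧
    ∀ g, g ≠ 0 → P g ∨ P (-g) := by
  refine ⟨fun g => ∃ i, 0 < g i ∧ ∀ j < i, g j = 0, ?_, ?_, ?_⟩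
  · rintro g h ⟨i, hi, hi'⟩ ⟨k, hk, hk'⟩
    rcases lt_trichotomy i k with hik | hik | hik
    · refine ⟨i, ?_, fun j hj => ?_⟩
      · rw [Pi.add_apply, hk' i hik, add_zero]
        exact hi
      · rw [Pi.add_apply, hi' j hj, hk' j (hj.trans hik), add_zero]
    · subst hik
      refine ⟨i, ?_, fun j hj => ?_⟩
      · rw [Pi.add_apply]
        exact add_pos hi hk
      · rw [Pi.add_apply, hi' j hj, hk' j hj, add_zero]
    · refine ⟨k, ?_, fun j hj => ?_⟩
      · rw [Pi.add_apply, hi' k hik, zero_add]
        exact hk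
      · rw [Pi.add_apply, hi' j (hj.trans hik), hk' j hj, add_zero]
  · rintro ⟨i, hi, _⟩
    exact lt_irrefl _ hi
  · intro g hg
    have hne : {i | g i ≠ 0}.Nonempty := by
      by_contra hcon
      rw [Set.not_nonempty_iff_eq_empty] at hcon
      apply hg
      funext i
      by_contra hi
      have : i ∈ {i | g i ≠ 0} := hi
      rw [hcon] at this
      exact this
    obtain ⟨i, hi, hmin⟩ := (wellFounded_lt (α := Fin d)).has_min _ hne
    have h0 : ∀ j < i, g j = 0 := by
      intro j hj
      by_contra hcon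
      exact hmin j hcon hj
    rcases lt_or_gt_of_ne (hi : g i ≠ 0) with h | h
    · right
      refine ⟨i, ?_, fun j hj => ?_⟩
      · rw [Pi.neg_apply]
        exact neg_pos.2 h
      · rw [Pi.neg_apply, h0 j hj, neg_zero]
    · left
      exact ⟨i, h, h0⟩

end EB
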