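import Pool.Agent.Helper27.EB.Coef

/-!
# EB-02: `p` is prime in `(Z/p^(e+1))[Z^d]`

Ring homomorphism `π : (Z/p^(e+1))[Z^d] → (Z/p)[Z^d]` from `ZMod.castHom (p ∣ p^(e+1)) (ZMod p)` (`AddMonoidAlgebra.mapRangeRingHom`).  `π a = 0` iff `p ∣ a`: coefficient by coefficient
(`p_pow_dvd_iff` with `j = 1`; the kernel of the cast `ZMod (p^(e+1)) → ZMod p` is `(p)`).  `(Z/p)[Z^d]` has no zero divisors: the instance needs `UniqueSums (Fin d → ℤ)`
(or `TwoUniqueSums`, instances for `ℤ` and for products).  So `π (P ^ m) = (π P) ^ m ≠ 0`.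
-/

set_option autoImplicit false

namespace EB

theorem not_dvd_pow (p e d : ℕ) [Fact p.Prime] (P : Rr (p ^ (e + 1)) d)
    (h : ¬ (p : Rr (p ^ (e + 1)) d) ∣ P) (m : ℕ) : ¬ (p : Rr (p ^ (e + 1)) d) ∣ P ^ m := by
  classical
  have hdvd : p ∣ p ^ (e + 1) := dvd_pow_self p (Nat.succ_ne_zero e)
  have hne : NeZero (p ^ (e + 1)) := ⟨pow_ne_zero _ (Fact.out : p.Prime).ne_zero⟩
  let c : ZMod (p ^ (e + 1)) →+* ZMod p := ZMod.castHom hdvd (ZMod p)
  let f : Rr (p ^ (e + 1)) d →+* Rr p d := AddMonoidAlgebra.mapRingHom (Gd d) c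
  have hf : ∀ (a : Rr (p ^ (e + 1)) d) g, (f a).coeff g = c (a.coeff g) := fun a g =>
    AddMonoidAlgebra.coeff_mapRingHom _ _ _
  -- the kernel of `c`
  have hc : ∀ x : ZMod (p ^ (e + 1)), c x = 0 → (p : ZMod (p ^ (e + 1))) ∣ x := by
    intro x hx
    have h1 : ((x.val : ℕ) : ZMod p) = 0 := by
      rw [← ZMod.natCast_zmod_val x, map_natCast] at hx
      exact hx
    rw [ZMod.natCast_eq_zero_iff] at h1
    obtain ⟨k, hk⟩ := h1
    refine ⟨(k : ZMod (p ^ (e + 1))), ?_⟩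
    rw [← ZMod.natCast_zmod_val x, hk]
    push_cast
    rfl
  have key : ∀ a : Rr (p ^ (e + 1)) d, f a = 0 → (p : Rr (p ^ (e + 1)) d) ∣ a := by
    intro a ha
    rw [← pow_one (p : Rr (p ^ (e + 1)) d), p_pow_dvd_iff]
    intro g
    rw [pow_one]
    apply hc
    rw [← hf, ha]
    rfl
  have hfp : f (p : Rr (p ^ (e + 1)) d) = 0 := by
    rw [map_natCast]
    have h1 : ((p : ℕ) : Rr p d) = algebraMap (ZMod p) (Rr p d) (p : ZMod p) := by
      rw [map_natCast]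
    rw [h1, ZMod.natCast_self, map_zero]
  have hP : f P ≠ 0 := fun h0 => h (key P h0)
  intro hd
  have h1 : f (P ^ m) = 0 := by
    obtain ⟨q, hq⟩ := hd
    rw [hq, map_mul, hfp, zero_mul]
  rw [map_pow] at h1
  have : NoZeroDivisors (Rr p d) := inferInstance
  exact hP (eq_zero_of_pow_eq_zero h1)

end EB
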